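import Pool.Agent.TwinPerm.Greedy
import Pool.Agent.TwinPerm.ES3

set_option autoImplicit false

/-!
# SampleT: few bad triples (Erdos-Szekeres)

Proof. `Ω3 = Samp3 D Z`, `|Ω3| = (D Z^3)^D`. For `ω ∈ Ω3` let `ω12, ω13, ω23 ∈ Samp D Z` be the three projections (`ω g = (h, z1, z2, z3)`, `ω12 g = (h, z1, z2)`, ...).
Let `j_i g` be the sub-column of the sampled point in the window `U_i` (`i = 1, 2, 3`), i.e. `j_1 = jL U1 ω12 = jL U1 ω13`, `j_2 = jR U2 ω12 = jL U2 ω23`, `j_3 = jR U3 ω13 = jR U3 ω23`.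
`g` is called tied in the coordinate `i` if there is `g' ≠ g` whose sampled point of `U_i` exists and has the same sub-column `j_i g' = j_i g`.
`T(ω)` = set of all `g` such that the three sampled points exist, `g` is in no chain of the pairs `12`, `13`, `23` (`¬ GoodAt`), and `g` is
not tied in any coordinate. The functions `j_1, j_2, j_3` are injective on `T(ω)`, and by `IsGreedy` (third part, `T(ω) ⊆ dset` is disjoint
from the chains) every chain in `T(ω)` for one of the three pairs has at most `L - 1` elements; by `es3`, `|T(ω)| ≤ L^3`. So `∑_ω |T(ω)| ≤ |Ω3| L^3`.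

Let `(P1, P2, P3)` be a bad triple (in the set on the left), `g = lab P1 / D`, `h = lab P1 % D`, `cyl = {ω | ω g = (h, sl P1, sl P2, sl P3)}`, `|cyl| = |Ω3| / (D Z^3)`.
(a) `#{ω ∈ cyl | GoodAt U1 U2 ω12 g} ≤ |cyl| / 4`: the projection `ω ↦ ω12` maps `cyl` onto `{Hit (lab P1) (sl P1) (sl P2)}` with fibres of constant size, and `¬ GoodPair P1 P2`.
The same for `13`, `23`.
(b) `#{ω ∈ cyl | g tied in coordinate 1} ≤ |cyl| / 24`: union bound over the points `P' ∈ X`, `u P' = U1`, `j P' = j P1`, with the group `g' = lab P' / D ≠ g`: the event is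
`ω g' = (lab P' % D, sl P', *, *)`, of size `|cyl| / (D Z)`; there are at most `D Z / 24` points `P'` by `htie`. The same for the coordinates 2 and 3.
So at least `|cyl| (1 - 3/4 - 3/24) = |cyl| / 8` of the `ω ∈ cyl` have `g ∈ T(ω)`. For given `ω` and `g` there is at most one bad triple with `ω ∈ cyl` and
`lab P1 / D = g` (`hinj`). Hence `#bad * |cyl| / 8 ≤ ∑_ω |T(ω)| ≤ |Ω3| L^3`, i.e. `#bad ≤ 8 L^3 D Z^3`.
-/

namespace Pool.Agent.TwinPerm

open Finset

namespace ST

/-- values of one coordinate of the sample space of three windows -/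
abbrev A3 (D Z : ℕ) : Type := Fin D × Fin Z × Fin Z × Fin Z

/-- projection to the windows 1, 2 -/
def e12 (D Z : ℕ) : A3 D Z ≃ (Fin D × Fin Z × Fin Z) × Fin Z where
  toFun a := ((a.1, a.2.1, a.2.2.1), a.2.2.2)
  invFun b := (b.1.1, b.1.2.1, b.1.2.2, b.2)
  left_inv _ := rfl
  right_inv _ := rfl

/-- projection to the windows 1, 3 -/
def e13 (D Z : ℕ) : A3 D Z ≃ (Fin D × Fin Z × Fin Z) × Fin Z where
  toFun a := ((a.1, a.2.1, a.2.2.2), a.2.2.1)
  invFun b := (b.1.1, b.1.2.1, b.2, b.1.2.2)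
  left_inv _ := rfl
  right_inv _ := rfl

/-- projection to the windows 2, 3 -/
def e23 (D Z : ℕ) : A3 D Z ≃ (Fin D × Fin Z × Fin Z) × Fin Z where
  toFun a := ((a.1, a.2.2.1, a.2.2.2), a.2.1)
  invFun b := (b.1.1, b.2, b.1.2.1, b.1.2.2)
  left_inv _ := rfl
  right_inv _ := rfl

open Classical in
theorem card_fiber {ι A B C : Type} [Fintype ι] [Fintype A] [Fintype B] [Fintype C]
    [DecidableEq ι] [DecidableEq A] [DecidableEq B] [DecidableEq C] (e : A ≃ B × C) (g : ι) (a : A) (p : (ι → B) → Prop) :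
    (univ.filter (fun ω : ι → A => ω g = a ∧ p (fun i => (e (ω i)).1))).card =
      (univ.filter (fun ω : ι → B => ω g = (e a).1 ∧ p ω)).card *
        (univ.filter (fun τ : ι → C => τ g = (e a).2)).card := by
  rw [← Finset.card_product]
  refine Finset.card_nbij' (fun ω => (fun i => (e (ω i)).1, fun i => (e (ω i)).2))
    (fun w => fun i => e.symm (w.1 i, w.2 i)) ?_ ?_ ?_ ?_
  · intro ω hω
    simp only [coe_filter, mem_univ, true_and, Set.mem_ofPred_eq] at hω
    simp only [coe_product, coe_filter, mem_univ, true_and, Set.mem_prod, Set.mem_ofPred_eq]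
    exact ⟨⟨by rw [hω.1], hω.2⟩, by rw [hω.1]⟩
  · intro w hw
    simp only [coe_product, coe_filter, mem_univ, true_and, Set.mem_prod, Set.mem_ofPred_eq] at hw
    simp only [coe_filter, mem_univ, true_and, Set.mem_ofPred_eq]
    refine ⟨?_, ?_⟩
    · rw [hw.1.1, hw.2]
      simp
    · simpa using hw.1.2
  · intro ω _
    funext i
    simp
  · intro w _
    ext i <;> simp

open Classical in
theorem card_two {ι A : Type} [Fintype ι] [Fintype A] [DecidableEq ι] [DecidableEq A] (g g' : ι) (hgg : g ≠ g') (a : A) (S : Finset A) :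
    (univ.filter (fun ω : ι → A => ω g = a ∧ ω g' ∈ S)).card * Fintype.card A =
      S.card * (univ.filter (fun ω : ι → A => ω g = a)).card := by
  rw [← Finset.card_univ (α := A), ← Finset.card_product, ← Finset.card_product]
  refine Finset.card_nbij' (fun w => (w.1 g', Function.update w.1 g' w.2))
    (fun w => (Function.update w.2 g' w.1, w.2 g')) ?_ ?_ ?_ ?_
  · intro w hw
    simp only [coe_product, coe_filter, mem_univ, true_and, Set.mem_prod, Set.mem_ofPred_eq] at hw ⊢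
    refine ⟨by simpa using hw.1.2, ?_⟩
    rw [Function.update_of_ne hgg]
    exact hw.1.1
  · intro w hw
    simp only [coe_product, coe_filter, mem_univ, true_and, Set.mem_prod, Set.mem_ofPred_eq] at hw ⊢
    refine ⟨⟨?_, ?_⟩, by simp⟩
    · rw [Function.update_of_ne hgg]
      exact hw.2
    · rw [Function.update_self]
      simpa using hw.1
  · intro w _
    simp
  · intro w _
    simp

open Classical in
theorem card_one {ι A : Type} [Fintype ι] [Fintype A] [DecidableEq ι] [DecidableEq A] (g : ι) (a : A) :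
    (univ.filter (fun ω : ι → A => ω g = a)).card * Fintype.card A = Fintype.card (ι → A) := by
  rw [← Finset.card_univ (α := A), ← Finset.card_product, ← Finset.card_univ]
  refine Finset.card_nbij' (fun w => Function.update w.1 g w.2)
    (fun w => (Function.update w g a, w g)) ?_ ?_ ?_ ?_
  · intro w _
    simp
  · intro w _
    simp
  · intro w hw
    simp only [coe_product, coe_filter, mem_univ, true_and, Set.mem_prod, Set.mem_ofPred_eq] at hw
    have h1 : w.1 g = a := hw.1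
    ext1
    · simp only [Function.update_idem]
      rw [← h1]
      simp
    · simp
  · intro w _
    simp

section Main

variable {α : Type} (X : Finset α) (u j lab sl : α → ℕ) (D Z L q : ℕ)

open Classical in
theorem quarter (e : A3 D Z ≃ (Fin D × Fin Z × Fin Z) × Fin Z) (g : Fin D) (a : A3 D Z) (P Q : α)
    (hg : g.val = lab P / D) (h1 : (e a).1.1.val = lab P % D) (h2 : (e a).1.2.1.val = sl P)
    (h3 : (e a).1.2.2.val = sl Q) (hbad : ¬ GoodPair X u j lab sl D Z L q P Q) :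
    4 * (univ.filter (fun ω : Samp3 D Z => ω g = a ∧
      GoodAt X u j lab sl D Z L q (u P) (u Q) (fun i => (e (ω i)).1) g)).card ≤
      (univ.filter (fun ω : Samp3 D Z => ω g = a)).card := by
  have key := card_fiber e g a (fun w => GoodAt X u j lab sl D Z L q (u P) (u Q) w g)
  have key2 := card_fiber e g a (fun _ => True)
  simp only [and_true] at key2
  have hh : ∀ w : Samp D Z, (∀ g', Hit D Z (lab P) (sl P) (sl Q) w g' ↔ (g' = g ∧ w g = (e a).1)) := by
    intro w g'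
    unfold Hit
    constructor
    · rintro ⟨ha, hb, hc, hd⟩
      have hgg : g' = g := Fin.ext (ha.trans hg.symm)
      subst hgg
      refine ⟨rfl, ?_⟩
      refine Prod.ext (Fin.ext ?_) (Prod.ext (Fin.ext ?_) (Fin.ext ?_))
      · rw [hb, h1]
      · rw [hc, h2]
      · rw [hd, h3]
    · rintro ⟨rfl, hb⟩
      rw [hb]
      exact ⟨hg, h1, h2, h3⟩
  unfold GoodPair at hbad
  rw [not_le] at hbad
  have e1 : (univ.filter (fun ω : Samp D Z => ∃ g', Hit D Z (lab P) (sl P) (sl Q) ω g' ∧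
      GoodAt X u j lab sl D Z L q (u P) (u Q) ω g')) =
      univ.filter (fun ω : Samp D Z => ω g = (e a).1 ∧ GoodAt X u j lab sl D Z L q (u P) (u Q) ω g) := by
    apply Finset.filter_congr
    intro w _
    constructor
    · rintro ⟨g', hg', hga⟩
      obtain ⟨rfl, hw⟩ := (hh w g').1 hg'
      exact ⟨hw, hga⟩
    · rintro ⟨hw, hga⟩
      exact ⟨g, (hh w g).2 ⟨rfl, hw⟩, hga⟩
  have e2 : (univ.filter (fun ω : Samp D Z => ∃ g', Hit D Z (lab P) (sl P) (sl Q) ω g')) =
      univ.filter (fun ω : Samp D Z => ω g = (e a).1) := by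
    apply Finset.filter_congr
    intro w _
    constructor
    · rintro ⟨g', hg'⟩
      exact ((hh w g').1 hg').2
    · intro hw
      exact ⟨g, (hh w g).2 ⟨rfl, hw⟩⟩
  rw [e1, e2] at hbad
  rw [key, key2, ← mul_assoc]
  exact Nat.mul_le_mul_right _ hbad.le

open Classical in
theorem jv_eq (hinj : ∀ P ∈ X, ∀ Q ∈ X, u P = u Q → lab P = lab Q → sl P = sl Q → P = Q)
    (P : α) (hP : P ∈ X) (g h z : ℕ) (hl : lab P = g * D + h) (hs : sl P = z) :
    jv X u j lab sl D (u P) g h z = j P := by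
  have hex : ∃ Q ∈ X, u Q = u P ∧ lab Q = g * D + h ∧ sl Q = z := ⟨P, hP, rfl, hl, hs⟩
  unfold jv
  rw [dif_pos hex]
  have hc := hex.choose_spec
  rw [hinj _ hc.1 P hP hc.2.1 (hc.2.2.1.trans hl.symm) (hc.2.2.2.trans hs.symm)]

/-- `g` is tied in the coordinate `c` -/
def Tied (c : A3 D Z → Fin Z) (U : ℕ) (ω : Samp3 D Z) (g : Fin D) : Prop :=
  ∃ g', g' ≠ g ∧ Occ X u lab sl D U g'.val (ω g').1.val (c (ω g')).val ∧
      jv X u j lab sl D U g'.val (ω g').1.val (c (ω g')).val =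
        jv X u j lab sl D U g.val (ω g).1.val (c (ω g)).val

open Classical in
theorem tie_bound (hD0 : 0 < D) (hZ : 0 < Z)
    (hinj : ∀ P ∈ X, ∀ Q ∈ X, u P = u Q → lab P = lab Q → sl P = sl Q → P = Q)
    (htie : ∀ U J, 24 * (X.filter (fun P => u P = U ∧ j P = J)).card ≤ D * Z)
    (c : A3 D Z → Fin Z)
    (hc : ∀ h z, (univ.filter (fun b : A3 D Z => b.1 = h ∧ c b = z)).card = Z * Z)
    (P : α) (hP : P ∈ X) (g : Fin D) (hg : g.val = lab P / D) (a : A3 D Z)
    (ha : a.1.val = lab P % D) (hs : (c a).val = sl P) :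
    24 * (univ.filter (fun ω : Samp3 D Z => ω g = a ∧ Tied X u j lab sl D Z c (u P) ω g)).card ≤
      (univ.filter (fun ω : Samp3 D Z => ω g = a)).card := by
  set C := (univ.filter (fun ω : Samp3 D Z => ω g = a)).card with hC
  set S := X.filter (fun P' => u P' = u P ∧ j P' = j P) with hS
  set F : α → Finset (Samp3 D Z) := fun P' => univ.filter (fun ω : Samp3 D Z => ω g = a ∧ ∃ g', g' ≠ g ∧
    g'.val = lab P' / D ∧ (ω g').1.val = lab P' % D ∧ (c (ω g')).val = sl P') with hF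
  have hlP : lab P = g.val * D + a.1.val := by
    rw [hg, ha, mul_comm]
    exact (Nat.div_add_mod _ _).symm
  have hsub : (univ.filter (fun ω : Samp3 D Z => ω g = a ∧ Tied X u j lab sl D Z c (u P) ω g)) ⊆
      S.biUnion F := by
    intro ω hω
    rw [mem_filter] at hω
    obtain ⟨-, hωg, g', hg'g, ⟨P', hP', hu', hl', hs'⟩, hj⟩ := hω
    rw [mem_biUnion]
    refine ⟨P', ?_, ?_⟩
    · rw [hS, mem_filter]
      refine ⟨hP', hu', ?_⟩
      have h1 : jv X u j lab sl D (u P') g'.val (ω g').1.val (c (ω g')).val = j P' :=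
        jv_eq X u j lab sl D hinj P' hP' _ _ _ hl' hs'
      have h2 : jv X u j lab sl D (u P) g.val (ω g).1.val (c (ω g)).val = j P := by
        rw [hωg]
        exact jv_eq X u j lab sl D hinj P hP _ _ _ hlP hs.symm
      rw [← h1, ← h2, hu', hj]
    · rw [hF]
      simp only [mem_filter, mem_univ, true_and]
      refine ⟨hωg, g', hg'g, ?_, ?_, hs'.symm⟩
      · rw [hl', mul_comm, Nat.mul_add_div hD0, Nat.div_eq_of_lt (ω g').1.isLt, add_zero]
      · rw [hl', mul_comm, Nat.mul_add_mod, Nat.mod_eq_of_lt (ω g').1.isLt]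
  have hFc : ∀ P' ∈ S, (F P').card * (D * Z) ≤ C := by
    intro P' _
    by_cases hne : ∃ ω, ω ∈ F P'
    · obtain ⟨ω0, hω0⟩ := hne
      rw [hF] at hω0
      simp only [mem_filter, mem_univ, true_and] at hω0
      obtain ⟨-, g', hg'g, hg', hh', hz'⟩ := hω0
      have hcard := card_two g g' (Ne.symm hg'g) a
        (univ.filter (fun b : A3 D Z => b.1 = (ω0 g').1 ∧ c b = c (ω0 g')))
      rw [hc] at hcard
      have hle : F P' ⊆ univ.filter (fun ω : Samp3 D Z => ω g = a ∧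
          ω g' ∈ univ.filter (fun b : A3 D Z => b.1 = (ω0 g').1 ∧ c b = c (ω0 g'))) := by
        intro ω hω
        rw [hF] at hω
        simp only [mem_filter, mem_univ, true_and] at hω ⊢
        obtain ⟨h1, g'', hg''g, hg'', hh'', hz''⟩ := hω
        have : g'' = g' := Fin.ext (hg''.trans hg'.symm)
        subst this
        exact ⟨h1, Fin.ext (hh''.trans hh'.symm), Fin.ext (hz''.trans hz'.symm)⟩
      have hA : Fintype.card (A3 D Z) = (Z * Z) * (D * Z) := by
        simp only [A3, Fintype.card_prod, Fintype.card_fin]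
        ring
      rw [hA] at hcard
      have hZZ : 0 < Z * Z := Nat.mul_pos hZ hZ
      have h3 : (univ.filter (fun ω : Samp3 D Z => ω g = a ∧
          ω g' ∈ univ.filter (fun b : A3 D Z => b.1 = (ω0 g').1 ∧ c b = c (ω0 g')))).card * (D * Z) = C := by
        apply Nat.eq_of_mul_eq_mul_left hZZ
        rw [hC, ← hcard]
        ring
      rw [← h3]
      exact Nat.mul_le_mul_right _ (Finset.card_le_card hle)
    · have : F P' = ∅ := by
        rw [Finset.eq_empty_iff_forall_notMem]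
        intro ω hω
        exact hne ⟨ω, hω⟩
      rw [this]
      simp
  have h1 : (S.biUnion F).card * (D * Z) ≤ S.card * C := by
    calc (S.biUnion F).card * (D * Z) ≤ (∑ P' ∈ S, (F P').card) * (D * Z) :=
          Nat.mul_le_mul_right _ Finset.card_biUnion_le
      _ = ∑ P' ∈ S, (F P').card * (D * Z) := by rw [Finset.sum_mul]
      _ ≤ ∑ _P' ∈ S, C := Finset.sum_le_sum hFc
      _ = S.card * C := by rw [Finset.sum_const, smul_eq_mul]
  have h2 : 24 * S.card ≤ D * Z := htie (u P) (j P)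
  have hDZ : 0 < D * Z := Nat.mul_pos hD0 hZ
  have h3 := Finset.card_le_card hsub
  refine le_trans (Nat.mul_le_mul_left 24 h3) ?_
  apply Nat.le_of_mul_le_mul_right _ hDZ
  calc 24 * (S.biUnion F).card * (D * Z) = 24 * ((S.biUnion F).card * (D * Z)) := by ring
    _ ≤ 24 * (S.card * C) := Nat.mul_le_mul_left _ h1
    _ = (24 * S.card) * C := by ring
    _ ≤ (D * Z) * C := Nat.mul_le_mul_right _ h2
    _ = C * (D * Z) := by ring

open Classical in
/-- the set `T(ω)` -/
noncomputable def TT (U1 U2 U3 : ℕ) (ω : Samp3 D Z) : Finset (Fin D) :=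
  univ.filter (fun g : Fin D =>
    (Occ X u lab sl D U1 g.val (ω g).1.val (ω g).2.1.val ∧
     Occ X u lab sl D U2 g.val (ω g).1.val (ω g).2.2.1.val ∧
     Occ X u lab sl D U3 g.val (ω g).1.val (ω g).2.2.2.val) ∧
    (¬ GoodAt X u j lab sl D Z L q U1 U2 (fun i => (e12 D Z (ω i)).1) g ∧
     ¬ GoodAt X u j lab sl D Z L q U1 U3 (fun i => (e13 D Z (ω i)).1) g ∧
     ¬ GoodAt X u j lab sl D Z L q U2 U3 (fun i => (e23 D Z (ω i)).1) g) ∧
    (¬ Tied X u j lab sl D Z (fun b => b.2.1) U1 ω g ∧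
     ¬ Tied X u j lab sl D Z (fun b => b.2.2.1) U2 ω g ∧
     ¬ Tied X u j lab sl D Z (fun b => b.2.2.2) U3 ω g))

open Classical in
theorem chain_bound (hL : 0 < L) (hD : D = L * q) (U U' : ℕ) (w : Samp D Z) (T : Finset (Fin D))
    (hocc : ∀ g ∈ T, Occ X u lab sl D U g.val (w g).1.val (w g).2.1.val ∧
      Occ X u lab sl D U' g.val (w g).1.val (w g).2.2.val)
    (hgood : ∀ g ∈ T, ¬ GoodAt X u j lab sl D Z L q U U' w g) (C : Finset (Fin D)) (hCT : C ⊆ T)
    (hch : Chain2 (jL X u j lab sl D Z U w) (jR X u j lab sl D Z U' w) C) : C.card ≤ L := by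
  have hcard : (dset X u lab sl D Z U U' w).card ≤ L * q := by
    rw [← hD]
    exact le_trans (Finset.card_le_univ _) (by simp)
  have hsp := gfam_spec (dset X u lab sl D Z U U' w) (jL X u j lab sl D Z U w) (jR X u j lab sl D Z U' w)
    L q hL hcard
  refine le_of_lt (hsp.2.2 C ?_ ?_ hch)
  · intro g hg
    unfold dset
    rw [mem_filter]
    exact ⟨mem_univ _, hocc g (hCT hg)⟩
  · intro i
    rw [Finset.disjoint_left]
    intro g hg hgi
    exact hgood g (hCT hg) ⟨i, hgi⟩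

open Classical in
theorem TT_card (hL : 0 < L) (hD : D = L * q) (U1 U2 U3 : ℕ) (ω : Samp3 D Z) :
    (TT X u j lab sl D Z L q U1 U2 U3 ω).card ≤ L ^ 3 := by
  have hmem : ∀ g ∈ TT X u j lab sl D Z L q U1 U2 U3 ω, _ := fun g hg => (mem_filter.1 hg).2
  refine es3 _ (fun g => jv X u j lab sl D U1 g.val (ω g).1.val (ω g).2.1.val)
    (fun g => jv X u j lab sl D U2 g.val (ω g).1.val (ω g).2.2.1.val)
    (fun g => jv X u j lab sl D U3 g.val (ω g).1.val (ω g).2.2.2.val) ?_ ?_ ?_ L ?_ ?_ ?_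
  · intro g hg g' hg' heq
    by_contra hne
    exact (hmem g hg).2.2.1 ⟨g', fun h => hne h.symm, (hmem g' hg').1.1, heq.symm⟩
  · intro g hg g' hg' heq
    by_contra hne
    exact (hmem g hg).2.2.2.1 ⟨g', fun h => hne h.symm, (hmem g' hg').1.2.1, heq.symm⟩
  · intro g hg g' hg' heq
    by_contra hne
    exact (hmem g hg).2.2.2.2 ⟨g', fun h => hne h.symm, (hmem g' hg').1.2.2, heq.symm⟩
  · intro C hC hch
    exact chain_bound X u j lab sl D Z L q hL hD U1 U2 (fun i => (e12 D Z (ω i)).1) _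
      (fun g hg => ⟨(hmem g hg).1.1, (hmem g hg).1.2.1⟩) (fun g hg => (hmem g hg).2.1.1) C hC hch
  · intro C hC hch
    exact chain_bound X u j lab sl D Z L q hL hD U1 U3 (fun i => (e13 D Z (ω i)).1) _
      (fun g hg => ⟨(hmem g hg).1.1, (hmem g hg).1.2.2⟩) (fun g hg => (hmem g hg).2.1.2.1) C hC hch
  · intro C hC hch
    exact chain_bound X u j lab sl D Z L q hL hD U2 U3 (fun i => (e23 D Z (ω i)).1) _
      (fun g hg => ⟨(hmem g hg).1.2.1, (hmem g hg).1.2.2⟩) (fun g hg => (hmem g hg).2.1.2.2) C hC hch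

theorem card_c {D Z : ℕ} (f : Fin Z × Fin Z × Fin Z ≃ Fin Z × (Fin Z × Fin Z)) (h : Fin D) (z : Fin Z) :
    (univ.filter (fun b : A3 D Z => b.1 = h ∧ (f b.2).1 = z)).card = Z * Z := by
  have : Z * Z = (univ : Finset (Fin Z × Fin Z)).card := by simp
  rw [this]
  refine Finset.card_nbij' (fun b => (f b.2).2) (fun w => (h, f.symm (z, w))) ?_ ?_ ?_ ?_
  · intro b _
    simp
  · intro w _
    simp
  · intro b hb
    simp only [coe_filter, mem_univ, true_and, Set.mem_ofPred_eq] at hb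
    obtain ⟨h1, h2⟩ := hb
    refine Prod.ext h1.symm ?_
    rw [← h2]
    simp
  · intro w _
    simp

end Main

end ST

open Classical in
theorem sample_triple {α : Type} (X : Finset α) (u j lab sl : α → ℕ) (D Z L q : ℕ) (hL : 0 < L) (hD : D = L * q)
    (hq : 0 < q) (hZ : 0 < Z)
    (hlab : ∀ P ∈ X, lab P < D * D) (hsl : ∀ P ∈ X, sl P < Z)
    (hinj : ∀ P ∈ X, ∀ Q ∈ X, u P = u Q → lab P = lab Q → sl P = sl Q → P = Q)
    (htie : ∀ U J, 24 * (X.filter (fun P => u P = U ∧ j P = J)).card ≤ D * Z) (U1 U2 U3 : ℕ) :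
    ((X ×ˢ X ×ˢ X).filter (fun t => u t.1 = U1 ∧ u t.2.1 = U2 ∧ u t.2.2 = U3 ∧ lab t.1 = lab t.2.1 ∧
      lab t.2.1 = lab t.2.2 ∧ ¬ GoodPair X u j lab sl D Z L q t.1 t.2.1 ∧
      ¬ GoodPair X u j lab sl D Z L q t.1 t.2.2 ∧ ¬ GoodPair X u j lab sl D Z L q t.2.1 t.2.2)).card ≤
      8 * L ^ 3 * D * Z ^ 3 := by
  have hD0 : 0 < D := by rw [hD]; exact Nat.mul_pos hL hq
  set B := (X ×ˢ X ×ˢ X).filter (fun t => u t.1 = U1 ∧ u t.2.1 = U2 ∧ u t.2.2 = U3 ∧ lab t.1 = lab t.2.1 ∧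
      lab t.2.1 = lab t.2.2 ∧ ¬ GoodPair X u j lab sl D Z L q t.1 t.2.1 ∧
      ¬ GoodPair X u j lab sl D Z L q t.1 t.2.2 ∧ ¬ GoodPair X u j lab sl D Z L q t.2.1 t.2.2) with hB
  -- the group and the value of the sample
  set G : α × α × α → Fin D := fun t => if h : lab t.1 / D < D then ⟨lab t.1 / D, h⟩ else ⟨0, hD0⟩ with hG
  set V : α × α × α → ST.A3 D Z := fun t =>
    (⟨lab t.1 % D, Nat.mod_lt _ hD0⟩, ⟨sl t.1 % Z, Nat.mod_lt _ hZ⟩, ⟨sl t.2.1 % Z, Nat.mod_lt _ hZ⟩,
      ⟨sl t.2.2 % Z, Nat.mod_lt _ hZ⟩) with hV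
  set K : ℕ := Fintype.card (Samp3 D Z) / Fintype.card (ST.A3 D Z) with hK
  have hA : Fintype.card (ST.A3 D Z) = D * Z ^ 3 := by
    simp only [ST.A3, Fintype.card_prod, Fintype.card_fin]
    ring
  have hApos : 0 < Fintype.card (ST.A3 D Z) := by rw [hA]; positivity
  have hcyl : ∀ (g : Fin D) (a : ST.A3 D Z), (univ.filter (fun ω : Samp3 D Z => ω g = a)).card = K := by
    intro g a
    rw [hK]
    exact (Nat.div_eq_of_eq_mul_left hApos (ST.card_one g a).symm).symm
  have hKmul : K * (D * Z ^ 3) = Fintype.card (Samp3 D Z) := by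
    have := ST.card_one (A := ST.A3 D Z) (⟨0, hD0⟩ : Fin D) (⟨0, hD0⟩, ⟨0, hZ⟩, ⟨0, hZ⟩, ⟨0, hZ⟩)
    rw [hcyl, hA] at this
    exact this
  have hKpos : 0 < K := by
    have h1 : 0 < Fintype.card (Samp3 D Z) :=
      Fintype.card_pos_iff.2 ⟨fun _ => (⟨0, hD0⟩, ⟨0, hZ⟩, ⟨0, hZ⟩, ⟨0, hZ⟩)⟩
    rw [← hKmul] at h1
    exact Nat.pos_of_mul_pos_right h1
  -- each bad triple
  have hbad : ∀ t ∈ B, K ≤ 8 * (univ.filter (fun ω : Samp3 D Z => ω (G t) = V t ∧
      G t ∈ ST.TT X u j lab sl D Z L q U1 U2 U3 ω)).card := by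
    rintro ⟨P1, P2, P3⟩ ht
    rw [hB, mem_filter] at ht
    obtain ⟨hmem, hu1, hu2, hu3, hl12, hl23, hb12, hb13, hb23⟩ := ht
    simp only [mem_product] at hmem
    simp only at hu1 hu2 hu3 hl12 hl23 hb12 hb13 hb23
    obtain ⟨hP1, hP2, hP3⟩ := hmem
    have hlt : lab P1 / D < D := Nat.div_lt_of_lt_mul (hlab P1 hP1)
    have hGv : (G (P1, P2, P3)).val = lab P1 / D := by
      rw [hG]
      simp only [dif_pos hlt]
    set g := G (P1, P2, P3) with hg
    set a := V (P1, P2, P3) with ha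
    have ha1 : a.1.val = lab P1 % D := rfl
    have ha2 : a.2.1.val = sl P1 := Nat.mod_eq_of_lt (hsl P1 hP1)
    have ha3 : a.2.2.1.val = sl P2 := Nat.mod_eq_of_lt (hsl P2 hP2)
    have ha4 : a.2.2.2.val = sl P3 := Nat.mod_eq_of_lt (hsl P3 hP3)
    have q12 := ST.quarter X u j lab sl D Z L q (ST.e12 D Z) g a P1 P2 hGv ha1 ha2 ha3 hb12
    have q13 := ST.quarter X u j lab sl D Z L q (ST.e13 D Z) g a P1 P3 hGv ha1 ha2 ha4 hb13
    have q23 := ST.quarter X u j lab sl D Z L q (ST.e23 D Z) g a P2 P3 (hGv.trans (by rw [hl12]))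
      (ha1.trans (by rw [hl12])) ha3 ha4 hb23
    have t1 := ST.tie_bound X u j lab sl D Z hD0 hZ hinj htie (fun b => b.2.1)
      (fun h z => ST.card_c (Equiv.refl _) h z) P1 hP1 g hGv a ha1 ha2
    have t2 := ST.tie_bound X u j lab sl D Z hD0 hZ hinj htie (fun b => b.2.2.1)
      (fun h z => ST.card_c ⟨fun b => (b.2.1, b.1, b.2.2), fun b => (b.2.1, b.1, b.2.2), fun _ => rfl, fun _ => rfl⟩ h z)
      P2 hP2 g (hGv.trans (by rw [hl12])) a (ha1.trans (by rw [hl12])) ha3
    have t3 := ST.tie_bound X u j lab sl D Z hD0 hZ hinj htie (fun b => b.2.2.2)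
      (fun h z => ST.card_c ⟨fun b => (b.2.2, b.1, b.2.1), fun b => (b.2.1, b.2.2, b.1), fun _ => rfl, fun _ => rfl⟩ h z)
      P3 hP3 g (hGv.trans (by rw [hl12, hl23])) a (ha1.trans (by rw [hl12, hl23])) ha4
    rw [hcyl] at q12 q13 q23 t1 t2 t3
    rw [hu1] at q12 q13 t1
    rw [hu2] at q12 q23 t2
    rw [hu3] at q13 q23 t3
    have hsub : (univ.filter (fun ω : Samp3 D Z => ω g = a)) ⊆
        (univ.filter (fun ω : Samp3 D Z => ω g = a ∧ g ∈ ST.TT X u j lab sl D Z L q U1 U2 U3 ω)) ∪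
        ((univ.filter (fun ω : Samp3 D Z => ω g = a ∧
          GoodAt X u j lab sl D Z L q U1 U2 (fun i => (ST.e12 D Z (ω i)).1) g)) ∪
        ((univ.filter (fun ω : Samp3 D Z => ω g = a ∧
          GoodAt X u j lab sl D Z L q U1 U3 (fun i => (ST.e13 D Z (ω i)).1) g)) ∪
        ((univ.filter (fun ω : Samp3 D Z => ω g = a ∧
          GoodAt X u j lab sl D Z L q U2 U3 (fun i => (ST.e23 D Z (ω i)).1) g)) ∪
        ((univ.filter (fun ω : Samp3 D Z => ω g = a ∧ ST.Tied X u j lab sl D Z (fun b => b.2.1) U1 ω g)) ∪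
        ((univ.filter (fun ω : Samp3 D Z => ω g = a ∧ ST.Tied X u j lab sl D Z (fun b => b.2.2.1) U2 ω g)) ∪
        (univ.filter (fun ω : Samp3 D Z => ω g = a ∧ ST.Tied X u j lab sl D Z (fun b => b.2.2.2) U3 ω g))))))) := by
      intro ω hω
      have hωg : ω g = a := (mem_filter.1 hω).2
      simp only [mem_union, mem_filter, mem_univ, true_and]
      by_contra hcon
      simp only [not_or, not_and] at hcon
      obtain ⟨c1, c2, c3, c4, c5, c6, c7⟩ := hcon
      apply c1 hωg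
      unfold ST.TT
      rw [mem_filter]
      refine ⟨mem_univ _, ⟨?_, ?_, ?_⟩, ⟨c2 hωg, c3 hωg, c4 hωg⟩, ⟨c5 hωg, c6 hωg, c7 hωg⟩⟩
      · rw [hωg]
        refine ⟨P1, hP1, hu1, ?_, ha2.symm⟩
        rw [hGv, ha1, mul_comm]
        exact (Nat.div_add_mod _ _).symm
      · rw [hωg]
        refine ⟨P2, hP2, hu2, ?_, ha3.symm⟩
        rw [hGv, ha1, mul_comm, ← hl12]
        exact (Nat.div_add_mod _ _).symm
      · rw [hωg]
        refine ⟨P3, hP3, hu3, ?_, ha4.symm⟩
        rw [hGv, ha1, mul_comm, ← hl23, ← hl12]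
        exact (Nat.div_add_mod _ _).symm
    have hc := Finset.card_le_card hsub
    rw [hcyl] at hc
    have hc2 := le_trans hc (Finset.card_union_le _ _)
    have u1 := Finset.card_union_le
      (univ.filter (fun ω : Samp3 D Z => ω g = a ∧
          GoodAt X u j lab sl D Z L q U1 U2 (fun i => (ST.e12 D Z (ω i)).1) g))
      ((univ.filter (fun ω : Samp3 D Z => ω g = a ∧
          GoodAt X u j lab sl D Z L q U1 U3 (fun i => (ST.e13 D Z (ω i)).1) g)) ∪
        ((univ.filter (fun ω : Samp3 D Z => ω g = a ∧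
          GoodAt X u j lab sl D Z L q U2 U3 (fun i => (ST.e23 D Z (ω i)).1) g)) ∪
        ((univ.filter (fun ω : Samp3 D Z => ω g = a ∧ ST.Tied X u j lab sl D Z (fun b => b.2.1) U1 ω g)) ∪
        ((univ.filter (fun ω : Samp3 D Z => ω g = a ∧ ST.Tied X u j lab sl D Z (fun b => b.2.2.1) U2 ω g)) ∪
        (univ.filter (fun ω : Samp3 D Z => ω g = a ∧ ST.Tied X u j lab sl D Z (fun b => b.2.2.2) U3 ω g))))))
    have u2 := Finset.card_union_le
      (univ.filter (fun ω : Samp3 D Z => ω g = a ∧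
          GoodAt X u j lab sl D Z L q U1 U3 (fun i => (ST.e13 D Z (ω i)).1) g))
        ((univ.filter (fun ω : Samp3 D Z => ω g = a ∧
          GoodAt X u j lab sl D Z L q U2 U3 (fun i => (ST.e23 D Z (ω i)).1) g)) ∪
        ((univ.filter (fun ω : Samp3 D Z => ω g = a ∧ ST.Tied X u j lab sl D Z (fun b => b.2.1) U1 ω g)) ∪
        ((univ.filter (fun ω : Samp3 D Z => ω g = a ∧ ST.Tied X u j lab sl D Z (fun b => b.2.2.1) U2 ω g)) ∪
        (univ.filter (fun ω : Samp3 D Z => ω g = a ∧ ST.Tied X u j lab sl D Z (fun b => b.2.2.2) U3 ω g)))))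
    have u3 := Finset.card_union_le
      (univ.filter (fun ω : Samp3 D Z => ω g = a ∧
          GoodAt X u j lab sl D Z L q U2 U3 (fun i => (ST.e23 D Z (ω i)).1) g))
        ((univ.filter (fun ω : Samp3 D Z => ω g = a ∧ ST.Tied X u j lab sl D Z (fun b => b.2.1) U1 ω g)) ∪
        ((univ.filter (fun ω : Samp3 D Z => ω g = a ∧ ST.Tied X u j lab sl D Z (fun b => b.2.2.1) U2 ω g)) ∪
        (univ.filter (fun ω : Samp3 D Z => ω g = a ∧ ST.Tied X u j lab sl D Z (fun b => b.2.2.2) U3 ω g))))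
    have u4 := Finset.card_union_le
        (univ.filter (fun ω : Samp3 D Z => ω g = a ∧ ST.Tied X u j lab sl D Z (fun b => b.2.1) U1 ω g))
        ((univ.filter (fun ω : Samp3 D Z => ω g = a ∧ ST.Tied X u j lab sl D Z (fun b => b.2.2.1) U2 ω g)) ∪
        (univ.filter (fun ω : Samp3 D Z => ω g = a ∧ ST.Tied X u j lab sl D Z (fun b => b.2.2.2) U3 ω g)))
    have u5 := Finset.card_union_le
        (univ.filter (fun ω : Samp3 D Z => ω g = a ∧ ST.Tied X u j lab sl D Z (fun b => b.2.2.1) U2 ω g))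
        (univ.filter (fun ω : Samp3 D Z => ω g = a ∧ ST.Tied X u j lab sl D Z (fun b => b.2.2.2) U3 ω g))
    omega
  -- double counting
  have hsum : ∑ t ∈ B, (univ.filter (fun ω : Samp3 D Z => ω (G t) = V t ∧
      G t ∈ ST.TT X u j lab sl D Z L q U1 U2 U3 ω)).card ≤ Fintype.card (Samp3 D Z) * L ^ 3 := by
    have h1 : ∑ t ∈ B, (univ.filter (fun ω : Samp3 D Z => ω (G t) = V t ∧
        G t ∈ ST.TT X u j lab sl D Z L q U1 U2 U3 ω)).card =
        ∑ ω : Samp3 D Z, (B.filter (fun t => ω (G t) = V t ∧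
        G t ∈ ST.TT X u j lab sl D Z L q U1 U2 U3 ω)).card := by
      simp only [Finset.card_filter]
      exact Finset.sum_comm
    rw [h1]
    have h2 : ∀ ω : Samp3 D Z, (B.filter (fun t => ω (G t) = V t ∧
        G t ∈ ST.TT X u j lab sl D Z L q U1 U2 U3 ω)).card ≤ L ^ 3 := by
      intro ω
      refine le_trans ?_ (ST.TT_card X u j lab sl D Z L q hL hD U1 U2 U3 ω)
      refine Finset.card_le_card_of_injOn G ?_ ?_
      · intro t ht
        exact (mem_filter.1 ht).2.2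
      · rintro ⟨P1, P2, P3⟩ ht ⟨Q1, Q2, Q3⟩ ht' heq
        have ht := mem_filter.1 (Finset.mem_coe.1 ht)
        have ht' := mem_filter.1 (Finset.mem_coe.1 ht')
        have hVV : V (P1, P2, P3) = V (Q1, Q2, Q3) := by
          rw [← ht.2.1, ← ht'.2.1, heq]
        have hp := ht.1
        have hq' := ht'.1
        rw [hB, mem_filter] at hp hq'
        obtain ⟨hmem, hu1, hu2, hu3, hl12, hl23, -⟩ := hp
        obtain ⟨hmem', hu1', hu2', hu3', hl12', hl23', -⟩ := hq'
        simp only [mem_product] at hmem hmem'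
        simp only at hu1 hu2 hu3 hl12 hl23 hu1' hu2' hu3' hl12' hl23'
        obtain ⟨hP1, hP2, hP3⟩ := hmem
        obtain ⟨hQ1, hQ2, hQ3⟩ := hmem'
        have hlt : lab P1 / D < D := Nat.div_lt_of_lt_mul (hlab P1 hP1)
        have hlt' : lab Q1 / D < D := Nat.div_lt_of_lt_mul (hlab Q1 hQ1)
        have hdiv : lab P1 / D = lab Q1 / D := by
          have := congrArg Fin.val heq
          rw [hG] at this
          simpa only [dif_pos hlt, dif_pos hlt'] using this
        rw [hV] at hVV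
        simp only [Prod.mk.injEq, Fin.mk.injEq] at hVV
        obtain ⟨hm, hs1, hs2, hs3⟩ := hVV
        rw [Nat.mod_eq_of_lt (hsl _ hP1), Nat.mod_eq_of_lt (hsl _ hQ1)] at hs1
        rw [Nat.mod_eq_of_lt (hsl _ hP2), Nat.mod_eq_of_lt (hsl _ hQ2)] at hs2
        rw [Nat.mod_eq_of_lt (hsl _ hP3), Nat.mod_eq_of_lt (hsl _ hQ3)] at hs3
        have hll : lab P1 = lab Q1 := by
          rw [← Nat.div_add_mod (lab P1) D, ← Nat.div_add_mod (lab Q1) D, hdiv, hm]
        have r1 : P1 = Q1 := hinj _ hP1 _ hQ1 (hu1.trans hu1'.symm) hll hs1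
        have r2 : P2 = Q2 := hinj _ hP2 _ hQ2 (hu2.trans hu2'.symm) (by rw [← hl12, ← hl12', hll]) hs2
        have r3 : P3 = Q3 := hinj _ hP3 _ hQ3 (hu3.trans hu3'.symm)
          (by rw [← hl23, ← hl23', ← hl12, ← hl12', hll]) hs3
        rw [r1, r2, r3]
    calc ∑ ω : Samp3 D Z, (B.filter (fun t => ω (G t) = V t ∧
        G t ∈ ST.TT X u j lab sl D Z L q U1 U2 U3 ω)).card ≤ ∑ _ω : Samp3 D Z, L ^ 3 :=
          Finset.sum_le_sum (fun ω _ => h2 ω)
      _ = Fintype.card (Samp3 D Z) * L ^ 3 := by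
          rw [Finset.sum_const, smul_eq_mul, Finset.card_univ]
  have hfin : B.card * K ≤ 8 * (Fintype.card (Samp3 D Z) * L ^ 3) := by
    calc B.card * K = ∑ _t ∈ B, K := by rw [Finset.sum_const, smul_eq_mul]
      _ ≤ ∑ t ∈ B, 8 * (univ.filter (fun ω : Samp3 D Z => ω (G t) = V t ∧
          G t ∈ ST.TT X u j lab sl D Z L q U1 U2 U3 ω)).card := Finset.sum_le_sum hbad
      _ = 8 * ∑ t ∈ B, (univ.filter (fun ω : Samp3 D Z => ω (G t) = V t ∧
          G t ∈ ST.TT X u j lab sl D Z L q U1 U2 U3 ω)).card := by rw [Finset.mul_sum]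
      _ ≤ _ := Nat.mul_le_mul_left _ hsum
  rw [← hKmul] at hfin
  apply Nat.le_of_mul_le_mul_right _ hKpos
  calc B.card * K ≤ 8 * (K * (D * Z ^ 3) * L ^ 3) := hfin
    _ = 8 * L ^ 3 * D * Z ^ 3 * K := by ring

end Pool.Agent.TwinPerm
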