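import Pool.Agent.TwinPerm.SampleX
import Pool.Agent.TwinPerm.SampleT

set_option autoImplicit false

/-!
# Align: the alignment theorem (summary of `Greedy`, `SampleX`, `SampleT`)
-/

namespace Pool.Agent.TwinPerm

open Finset

open Classical in
theorem alignment {α : Type} (X : Finset α) (u j lab sl : α → ℕ) (D Z L q : ℕ) (hL : 0 < L) (hD : D = L * q)
    (hq : 0 < q) (hZ : 0 < Z)
    (hlab : ∀ P ∈ X, lab P < D * D) (hsl : ∀ P ∈ X, sl P < Z)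
    (hinj : ∀ P ∈ X, ∀ Q ∈ X, u P = u Q → lab P = lab Q → sl P = sl Q → P = Q)
    (htie : ∀ U J, 24 * (X.filter (fun P => u P = U ∧ j P = J)).card ≤ D * Z) :
    ∃ (Ωc : Type) (_ : Fintype Ωc) (_ : Nonempty Ωc) (Λ : ℕ → ℕ → Ωc → ℕ → ℕ → Prop) (good : α → α → Prop),
      (∀ U U' ω j1 j1' j2 j2', Λ U U' ω j1 j1' → Λ U U' ω j2 j2' →
        (j1 = j2 ∧ j1' = j2') ∨ (j1 < j2 ∧ j1' < j2') ∨ (j2 < j1 ∧ j2' < j1')) ∧
      (∀ U U' J J', (L : ℝ) / (4 * (D : ℝ) ^ 2 * (Z : ℝ) ^ 2) *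
        (((X ×ˢ X).filter (fun e => u e.1 = U ∧ j e.1 = J ∧ u e.2 = U' ∧ j e.2 = J' ∧ lab e.1 = lab e.2 ∧
          good e.1 e.2)).card : ℝ) ≤ pr Ωc (fun ω => Λ U U' ω J J')) ∧
      (∀ U1 U2 U3, ((X ×ˢ X ×ˢ X).filter (fun t => u t.1 = U1 ∧ u t.2.1 = U2 ∧ u t.2.2 = U3 ∧
        lab t.1 = lab t.2.1 ∧ lab t.2.1 = lab t.2.2 ∧ ¬ good t.1 t.2.1 ∧ ¬ good t.1 t.2.2 ∧
        ¬ good t.2.1 t.2.2)).card ≤ 8 * L ^ 3 * D * Z ^ 3) := by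
  have hDpos : 0 < D := by rw [hD]; exact Nat.mul_pos hL hq
  have : Nonempty (Fin D) := ⟨⟨0, hDpos⟩⟩
  have : Nonempty (Fin Z) := ⟨⟨0, hZ⟩⟩
  have : Nonempty (Fin q) := ⟨⟨0, hq⟩⟩
  exact ⟨Samp D Z × Fin q, inferInstance, inferInstance, Lam X u j lab sl D Z L q,
    GoodPair X u j lab sl D Z L q,
    fun U U' ω j1 j1' j2 j2' h1 h2 => lam_chain X u j lab sl D Z L q hL hD U U' ω j1 j1' j2 j2' h1 h2,
    fun U U' J J' => sample_prob X u j lab sl D Z L q hL hD hq hZ hlab hsl hinj U U' J J',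
    fun U1 U2 U3 => sample_triple X u j lab sl D Z L q hL hD hq hZ hlab hsl hinj htie U1 U2 U3⟩

end Pool.Agent.TwinPerm
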