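import Pool.Agent.TwinPerm.BRCore

set_option autoImplicit false

/-!
# BR: the heavy case (Bukh-Rudenko)

If at least a quarter of the points lie in a grid box `r^a x r^(3c)` with at least three points, there is a twin of length about
`min (n / r^a) (n / r^(2c)) / r`.

Proof. For a heavy point `P` let `i(P)` be the least `i ≤ 3c` with `3 ≤ boxCard σ (r^a) (r^i) P` (`i(P) ≥ 1`, since for `i = 0` the box has
one point, values being different). Pigeonhole: some `i` with `1 ≤ i ≤ 3c` has at least `(number of heavy points) / (3c)` points with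
`i(P) = i`. Let `𝒯` be the set of grid boxes (pairs (window, strip)) of width `r^a` and height `r^i` with at least three points. Every point with
`i(P) = i` lies in a box of `𝒯`, and each box of `𝒯` consists of `r` boxes of height `r^(i-1)`, each of which contains at most `2` points
with `i(P) = i` (those points have `boxCard σ (r^a) (r^(i-1)) P ≤ 2`). So `r^N ≤ 4 * (3c) * (2 r) * |𝒯|`.
A window contains at most `r^a` boxes (indeed `r^a` points), a strip of height `r^i` at most `r^i ≤ r^(3c)` boxes. Apply `br_core` with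
`W = r^a`, `H = r^(3c)`, `Hq = r^(2c)`: `|𝒯| ≤ |T| (r^a + r^(2c))`.
-/

namespace Pool.Agent.TwinPerm

open Finset

/-- at most `W` elements of `Fin n` have a given quotient by `W` (along an injective function) -/
private theorem card_div_le {n W t : ℕ} (hW : 0 < W) (g : Fin n → ℕ) (hg : Function.Injective g)
    (s : Finset (Fin n)) (hs : ∀ P ∈ s, g P / W = t) : s.card ≤ W := by
  have h1 : (s.image g) ⊆ Finset.Ico (t * W) (t * W + W) := by
    intro x hx
    obtain ⟨P, hP, rfl⟩ := Finset.mem_image.1 hx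
    have h2 := hs P hP
    rw [Finset.mem_Ico]
    have h3 := Nat.div_add_mod (g P) W
    have h4 := Nat.mod_lt (g P) hW
    rw [h2, mul_comm] at h3
    constructor <;> omega
  have h2 := Finset.card_le_card h1
  rw [Finset.card_image_of_injective _ hg, Nat.card_Ico] at h2
  omega

theorem br_heavy (r a c N : ℕ) (hr : 2 ≤ r) (hc : 1 ≤ c) (hcN : 3 * c ≤ N)
    (σ : Equiv.Perm (Fin (r ^ N)))
    (h : r ^ N ≤ 4 * (univ.filter (fun P : Fin (r ^ N) => 3 ≤ boxCard σ (r ^ a) (r ^ (3 * c)) P)).card) :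
    ∃ T : Finset (Fin (r ^ N) × Fin (r ^ N)), IsTwinSet σ T ∧
      r ^ N ≤ 24 * c * r * (r ^ a + r ^ (2 * c)) * T.card := by
  classical
  have hr0 : 0 < r := by omega
  have hn : 0 < r ^ N := pow_pos hr0 N
  have hval : Function.Injective (fun P : Fin (r ^ N) => P.val) := Fin.val_injective
  have hσval : Function.Injective (fun P : Fin (r ^ N) => (σ P).val) :=
    fun P Q hPQ => σ.injective (Fin.val_injective hPQ)
  set heavy := univ.filter (fun P : Fin (r ^ N) => 3 ≤ boxCard σ (r ^ a) (r ^ (3 * c)) P)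
    with hheavy
  -- the level of a point
  have hex : ∀ P ∈ heavy, ∃ i, 3 ≤ boxCard σ (r ^ a) (r ^ i) P := fun P hP =>
    ⟨3 * c, (Finset.mem_filter.1 hP).2⟩
  let lev : Fin (r ^ N) → ℕ := fun P =>
    if hP : ∃ i, 3 ≤ boxCard σ (r ^ a) (r ^ i) P then Nat.find hP else 0
  have hlev : ∀ P ∈ heavy, 3 ≤ boxCard σ (r ^ a) (r ^ lev P) P ∧ 1 ≤ lev P ∧ lev P ≤ 3 * c ∧
      boxCard σ (r ^ a) (r ^ (lev P - 1)) P ≤ 2 := by
    intro P hP
    have he := hex P hP
    have e1 : lev P = Nat.find he := dif_pos he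
    have h1 := Nat.find_spec he
    rw [← e1] at h1
    have h2 : 1 ≤ lev P := by
      by_contra h0
      have h0' : lev P = 0 := by omega
      rw [h0', pow_zero] at h1
      have h3 : boxCard σ (r ^ a) 1 P ≤ 1 := by
        unfold boxCard
        rw [Finset.card_le_one]
        intro Q hQ Q' hQ'
        rw [Finset.mem_filter, Nat.div_one, Nat.div_one] at hQ hQ'
        exact hσval (hQ.2.2.trans hQ'.2.2.symm)
      omega
    refine ⟨h1, h2, ?_, ?_⟩
    · rw [e1]
      exact Nat.find_min' he (Finset.mem_filter.1 hP).2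
    · have h4 : lev P - 1 < Nat.find he := by omega
      have h5 := Nat.find_min he h4
      omega
  -- pigeonhole
  obtain ⟨i, hi, hpig⟩ : ∃ i ∈ Finset.Icc 1 (3 * c),
      heavy.card ≤ 3 * c * (heavy.filter (fun P => lev P = i)).card := by
    by_contra hcon
    push Not at hcon
    have hmaps : ∀ P ∈ heavy, lev P ∈ Finset.Icc 1 (3 * c) := fun P hP =>
      Finset.mem_Icc.2 ⟨(hlev P hP).2.1, (hlev P hP).2.2.1⟩
    have h1 := Finset.card_eq_sum_card_fiberwise hmaps
    have h2 : ∑ i ∈ Finset.Icc 1 (3 * c), 3 * c * (heavy.filter (fun P => lev P = i)).card <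
        ∑ _i ∈ Finset.Icc 1 (3 * c), heavy.card :=
      Finset.sum_lt_sum_of_nonempty ⟨1, Finset.mem_Icc.2 ⟨le_rfl, by omega⟩⟩ hcon
    rw [← Finset.mul_sum, ← h1, Finset.sum_const, Nat.card_Icc, smul_eq_mul] at h2
    have : 3 * c + 1 - 1 = 3 * c := by omega
    rw [this] at h2
    exact lt_irrefl _ h2
  rw [Finset.mem_Icc] at hi
  set Mi := heavy.filter (fun P => lev P = i) with hMi
  let key : Fin (r ^ N) → ℕ × ℕ := fun P => (P.val / r ^ a, (σ P).val / r ^ i)
  set 𝒯 := Mi.image key with h𝒯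
  -- every box of `𝒯` has at least three points
  have hbox : ∀ τ ∈ 𝒯, 3 ≤ ((univ.filter (fun Q : Fin (r ^ N) => key Q = τ)).image σ).card := by
    intro τ hτ
    obtain ⟨P, hP, rfl⟩ := Finset.mem_image.1 hτ
    rw [Finset.card_image_of_injective _ σ.injective]
    have h1 := (hlev P (Finset.mem_filter.1 hP).1).1
    rw [(Finset.mem_filter.1 hP).2] at h1
    refine h1.trans (le_of_eq ?_)
    unfold boxCard
    congr 1
    refine Finset.filter_congr fun Q _ => ?_
    simp only [key, Prod.mk.injEq]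
  -- the three points
  let pt : ℕ × ℕ → Fin 3 → Fin (r ^ N) := fun τ k =>
    if hτ : 3 ≤ ((univ.filter (fun Q : Fin (r ^ N) => key Q = τ)).image σ).card then
      σ.symm (((univ.filter (fun Q : Fin (r ^ N) => key Q = τ)).image σ).orderEmbOfFin rfl
        ⟨k.val, lt_of_lt_of_le k.isLt hτ⟩)
    else ⟨0, hn⟩
  have hpt : ∀ τ ∈ 𝒯, ∀ k, key (pt τ k) = τ := by
    intro τ hτ k
    have h1 : pt τ k = σ.symm (((univ.filter (fun Q : Fin (r ^ N) => key Q = τ)).image
        σ).orderEmbOfFin rfl ⟨k.val, lt_of_lt_of_le k.isLt (hbox τ hτ)⟩) := dif_pos (hbox τ hτ)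
    have h2 := Finset.orderEmbOfFin_mem ((univ.filter (fun Q : Fin (r ^ N) => key Q = τ)).image
        σ) rfl ⟨k.val, lt_of_lt_of_le k.isLt (hbox τ hτ)⟩
    obtain ⟨Q, hQ, hQ2⟩ := Finset.mem_image.1 h2
    rw [h1, ← hQ2, Equiv.symm_apply_apply]
    exact (Finset.mem_filter.1 hQ).2
  have hinc : ∀ τ ∈ 𝒯, ∀ k k' : Fin 3, k < k' → σ (pt τ k) < σ (pt τ k') := by
    intro τ hτ k k' hkk
    have h1 : ∀ k : Fin 3, pt τ k = σ.symm (((univ.filter (fun Q : Fin (r ^ N) =>
        key Q = τ)).image σ).orderEmbOfFin rfl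
        ⟨k.val, lt_of_lt_of_le k.isLt (hbox τ hτ)⟩) := fun k => dif_pos (hbox τ hτ)
    rw [h1, h1, Equiv.apply_symm_apply, Equiv.apply_symm_apply]
    exact OrderEmbedding.strictMono _ hkk
  -- at most `r^a` boxes in a window, at most `r^(3c)` boxes in a strip
  have hWb : ∀ c0, (𝒯.filter (fun τ => τ.1 = c0)).card ≤ r ^ a := by
    intro c0
    have h1 : 𝒯.filter (fun τ => τ.1 = c0) ⊆
        (univ.filter (fun P : Fin (r ^ N) => P.val / r ^ a = c0)).image key := by
      intro τ hτ
      rw [Finset.mem_filter] at hτ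
      obtain ⟨P, hP, rfl⟩ := Finset.mem_image.1 hτ.1
      exact Finset.mem_image.2 ⟨P, Finset.mem_filter.2 ⟨Finset.mem_univ _, hτ.2⟩, rfl⟩
    refine (Finset.card_le_card h1).trans (Finset.card_image_le.trans ?_)
    exact card_div_le (pow_pos hr0 a) (fun P : Fin (r ^ N) => P.val) hval _
      fun P hP => (Finset.mem_filter.1 hP).2
  have hHb : ∀ t, (𝒯.filter (fun τ => τ.2 = t)).card ≤ r ^ (3 * c) := by
    intro t
    have h1 : 𝒯.filter (fun τ => τ.2 = t) ⊆
        (univ.filter (fun P : Fin (r ^ N) => (σ P).val / r ^ i = t)).image key := by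
      intro τ hτ
      rw [Finset.mem_filter] at hτ
      obtain ⟨P, hP, rfl⟩ := Finset.mem_image.1 hτ.1
      exact Finset.mem_image.2 ⟨P, Finset.mem_filter.2 ⟨Finset.mem_univ _, hτ.2⟩, rfl⟩
    refine (Finset.card_le_card h1).trans (Finset.card_image_le.trans ?_)
    refine (card_div_le (pow_pos hr0 i) (fun P : Fin (r ^ N) => (σ P).val) hσval _
      fun P hP => (Finset.mem_filter.1 hP).2).trans ?_
    exact Nat.pow_le_pow_right hr0 hi.2
  -- the number of boxes
  have hMi𝒯 : Mi.card ≤ 2 * r * 𝒯.card := by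
    refine Finset.card_le_mul_card_image Mi (2 * r) fun τ hτ => ?_
    -- sub-boxes
    have h1 : (Mi.filter (fun P => key P = τ)).card ≤ 2 *
        ((Mi.filter (fun P => key P = τ)).image (fun P => (σ P).val / r ^ (i - 1))).card := by
      refine Finset.card_le_mul_card_image _ 2 fun v hv => ?_
      obtain ⟨P0, hP0, hv0⟩ := Finset.mem_image.1 hv
      rw [Finset.mem_filter] at hP0
      have hP0h := Finset.mem_filter.1 hP0.1
      have h2 := (hlev P0 hP0h.1).2.2.2
      rw [hP0h.2] at h2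
      refine le_trans (Finset.card_le_card ?_) h2
      intro Q hQ
      rw [Finset.mem_filter, Finset.mem_filter] at hQ
      rw [Finset.mem_filter]
      refine ⟨Finset.mem_univ _, ?_, ?_⟩
      · have := hQ.1.2.trans hP0.2.symm
        exact (Prod.ext_iff.1 this).1
      · rw [hQ.2, hv0]
    refine h1.trans (Nat.mul_le_mul_left 2 ?_)
    have h3 : (Mi.filter (fun P => key P = τ)).image (fun P => (σ P).val / r ^ (i - 1)) ⊆
        Finset.Ico (τ.2 * r) (τ.2 * r + r) := by
      intro v hv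
      obtain ⟨P, hP, rfl⟩ := Finset.mem_image.1 hv
      have hk : (σ P).val / r ^ i = τ.2 := (Prod.ext_iff.1 (Finset.mem_filter.1 hP).2).2
      have e1 : r ^ i = r ^ (i - 1) * r := by
        rw [← pow_succ]
        congr 1
        omega
      rw [e1, ← Nat.div_div_eq_div_mul] at hk
      have h4 := Nat.div_add_mod ((σ P).val / r ^ (i - 1)) r
      have h5 := Nat.mod_lt ((σ P).val / r ^ (i - 1)) hr0
      rw [hk, mul_comm] at h4
      rw [Finset.mem_Ico]
      constructor <;> omega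
    have h4 := Finset.card_le_card h3
    rw [Nat.card_Ico] at h4
    omega
  obtain ⟨T, hT, hcard⟩ := br_core σ (r ^ a) (r ^ i) 𝒯 pt (fun τ => τ.1) (fun τ => τ.2)
    (fun τ hτ k => (Prod.ext_iff.1 (hpt τ hτ k)).1)
    (fun τ hτ k => (Prod.ext_iff.1 (hpt τ hτ k)).2) hinc
    (fun τ _ τ' _ h1 h2 => Prod.ext h1 h2) (r ^ a) (r ^ (3 * c)) (r ^ (2 * c))
    (by rw [← pow_mul, ← pow_mul]; congr 1; ring) hWb hHb
  refine ⟨T, hT, ?_⟩
  calc r ^ N ≤ 4 * heavy.card := h
    _ ≤ 4 * (3 * c * Mi.card) := Nat.mul_le_mul_left 4 hpig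
    _ ≤ 4 * (3 * c * (2 * r * 𝒯.card)) :=
        Nat.mul_le_mul_left 4 (Nat.mul_le_mul_left _ hMi𝒯)
    _ ≤ 4 * (3 * c * (2 * r * (T.card * (r ^ a + r ^ (2 * c))))) :=
        Nat.mul_le_mul_left 4 (Nat.mul_le_mul_left _ (Nat.mul_le_mul_left _ hcard))
    _ = 24 * c * r * (r ^ a + r ^ (2 * c)) * T.card := by ring

end Pool.Agent.TwinPerm
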