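import Pool.Agent.TwinPerm.ES3

set_option autoImplicit false

/-!
# BRCore: the greedy / maximality argument of Bukh-Rudenko, abstract form

`𝒯` is a finite set of boxes; a box `τ` lies in the window `col τ` and in the strip `row τ`, it has three points
`pt τ 0`, `pt τ 1`, `pt τ 2` (positions) of the permutation, with increasing values. At most one box for each pair (window, strip).
At most `W` boxes in every window and at most `H` boxes in every strip, `Hq ^ 3 = H ^ 2`.

Proof. A valid selection is a set `B ⊆ 𝒯` with different windows together with a type `ty t ∈ {(0,1), (0,2), (1,2)}`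
for every strip `t` such that the boxes of `B` in the strip `t` form a chain for the two functions
`τ ↦ y (pt τ (ty t).1)`, `τ ↦ y (pt τ (ty t).2)` (values of the permutation).
Take a valid selection with `K = |B|` maximal. For a strip `t` let `𝒯'_t` be the set of boxes of `𝒯` in the strip `t` whose window is
not a window of a box of `B` (all strips). By `es3` (the three functions are injective on `𝒯'_t`, values of different points are
different) there is a chain `C ⊆ 𝒯'_t`, for one of the three types, with `|C| ^ 3 ≥ |𝒯'_t|`; replacing the part of `B` in the strip `t` by `C` gives a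
valid selection, so `|B_t| ^ 3 ≥ |𝒯'_t|`, and since `|𝒯'_t| ≤ H` we get `|B_t| * Hq ≥ |𝒯'_t|` (cubes: if `b * Hq < T` then
`b ^ 3 * H ^ 2 < T ^ 3 ≤ T * H ^ 2`). Sum: `K * Hq ≥ ∑ |𝒯'_t| ≥ |𝒯| - K * W`.
Hence `|𝒯| ≤ K * (W + Hq)`.
The twin: the pairs `(pt τ (ty t).1, pt τ (ty t).2)`, `τ ∈ B`. Order of positions: different windows. Order of values: different strips, or the chain
condition in the same strip. Disjointness: different windows, and in the same box different points.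
-/

namespace Pool.Agent.TwinPerm

open Finset

/-- first index of the type -/
def ta : Fin 3 → Fin 3 := ![0, 0, 1]

/-- second index of the type -/
def tb : Fin 3 → Fin 3 := ![1, 2, 2]

lemma ta_lt_tb (k : Fin 3) : ta k < tb k := by
  fin_cases k <;> decide

/-- valid selection -/
def Valid {n : ℕ} (σ : Equiv.Perm (Fin n)) {ι : Type} (𝒯 : Finset ι) (pt : ι → Fin 3 → Fin n)
    (col row : ι → ℕ) (B : Finset ι) (ty : ℕ → Fin 3) : Prop :=
  B ⊆ 𝒯 ∧ (∀ τ ∈ B, ∀ τ' ∈ B, col τ = col τ' → τ = τ') ∧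
  ∀ τ ∈ B, ∀ τ' ∈ B, τ ≠ τ' → row τ = row τ' →
    ((σ (pt τ (ta (ty (row τ))))).val < (σ (pt τ' (ta (ty (row τ))))).val ∧
      (σ (pt τ (tb (ty (row τ))))).val < (σ (pt τ' (tb (ty (row τ))))).val) ∨
    ((σ (pt τ' (ta (ty (row τ))))).val < (σ (pt τ (ta (ty (row τ))))).val ∧
      (σ (pt τ' (tb (ty (row τ))))).val < (σ (pt τ (tb (ty (row τ))))).val)

lemma cube_aux {b T H Hq : ℕ} (hHq : Hq ^ 3 = H ^ 2) (h1 : T ≤ b ^ 3) (h2 : T ≤ H) :
    T ≤ b * Hq := by
  have h3 : T ^ 3 ≤ (b * Hq) ^ 3 := by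
    calc T ^ 3 = T * T ^ 2 := by ring
      _ ≤ b ^ 3 * H ^ 2 := Nat.mul_le_mul h1 (Nat.pow_le_pow_left h2 2)
      _ = (b * Hq) ^ 3 := by rw [← hHq]; ring
  exact (Nat.pow_le_pow_iff_left (by norm_num)).mp h3

theorem br_core {n : ℕ} (σ : Equiv.Perm (Fin n)) (W0 H0 : ℕ) {ι : Type} (𝒯 : Finset ι) (pt : ι → Fin 3 → Fin n)
    (col row : ι → ℕ)
    (hcol : ∀ τ ∈ 𝒯, ∀ i, (pt τ i).val / W0 = col τ) (hrow : ∀ τ ∈ 𝒯, ∀ i, (σ (pt τ i)).val / H0 = row τ)
    (hinc : ∀ τ ∈ 𝒯, ∀ i i' : Fin 3, i < i' → σ (pt τ i) < σ (pt τ i'))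
    (huniq : ∀ τ ∈ 𝒯, ∀ τ' ∈ 𝒯, col τ = col τ' → row τ = row τ' → τ = τ')
    (W H Hq : ℕ) (hHq : Hq ^ 3 = H ^ 2)
    (hW : ∀ c, (𝒯.filter (fun τ => col τ = c)).card ≤ W) (hH : ∀ t, (𝒯.filter (fun τ => row τ = t)).card ≤ H) :
    ∃ T : Finset (Fin n × Fin n), IsTwinSet σ T ∧ 𝒯.card ≤ T.card * (W + Hq) := by
  classical
  -- a valid selection of maximal size
  obtain ⟨B, hB, hBmax⟩ : ∃ B : Finset ι, (∃ ty, Valid σ 𝒯 pt col row B ty) ∧
      ∀ B' : Finset ι, (∃ ty, Valid σ 𝒯 pt col row B' ty) → B'.card ≤ B.card := by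
    have hne : (𝒯.powerset.filter (fun B => ∃ ty, Valid σ 𝒯 pt col row B ty)).Nonempty := by
      refine ⟨∅, ?_⟩
      rw [Finset.mem_filter]
      exact ⟨Finset.empty_mem_powerset _, fun _ => 0, Finset.empty_subset _, by simp, by simp⟩
    obtain ⟨B, hB, hmax⟩ := Finset.exists_max_image _ Finset.card hne
    rw [Finset.mem_filter] at hB
    refine ⟨B, hB.2, fun B' hB' => hmax B' ?_⟩
    rw [Finset.mem_filter, Finset.mem_powerset]
    obtain ⟨ty, hty⟩ := hB'
    exact ⟨hty.1, ty, hty⟩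
  obtain ⟨ty, hsub, hcolB, hch⟩ := hB
  have hinj : ∀ i : Fin 3, ∀ τ ∈ 𝒯, ∀ τ' ∈ 𝒯, row τ = row τ' →
      (σ (pt τ i)).val = (σ (pt τ' i)).val → τ = τ' := by
    intro i τ hτ τ' hτ' hr h
    have h1 : pt τ i = pt τ' i := σ.injective (Fin.ext h)
    have h2 : col τ = col τ' := by
      rw [← hcol τ hτ i, ← hcol τ' hτ' i, h1]
    exact huniq τ hτ τ' hτ' h2 hr
  -- the boxes of a strip in free windows
  set F : ℕ → Finset ι := fun t => 𝒯.filter (fun τ => row τ = t ∧ ∀ b ∈ B, col b ≠ col τ) with hF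
  have hexch : ∀ (t : ℕ) (k : Fin 3) (C : Finset ι), C ⊆ F t →
      Chain2 (fun τ => (σ (pt τ (ta k))).val) (fun τ => (σ (pt τ (tb k))).val) C →
      C.card ≤ (B.filter (fun τ => row τ = t)).card := by
    intro t k C hC hCh
    have hCr : ∀ τ ∈ C, τ ∈ 𝒯 ∧ row τ = t ∧ ∀ b ∈ B, col b ≠ col τ := fun τ hτ => by
      have := hC hτ
      simp only [hF, Finset.mem_filter] at this
      exact ⟨this.1, this.2.1, this.2.2⟩
    have hval : ∃ ty', Valid σ 𝒯 pt col row (B.filter (fun τ => row τ ≠ t) ∪ C) ty' := by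
      refine ⟨Function.update ty t k, ?_, ?_, ?_⟩
      · intro τ hτ
        rw [Finset.mem_union, Finset.mem_filter] at hτ
        rcases hτ with hτ | hτ
        · exact hsub hτ.1
        · exact (hCr τ hτ).1
      · intro τ hτ τ' hτ' hc
        rw [Finset.mem_union, Finset.mem_filter] at hτ hτ'
        rcases hτ with hτ | hτ <;> rcases hτ' with hτ' | hτ'
        · exact hcolB τ hτ.1 τ' hτ'.1 hc
        · exact absurd hc ((hCr τ' hτ').2.2 τ hτ.1)
        · exact absurd hc.symm ((hCr τ hτ).2.2 τ' hτ'.1)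
        · exact huniq τ (hCr τ hτ).1 τ' (hCr τ' hτ').1 hc
            ((hCr τ hτ).2.1.trans (hCr τ' hτ').2.1.symm)
      · intro τ hτ τ' hτ' hne hr
        rw [Finset.mem_union, Finset.mem_filter] at hτ hτ'
        rcases hτ with hτ | hτ <;> rcases hτ' with hτ' | hτ'
        · rw [Function.update_of_ne hτ.2]
          exact hch τ hτ.1 τ' hτ'.1 hne hr
        · exact absurd (hr.trans (hCr τ' hτ').2.1) hτ.2
        · exact absurd (hr.symm.trans (hCr τ hτ).2.1) hτ'.2
        · rw [(hCr τ hτ).2.1, Function.update_self]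
          exact hCh τ hτ τ' hτ' hne
    have h1 := hBmax _ hval
    have hdis : Disjoint (B.filter (fun τ => row τ ≠ t)) C := by
      rw [Finset.disjoint_left]
      intro τ hτ hτ'
      rw [Finset.mem_filter] at hτ
      exact hτ.2 (hCr τ hτ').2.1
    rw [Finset.card_union_of_disjoint hdis] at h1
    have h2 : (B.filter (fun τ => row τ = t)).card + (B.filter (fun τ => row τ ≠ t)).card =
        B.card := Finset.card_filter_add_card_filter_not (s := B) (fun τ => row τ = t)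
    omega
  have hstrip : ∀ t, (F t).card ≤ (B.filter (fun τ => row τ = t)).card * Hq := by
    intro t
    have hFr : ∀ τ ∈ F t, τ ∈ 𝒯 ∧ row τ = t := fun τ hτ => by
      simp only [hF, Finset.mem_filter] at hτ
      exact ⟨hτ.1, hτ.2.1⟩
    have hI : ∀ i : Fin 3, Set.InjOn (fun τ => (σ (pt τ i)).val) (F t : Set ι) := by
      intro i τ hτ τ' hτ' h
      exact hinj i τ (hFr τ hτ).1 τ' (hFr τ' hτ').1 ((hFr τ hτ).2.trans (hFr τ' hτ').2.symm) h
    have h3 := es3 (F t) _ _ _ (hI 0) (hI 1) (hI 2) (B.filter (fun τ => row τ = t)).card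
      (fun C hC h => hexch t 0 C hC h) (fun C hC h => hexch t 1 C hC h)
      (fun C hC h => hexch t 2 C hC h)
    refine cube_aux hHq h3 (le_trans (Finset.card_le_card ?_) (hH t))
    intro τ hτ
    rw [Finset.mem_filter]
    exact hFr τ hτ
  -- counting
  have hcount : 𝒯.card ≤ B.card * (W + Hq) := by
    have h1 := Finset.card_filter_add_card_filter_not (s := 𝒯) (fun τ => ∃ b ∈ B, col b = col τ)
    have h2 : (𝒯.filter (fun τ => ∃ b ∈ B, col b = col τ)).card ≤ B.card * W := by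
      have h3 : 𝒯.filter (fun τ => ∃ b ∈ B, col b = col τ) ⊆
          B.biUnion (fun b => 𝒯.filter (fun τ => col τ = col b)) := by
        intro τ hτ
        rw [Finset.mem_filter] at hτ
        obtain ⟨h, b, hb, hc⟩ := hτ
        rw [Finset.mem_biUnion]
        exact ⟨b, hb, Finset.mem_filter.mpr ⟨h, hc.symm⟩⟩
      refine (Finset.card_le_card h3).trans ?_
      exact Finset.card_biUnion_le_card_mul _ _ _ fun b _ => hW (col b)
    have h4 : (𝒯.filter (fun τ => ¬ ∃ b ∈ B, col b = col τ)).card ≤ B.card * Hq := by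
      set G := 𝒯.filter (fun τ => ¬ ∃ b ∈ B, col b = col τ) with hG
      have h5 : G.card = ∑ t ∈ 𝒯.image row, (G.filter (fun τ => row τ = t)).card := by
        refine Finset.card_eq_sum_card_fiberwise (fun τ hτ => ?_)
        have : τ ∈ 𝒯 := (Finset.mem_filter.mp hτ).1
        exact Finset.mem_coe.mpr (Finset.mem_image_of_mem _ this)
      have h6 : B.card = ∑ t ∈ 𝒯.image row, (B.filter (fun τ => row τ = t)).card := by
        refine Finset.card_eq_sum_card_fiberwise (fun τ hτ => ?_)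
        exact Finset.mem_coe.mpr (Finset.mem_image_of_mem _ (hsub hτ))
      rw [h5, h6, Finset.sum_mul]
      refine Finset.sum_le_sum fun t _ => ?_
      refine le_trans (Finset.card_le_card ?_) (hstrip t)
      intro τ hτ
      simp only [hG, hF, Finset.mem_filter] at hτ ⊢
      refine ⟨hτ.1.1, hτ.2, fun b hb h => hτ.1.2 ⟨b, hb, h⟩⟩
    rw [mul_add]
    omega
  -- the twin
  have hW0 : ∀ τ ∈ B, ∀ τ' ∈ B, ∀ i i' : Fin 3, pt τ i = pt τ' i' → τ = τ' := by
    intro τ hτ τ' hτ' i i' h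
    apply hcolB τ hτ τ' hτ'
    rw [← hcol τ (hsub hτ) i, ← hcol τ' (hsub hτ') i', h]
  have hpos : ∀ τ ∈ B, ∀ τ' ∈ B, ∀ i i' : Fin 3, col τ < col τ' → pt τ i < pt τ' i' := by
    intro τ hτ τ' hτ' i i' h
    rw [← hcol τ (hsub hτ) i, ← hcol τ' (hsub hτ') i'] at h
    by_contra hn
    have : (pt τ' i').val / W0 ≤ (pt τ i).val / W0 := Nat.div_le_div_right (not_lt.mp hn)
    omega
  have hvl : ∀ τ ∈ B, ∀ τ' ∈ B, ∀ i i' : Fin 3, row τ < row τ' → σ (pt τ i) < σ (pt τ' i') := by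
    intro τ hτ τ' hτ' i i' h
    rw [← hrow τ (hsub hτ) i, ← hrow τ' (hsub hτ') i'] at h
    by_contra hn
    have : (σ (pt τ' i')).val / H0 ≤ (σ (pt τ i)).val / H0 := Nat.div_le_div_right (not_lt.mp hn)
    omega
  refine ⟨B.image (fun τ => (pt τ (ta (ty (row τ))), pt τ (tb (ty (row τ))))), ⟨?_, ?_, ?_⟩, ?_⟩
  · intro e he e' he' h
    rw [Finset.mem_image] at he he'
    obtain ⟨τ, hτ, rfl⟩ := he
    obtain ⟨τ', hτ', rfl⟩ := he'
    have h1 := hW0 τ hτ τ' hτ' _ _ h
    subst h1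
    have h2 := hinc τ (hsub hτ) _ _ (ta_lt_tb (ty (row τ)))
    have h3 : pt τ (ta (ty (row τ))) = pt τ (tb (ty (row τ))) := h
    rw [h3] at h2
    exact lt_irrefl _ h2
  · intro e he e' he'
    rw [Finset.mem_image] at he he'
    obtain ⟨τ, hτ, rfl⟩ := he
    obtain ⟨τ', hτ', rfl⟩ := he'
    rcases lt_trichotomy (col τ) (col τ') with h | h | h
    · exact ⟨fun _ => hpos τ hτ τ' hτ' _ _ h, fun _ => hpos τ hτ τ' hτ' _ _ h⟩
    · have h1 := hcolB τ hτ τ' hτ' h
      subst h1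
      simp
    · exact ⟨fun hh => absurd hh (lt_asymm (hpos τ' hτ' τ hτ _ _ h)),
        fun hh => absurd hh (lt_asymm (hpos τ' hτ' τ hτ _ _ h))⟩
  · intro e he e' he'
    rw [Finset.mem_image] at he he'
    obtain ⟨τ, hτ, rfl⟩ := he
    obtain ⟨τ', hτ', rfl⟩ := he'
    rcases lt_trichotomy (row τ) (row τ') with h | h | h
    · exact ⟨fun _ => hvl τ hτ τ' hτ' _ _ h, fun _ => hvl τ hτ τ' hτ' _ _ h⟩
    · by_cases hne : τ = τ'
      · subst hne
        simp
      · have h1 := hch τ hτ τ' hτ' hne h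
        simp only [← h]
        rcases h1 with h1 | h1
        · exact ⟨fun _ => h1.2, fun _ => h1.1⟩
        · exact ⟨fun hh => absurd hh (lt_asymm (Fin.lt_def.mpr h1.1)),
            fun hh => absurd hh (lt_asymm (Fin.lt_def.mpr h1.2))⟩
    · exact ⟨fun hh => absurd hh (lt_asymm (hvl τ' hτ' τ hτ _ _ h)),
        fun hh => absurd hh (lt_asymm (hvl τ' hτ' τ hτ _ _ h))⟩
  · rw [Finset.card_image_of_injOn]
    · exact hcount
    · intro τ hτ τ' hτ' h
      exact hW0 τ hτ τ' hτ' _ _ (congrArg Prod.fst h)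

end Pool.Agent.TwinPerm
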