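import Mathlib

set_option autoImplicit false

/-!
# Twins in permutations: a bound better than `n^(3/5)` (MP_eb68d6_co). Definitions.

This file is sorry-free and contains only definitions.
-/

namespace Pool.Agent.TwinPerm

open Finset

/-- the permutation `σ` of `Fin n` has a twin of length `k`: two increasing embeddings `f, g` of `Fin k` into the
positions, with disjoint ranges, such that the values of `σ` along `f` and along `g` are in the same relative order.
(Same formula as in the frozen statement S12229.) -/
def HasTwin {n : ℕ} (σ : Equiv.Perm (Fin n)) (k : ℕ) : Prop :=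
  ∃ f g : Fin k ↪o Fin n, (∀ i j, f i ≠ g j) ∧ ∀ i j, (σ (f i) < σ (f j) ↔ σ (g i) < σ (g j))

/-- a twin given as a set of pairs of positions -/
def IsTwinSet {n : ℕ} (σ : Equiv.Perm (Fin n)) (T : Finset (Fin n × Fin n)) : Prop :=
  (∀ e ∈ T, ∀ e' ∈ T, e.1 ≠ e'.2) ∧
  (∀ e ∈ T, ∀ e' ∈ T, (e.1 < e'.1 ↔ e.2 < e'.2)) ∧
  (∀ e ∈ T, ∀ e' ∈ T, (σ e.1 < σ e'.1 ↔ σ e.2 < σ e'.2))

/-- `C` is a strict chain for the pair of functions `(j, j')`: any two different elements are strictly comparable in
the product order -/
def Chain2 {ι : Type} (j j' : ι → ℕ) (C : Finset ι) : Prop :=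
  ∀ x ∈ C, ∀ y ∈ C, x ≠ y → (j x < j y ∧ j' x < j' y) ∨ (j y < j x ∧ j' y < j' x)

open Classical in
/-- probability of `p` for the uniform measure on the finite type `Ω` -/
noncomputable def pr (Ω : Type) [Fintype Ω] (p : Ω → Prop) : ℝ :=
  ((Finset.univ.filter p).card : ℝ) / (Fintype.card Ω : ℝ)

/-- number of points of `σ` in the grid box of the point `P` of width `W` (positions) and height `H` (values) -/
def boxCard {n : ℕ} (σ : Equiv.Perm (Fin n)) (W H : ℕ) (P : Fin n) : ℕ :=
  (Finset.univ.filter (fun Q : Fin n => Q.val / W = P.val / W ∧ (σ Q).val / H = (σ P).val / H)).card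

/-- the sample space of the alignment of two windows: for each of the `D` groups of labels one label of the group and
one slot in each of the two windows -/
abbrev Samp (D Z : ℕ) : Type := Fin D → Fin D × Fin Z × Fin Z

/-- the same for three windows -/
abbrev Samp3 (D Z : ℕ) : Type := Fin D → Fin D × Fin Z × Fin Z × Fin Z

section Sample

variable {α : Type} (X : Finset α) (u j lab sl : α → ℕ) (D : ℕ)

/-- the point of `X` in the window `U` with label `g * D + h` and slot `z` exists -/
def Occ (U g h z : ℕ) : Prop := ∃ P ∈ X, u P = U ∧ lab P = g * D + h ∧ sl P = z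

open Classical in
/-- the sub-column of that point (`0` if there is none) -/
noncomputable def jv (U g h z : ℕ) : ℕ :=
  if hP : ∃ P ∈ X, u P = U ∧ lab P = g * D + h ∧ sl P = z then j hP.choose else 0

end Sample

/-- `C` is a family of disjoint chains of length `L` in `A` (some of them may be empty), such that the rest of `A` contains no
chain of length `L` -/
def IsGreedy {ι : Type} (A : Finset ι) (j j' : ι → ℕ) (L : ℕ) {q : ℕ} (C : Fin q → Finset ι) : Prop :=
  (∀ i, C i ⊆ A ∧ Chain2 j j' (C i) ∧ ((C i).card = L ∨ C i = ∅)) ∧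
  (∀ i i', i ≠ i' → Disjoint (C i) (C i')) ∧
  (∀ R ⊆ A, (∀ i, Disjoint R (C i)) → Chain2 j j' R → R.card < L)

open Classical in
/-- a chosen greedy family (it exists if `A.card ≤ L * q`, see `greedy_exists`) -/
noncomputable def gfam {ι : Type} (A : Finset ι) (j j' : ι → ℕ) (L q : ℕ) : Fin q → Finset ι :=
  if h : ∃ C : Fin q → Finset ι, IsGreedy A j j' L C then h.choose else fun _ => ∅

section Sample2

variable {α : Type} (X : Finset α) (u j lab sl : α → ℕ) (D Z L q : ℕ)

open Classical in
/-- the groups for which both slots of the sample are occupied -/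
noncomputable def dset (U U' : ℕ) (ω : Samp D Z) : Finset (Fin D) :=
  Finset.univ.filter (fun g : Fin D =>
    Occ X u lab sl D U g.val (ω g).1.val (ω g).2.1.val ∧ Occ X u lab sl D U' g.val (ω g).1.val (ω g).2.2.val)

/-- sub-column of the sampled point of the first window -/
noncomputable def jL (U : ℕ) (ω : Samp D Z) (g : Fin D) : ℕ := jv X u j lab sl D U g.val (ω g).1.val (ω g).2.1.val

/-- sub-column of the sampled point of the second window -/
noncomputable def jR (U' : ℕ) (ω : Samp D Z) (g : Fin D) : ℕ := jv X u j lab sl D U' g.val (ω g).1.val (ω g).2.2.val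

/-- the chains of the sample `ω` for the pair of windows `U, U'` -/
noncomputable def chains (U U' : ℕ) (ω : Samp D Z) : Fin q → Finset (Fin D) :=
  gfam (dset X u lab sl D Z U U' ω) (jL X u j lab sl D Z U ω) (jR X u j lab sl D Z U' ω) L q

/-- the group `g` is in one of the chains -/
def GoodAt (U U' : ℕ) (ω : Samp D Z) (g : Fin D) : Prop := ∃ i, g ∈ chains X u j lab sl D Z L q U U' ω i

/-- the alignment of the windows `U, U'` given by the sample `ω.1` and the chain number `ω.2` -/
def Lam (U U' : ℕ) (ω : Samp D Z × Fin q) (J J' : ℕ) : Prop :=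
  ∃ g ∈ chains X u j lab sl D Z L q U U' ω.1 ω.2, jL X u j lab sl D Z U ω.1 g = J ∧ jR X u j lab sl D Z U' ω.1 g = J'

/-- the sample `ω` takes, in the group `g`, the label `l` and the slots `z`, `z'` -/
def Hit (l z z' : ℕ) (ω : Samp D Z) (g : Fin D) : Prop :=
  g.val = l / D ∧ (ω g).1.val = l % D ∧ (ω g).2.1.val = z ∧ (ω g).2.2.val = z'

open Classical in
/-- the pair of points `P, Q` (with the same label) is good: with conditional probability at least `1/4`, given that the sample
contains `P` and `Q`, their label is in one of the chains -/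
def GoodPair (P Q : α) : Prop :=
  (Finset.univ.filter (fun ω : Samp D Z => ∃ g, Hit D Z (lab P) (sl P) (sl Q) ω g)).card ≤
    4 * (Finset.univ.filter (fun ω : Samp D Z => ∃ g, Hit D Z (lab P) (sl P) (sl Q) ω g ∧
      GoodAt X u j lab sl D Z L q (u P) (u Q) ω g)).card

end Sample2

end Pool.Agent.TwinPerm
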