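import Pool.Agent.TwinPerm.Def

set_option autoImplicit false

/-!
# Degree: the conflict sum of an edge

Notation as in `EdgeCount`: `U = x / r^a`, `c = x / r^(a-d)`, `V = y / r^a`, `s = y / r^(a+k)`. `e` is a fixed edge, `J e'` is the joint probability of the row events of
`e` and `e'`, `yy` the row alignment probability.

Proof. Let `e' ≠ e` have the same column key (`c e.1 = c e'.1`, `c e.2 = c e'.2`; since `d ≤ a` also `U e.1 = U e'.1`, `U e.2 = U e'.2`) and `J e' ≠ 0`.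
(0) `V e.1 = V e'.1`: by `J3` with `i = 0` also `V e.2 = V e'.2`. By `Hx` with `h' = a ≤ b` there are at most two possible `e'.1` and at most two possible `e'.2`, so at most
`4 - 1 = 3` such `e' ≠ e`, each contributes `J e' / (yy e * yy e') ≤ φ / yy e` by `J1`.
(1) `V e.1 ≠ V e'.1` and they become equal in a block, i.e. for some `i < k`, `V e.1 / r^i ≠ V e'.1 / r^i` but `V e.1 / r^(i+1) = V e'.1 / r^(i+1)`: by `J3` also
`V e.2 / r^(i+1) = V e'.2 / r^(i+1)`; by `Hx` with `h' = a+i+1` (`y / r^a / r^(i+1) = y / r^(a+i+1)`) at most `2 r^(a+i+1-b)` points for each of `e'.1`, `e'.2`; each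
contributes at most `φ / r^i` by `J2`.
(2) `V e.1 / r^k ≠ V e'.1 / r^k`: each contributes at most `φ / r^k`, and the number of all `e' ∈ E` with the same column key is at most the last cardinality.
-/

namespace Pool.Agent.TwinPerm

open Finset

open Classical in
theorem degree_sum (a b d k r : ℕ) (hr : 0 < r) (hda : d ≤ a) (hab : a ≤ b) {α : Type} (X : Finset α) (x y : α → ℕ)
    (Hx : ∀ U β h', (X.filter (fun P => x P / r ^ a = U ∧ y P / r ^ h' = β)).card ≤ 2 * r ^ (h' - b))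
    (g1 : α → α → Prop) (E : Finset (α × α)) (hE : E ⊆ X ×ˢ X)
    (hEs : ∀ e ∈ E, y e.1 / r ^ (a + k) = y e.2 / r ^ (a + k) ∧ g1 e.1 e.2)
    (J yy : α × α → ℝ) (φ : ℝ) (hφ : 0 < φ) (hyy : ∀ e ∈ E, 0 < yy e) (e : α × α) (he : e ∈ E)
    (J0 : ∀ e' ∈ E, 0 ≤ J e') (J1 : ∀ e' ∈ E, J e' ≤ φ * yy e')
    (J2 : ∀ e' ∈ E, ∀ i ≤ k, y e.1 / r ^ a / r ^ i ≠ y e'.1 / r ^ a / r ^ i →
      J e' ≤ φ * ((r : ℝ) ^ i)⁻¹ * (yy e * yy e'))
    (J3 : ∀ e' ∈ E, J e' ≠ 0 → ∀ i, y e.1 / r ^ a / r ^ i = y e'.1 / r ^ a / r ^ i →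
      y e.2 / r ^ a / r ^ i = y e'.2 / r ^ a / r ^ i) :
    ∑ e' ∈ E.filter (fun e' => e' ≠ e ∧ (x e.1 / r ^ (a - d) = x e'.1 / r ^ (a - d) ∧
        x e.2 / r ^ (a - d) = x e'.2 / r ^ (a - d))), J e' / (yy e * yy e') ≤
      φ * (3 / yy e + ∑ i ∈ range k, 4 * ((r : ℝ) ^ (a + i + 1 - b)) ^ 2 / (r : ℝ) ^ i +
        (((X ×ˢ X).filter (fun f => x f.1 / r ^ (a - d) = x e.1 / r ^ (a - d) ∧
          x f.2 / r ^ (a - d) = x e.2 / r ^ (a - d) ∧
          y f.1 / r ^ (a + k) = y f.2 / r ^ (a + k) ∧ g1 f.1 f.2)).card : ℝ) / (r : ℝ) ^ k) := by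
  set F := E.filter (fun e' => e' ≠ e ∧ (x e.1 / r ^ (a - d) = x e'.1 / r ^ (a - d) ∧
        x e.2 / r ^ (a - d) = x e'.2 / r ^ (a - d))) with hF
  have hyye := hyy e he
  have ht0 : ∀ e' ∈ F, 0 ≤ J e' / (yy e * yy e') := fun e' h' =>
    div_nonneg (J0 e' (Finset.mem_filter.1 h').1)
      (mul_nonneg hyye.le (hyy e' (Finset.mem_filter.1 h').1).le)
  have hra : r ^ a = r ^ (a - d) * r ^ d := by
    rw [← pow_add]; congr 1; omega
  have hU : ∀ p q : ℕ, p / r ^ (a - d) = q / r ^ (a - d) → p / r ^ a = q / r ^ a := by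
    intro p q h
    rw [hra, ← Nat.div_div_eq_div_mul, h, Nat.div_div_eq_div_mul]
  have hV : ∀ (p i : ℕ), p / r ^ a / r ^ i = p / r ^ (a + i) := by
    intro p i
    rw [Nat.div_div_eq_div_mul, ← pow_add]
  have hcard : ∀ (i : ℕ) (G : Finset (α × α)), G ⊆ F →
      (∀ e' ∈ G, J e' ≠ 0 ∧ y e.1 / r ^ a / r ^ i = y e'.1 / r ^ a / r ^ i) →
      G ⊆ ((X.filter (fun P => x P / r ^ a = x e.1 / r ^ a ∧ y P / r ^ (a + i) = y e.1 / r ^ (a + i)))
        ×ˢ (X.filter (fun P => x P / r ^ a = x e.2 / r ^ a ∧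
          y P / r ^ (a + i) = y e.2 / r ^ (a + i)))).erase e := by
    intro i G hG h e' he'
    have h1 := Finset.mem_filter.1 (hG he')
    obtain ⟨h2, h3⟩ := h e' he'
    have h4 := J3 e' h1.1 h2 i h3
    rw [hV, hV] at h3 h4
    have h5 := Finset.mem_product.1 (hE h1.1)
    rw [Finset.mem_erase, Finset.mem_product, Finset.mem_filter, Finset.mem_filter]
    exact ⟨h1.2.1, ⟨h5.1, hU _ _ h1.2.2.1.symm, h3.symm⟩, h5.2, hU _ _ h1.2.2.2.symm, h4.symm⟩
  have heX := Finset.mem_product.1 (hE he)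
  -- class 0
  set F0 := F.filter (fun e' => J e' ≠ 0 ∧ y e.1 / r ^ a / r ^ 0 = y e'.1 / r ^ a / r ^ 0) with hF0
  have hF0c : F0.card ≤ 3 := by
    have h1 := Finset.card_le_card (hcard 0 F0 (Finset.filter_subset _ _)
      fun e' h' => (Finset.mem_filter.1 h').2)
    rw [Finset.card_erase_of_mem (by
      rw [Finset.mem_product, Finset.mem_filter, Finset.mem_filter]
      exact ⟨⟨heX.1, rfl, rfl⟩, heX.2, rfl, rfl⟩), Finset.card_product] at h1
    have h2 := Hx (x e.1 / r ^ a) (y e.1 / r ^ (a + 0)) (a + 0)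
    have h3 := Hx (x e.2 / r ^ a) (y e.2 / r ^ (a + 0)) (a + 0)
    have h4 : a + 0 - b = 0 := by omega
    rw [h4, pow_zero, mul_one] at h2 h3
    have h5 := Nat.mul_le_mul h2 h3
    omega
  have hS0 : ∑ e' ∈ F0, J e' / (yy e * yy e') ≤ φ * (3 / yy e) := by
    calc ∑ e' ∈ F0, J e' / (yy e * yy e') ≤ ∑ _e' ∈ F0, φ / yy e := by
          refine Finset.sum_le_sum fun e' h' => ?_
          have h1 := (Finset.mem_filter.1 (Finset.mem_filter.1 h').1).1
          have h2 := hyy e' h1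
          rw [div_le_div_iff₀ (mul_pos hyye h2) hyye]
          have h3 := mul_le_mul_of_nonneg_right (J1 e' h1) hyye.le
          calc J e' * yy e ≤ φ * yy e' * yy e := h3
            _ = φ * (yy e * yy e') := by ring
      _ = (F0.card : ℝ) * (φ / yy e) := by rw [Finset.sum_const, nsmul_eq_mul]
      _ ≤ 3 * (φ / yy e) := by
          refine mul_le_mul_of_nonneg_right (by exact_mod_cast hF0c) (div_pos hφ hyye).le
      _ = φ * (3 / yy e) := by ring
  -- class i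
  have hgen : ∀ i ≤ k, ∀ G : Finset (α × α), G ⊆ F →
      (∀ e' ∈ G, y e.1 / r ^ a / r ^ i ≠ y e'.1 / r ^ a / r ^ i) →
      ∑ e' ∈ G, J e' / (yy e * yy e') ≤ φ * ((G.card : ℝ) / (r : ℝ) ^ i) := by
    intro i hi G hG h
    calc ∑ e' ∈ G, J e' / (yy e * yy e') ≤ ∑ _e' ∈ G, φ * ((r : ℝ) ^ i)⁻¹ := by
          refine Finset.sum_le_sum fun e' h' => ?_
          have h1 := (Finset.mem_filter.1 (hG h')).1
          have h2 := hyy e' h1
          rw [div_le_iff₀ (mul_pos hyye h2)]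
          exact J2 e' h1 i hi (h e' h')
      _ = φ * ((G.card : ℝ) / (r : ℝ) ^ i) := by
          rw [Finset.sum_const, nsmul_eq_mul]; ring
  set Fi : ℕ → Finset (α × α) := fun i => F.filter (fun e' => J e' ≠ 0 ∧
    y e.1 / r ^ a / r ^ i ≠ y e'.1 / r ^ a / r ^ i ∧
    y e.1 / r ^ a / r ^ (i + 1) = y e'.1 / r ^ a / r ^ (i + 1)) with hFi
  have hSi : ∀ i ∈ range k, ∑ e' ∈ Fi i, J e' / (yy e * yy e') ≤
      φ * (4 * ((r : ℝ) ^ (a + i + 1 - b)) ^ 2 / (r : ℝ) ^ i) := by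
    intro i hi
    refine (hgen i (Finset.mem_range.1 hi).le (Fi i) (Finset.filter_subset _ _)
      fun e' h' => (Finset.mem_filter.1 h').2.2.1).trans ?_
    have h1 := Finset.card_le_card (hcard (i + 1) (Fi i) (Finset.filter_subset _ _)
      fun e' h' => ⟨(Finset.mem_filter.1 h').2.1, (Finset.mem_filter.1 h').2.2.2⟩)
    have h2 := Hx (x e.1 / r ^ a) (y e.1 / r ^ (a + (i + 1))) (a + (i + 1))
    have h3 := Hx (x e.2 / r ^ a) (y e.2 / r ^ (a + (i + 1))) (a + (i + 1))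
    have h4 : (Fi i).card ≤ 4 * (r ^ (a + i + 1 - b)) ^ 2 := by
      refine (h1.trans (Finset.card_le_card (Finset.erase_subset _ _))).trans ?_
      rw [Finset.card_product]
      refine (Nat.mul_le_mul h2 h3).trans (le_of_eq ?_)
      rw [← add_assoc]
      ring
    have h5 : ((Fi i).card : ℝ) ≤ 4 * ((r : ℝ) ^ (a + i + 1 - b)) ^ 2 := by exact_mod_cast h4
    have hri : (0 : ℝ) < (r : ℝ) ^ i := by positivity
    gcongr
  -- last class
  set Fl := F.filter (fun e' => y e.1 / r ^ a / r ^ k ≠ y e'.1 / r ^ a / r ^ k) with hFl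
  have hSl : ∑ e' ∈ Fl, J e' / (yy e * yy e') ≤
      φ * ((((X ×ˢ X).filter (fun f => x f.1 / r ^ (a - d) = x e.1 / r ^ (a - d) ∧
          x f.2 / r ^ (a - d) = x e.2 / r ^ (a - d) ∧
          y f.1 / r ^ (a + k) = y f.2 / r ^ (a + k) ∧ g1 f.1 f.2)).card : ℝ) / (r : ℝ) ^ k) := by
    refine (hgen k le_rfl Fl (Finset.filter_subset _ _)
      fun e' h' => (Finset.mem_filter.1 h').2).trans ?_
    have h1 : Fl ⊆ (X ×ˢ X).filter (fun f => x f.1 / r ^ (a - d) = x e.1 / r ^ (a - d) ∧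
          x f.2 / r ^ (a - d) = x e.2 / r ^ (a - d) ∧
          y f.1 / r ^ (a + k) = y f.2 / r ^ (a + k) ∧ g1 f.1 f.2) := by
      intro e' h'
      have h2 := Finset.mem_filter.1 (Finset.mem_filter.1 h').1
      rw [Finset.mem_filter]
      exact ⟨hE h2.1, h2.2.2.1.symm, h2.2.2.2.symm, (hEs e' h2.1).1, (hEs e' h2.1).2⟩
    have h2 : ((Fl.card : ℕ) : ℝ) ≤ _ := Nat.cast_le.2 (Finset.card_le_card h1)
    have hri : (0 : ℝ) < (r : ℝ) ^ k := by positivity
    gcongr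
  -- covering
  have hcov : ∀ e' ∈ F, J e' / (yy e * yy e') ≤
      (if J e' ≠ 0 ∧ y e.1 / r ^ a / r ^ 0 = y e'.1 / r ^ a / r ^ 0 then
        J e' / (yy e * yy e') else 0) +
      ∑ i ∈ range k, (if J e' ≠ 0 ∧ y e.1 / r ^ a / r ^ i ≠ y e'.1 / r ^ a / r ^ i ∧
        y e.1 / r ^ a / r ^ (i + 1) = y e'.1 / r ^ a / r ^ (i + 1) then
        J e' / (yy e * yy e') else 0) +
      (if y e.1 / r ^ a / r ^ k ≠ y e'.1 / r ^ a / r ^ k then
        J e' / (yy e * yy e') else 0) := by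
    intro e' h'
    have ht := ht0 e' h'
    have hn1 : 0 ≤ (if J e' ≠ 0 ∧ y e.1 / r ^ a / r ^ 0 = y e'.1 / r ^ a / r ^ 0 then
        J e' / (yy e * yy e') else 0) := by split_ifs <;> simp [ht]
    have hn2 : ∀ i ∈ range k, 0 ≤
        (if J e' ≠ 0 ∧ y e.1 / r ^ a / r ^ i ≠ y e'.1 / r ^ a / r ^ i ∧
        y e.1 / r ^ a / r ^ (i + 1) = y e'.1 / r ^ a / r ^ (i + 1) then
        J e' / (yy e * yy e') else 0) := by intro i _; split_ifs <;> simp [ht]
    have hn3 : 0 ≤ (if y e.1 / r ^ a / r ^ k ≠ y e'.1 / r ^ a / r ^ k then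
        J e' / (yy e * yy e') else 0) := by split_ifs <;> simp [ht]
    have hn2' := Finset.sum_nonneg hn2
    by_cases hJ : J e' = 0
    · have hz : J e' / (yy e * yy e') = 0 := by rw [hJ, zero_div]
      refine hz.le.trans ?_
      linarith
    by_cases hk : y e.1 / r ^ a / r ^ k ≠ y e'.1 / r ^ a / r ^ k
    · rw [if_pos hk]
      linarith
    rw [not_not] at hk
    have hex : ∃ m, y e.1 / r ^ a / r ^ m = y e'.1 / r ^ a / r ^ m := ⟨k, hk⟩
    have hmk : Nat.find hex ≤ k := Nat.find_min' hex hk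
    rcases Nat.eq_zero_or_pos (Nat.find hex) with h0 | hpos
    · have h1 := Nat.find_spec hex
      rw [h0] at h1
      rw [if_pos ⟨hJ, h1⟩]
      linarith
    · obtain ⟨i, hi⟩ : ∃ i, Nat.find hex = i + 1 := ⟨Nat.find hex - 1, by omega⟩
      have h1 := Nat.find_spec hex
      rw [hi] at h1
      have h2 : y e.1 / r ^ a / r ^ i ≠ y e'.1 / r ^ a / r ^ i :=
        Nat.find_min hex (by omega : i < Nat.find hex)
      have h3 := Finset.single_le_sum hn2 (Finset.mem_range.2 (by omega : i < k))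
      rw [if_pos ⟨hJ, h2, h1⟩] at h3
      linarith
  refine (Finset.sum_le_sum hcov).trans ?_
  rw [Finset.sum_add_distrib, Finset.sum_add_distrib, Finset.sum_comm]
  have e1 := Finset.sum_filter (s := F)
    (fun e' => J e' ≠ 0 ∧ y e.1 / r ^ a / r ^ 0 = y e'.1 / r ^ a / r ^ 0)
    (fun e' => J e' / (yy e * yy e'))
  have e2 : ∀ i ∈ range k, _ := fun i (_ : i ∈ range k) => Finset.sum_filter (s := F)
    (fun e' => J e' ≠ 0 ∧ y e.1 / r ^ a / r ^ i ≠ y e'.1 / r ^ a / r ^ i ∧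
    y e.1 / r ^ a / r ^ (i + 1) = y e'.1 / r ^ a / r ^ (i + 1))
    (fun e' => J e' / (yy e * yy e'))
  have e3 := Finset.sum_filter (s := F)
    (fun e' => y e.1 / r ^ a / r ^ k ≠ y e'.1 / r ^ a / r ^ k)
    (fun e' => J e' / (yy e * yy e'))
  rw [← e1, ← e3, ← Finset.sum_congr rfl e2, mul_add, mul_add, Finset.mul_sum]
  exact add_le_add (add_le_add hS0 (Finset.sum_le_sum hSi)) hSl

end Pool.Agent.TwinPerm
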