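import Pool.Agent.TwinPerm.Def

set_option autoImplicit false

/-!
# Disj: from a matching to a matching with disjoint sides (lose a factor 3)

Proof. Say `e` and `e'` (different elements of `M`) conflict if `e.1 = e'.2` or `e'.1 = e.2`. By injectivity of the first and of the second
component, every `e` has at most two conflicting `e'`. A graph of maximal degree at most `2` has an independent set with at least a
third of the vertices (greedy: choose `e`, delete it and its at most two neighbours, strong induction on `|M|`).
-/

namespace Pool.Agent.TwinPerm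

open Finset

theorem disj_third {α : Type} [DecidableEq α] (M : Finset (α × α)) (hne : ∀ e ∈ M, e.1 ≠ e.2)
    (h1 : ∀ e ∈ M, ∀ e' ∈ M, e.1 = e'.1 → e = e') (h2 : ∀ e ∈ M, ∀ e' ∈ M, e.2 = e'.2 → e = e') :
    ∃ M' ⊆ M, M.card ≤ 3 * M'.card ∧ ∀ e ∈ M', ∀ e' ∈ M', e.1 ≠ e'.2 := by
  induction hn : M.card using Nat.strong_induction_on generalizing M with
  | _ n ih =>
    subst hn
    rcases M.eq_empty_or_nonempty with rfl | ⟨e, he⟩
    · exact ⟨∅, subset_rfl, by simp, by simp⟩
    · obtain ⟨A, hA⟩ : ∃ A : Finset (α × α), A = M.filter (fun e' => e'.2 = e.1) := ⟨_, rfl⟩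
      obtain ⟨B, hB⟩ : ∃ B : Finset (α × α), B = M.filter (fun e' => e'.1 = e.2) := ⟨_, rfl⟩
      obtain ⟨R, hR⟩ : ∃ R : Finset (α × α), R = ((M \ {e}) \ A) \ B := ⟨_, rfl⟩
      have hA1 : A.card ≤ 1 := by
        rw [Finset.card_le_one]
        intro x hx y hy
        rw [hA, Finset.mem_filter] at hx hy
        exact h2 x hx.1 y hy.1 (hx.2.trans hy.2.symm)
      have hB1 : B.card ≤ 1 := by
        rw [Finset.card_le_one]
        intro x hx y hy
        rw [hB, Finset.mem_filter] at hx hy
        exact h1 x hx.1 y hy.1 (hx.2.trans hy.2.symm)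
      have hRM : R ⊆ M := by
        intro x hx
        rw [hR, Finset.mem_sdiff, Finset.mem_sdiff, Finset.mem_sdiff] at hx
        exact hx.1.1.1
      have heR : e ∉ R := by
        intro hx
        rw [hR, Finset.mem_sdiff, Finset.mem_sdiff, Finset.mem_sdiff] at hx
        exact hx.1.1.2 (Finset.mem_singleton_self e)
      have hc1 : M.card ≤ R.card + 3 := by
        have h3 := Finset.card_le_card_sdiff_add_card (s := M) (t := {e})
        have h4 := Finset.card_le_card_sdiff_add_card (s := M \ {e}) (t := A)
        have h5 := Finset.card_le_card_sdiff_add_card (s := (M \ {e}) \ A) (t := B)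
        rw [Finset.card_singleton] at h3
        rw [hR]
        omega
      have hlt : R.card < M.card := Finset.card_lt_card
        ⟨hRM, fun h => heR (h he)⟩
      obtain ⟨N, hN, hc2, hdis⟩ := ih R.card hlt R (fun x hx => hne x (hRM hx))
        (fun x hx y hy => h1 x (hRM hx) y (hRM hy)) (fun x hx y hy => h2 x (hRM hx) y (hRM hy)) rfl
      have heN : e ∉ N := fun h => heR (hN h)
      refine ⟨insert e N, ?_, ?_, ?_⟩
      · intro x hx
        rw [Finset.mem_insert] at hx
        rcases hx with rfl | hx
        · exact he
        · exact hRM (hN hx)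
      · rw [Finset.card_insert_of_notMem heN]
        omega
      · intro x hx y hy hxy
        rw [Finset.mem_insert] at hx hy
        rcases hx with rfl | hx
        · rcases hy with rfl | hy
          · exact hne _ he hxy
          · have h6 := hN hy
            rw [hR, Finset.mem_sdiff, Finset.mem_sdiff, hA, Finset.mem_filter] at h6
            exact h6.1.2 ⟨hRM (hN hy), hxy.symm⟩
        · rcases hy with rfl | hy
          · have h6 := hN hx
            rw [hR, Finset.mem_sdiff, hB, Finset.mem_filter] at h6
            exact h6.2 ⟨hRM (hN hx), hxy⟩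
          · exact hdis x hx y hy hxy

end Pool.Agent.TwinPerm
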