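import Pool.Agent.TwinPerm.Ramsey

set_option autoImplicit false

/-!
# EdgeCount: the set `E` of good edges

Notation: `U = x / r^a` (window), `c = x / r^(a-d)` (sub-column), `A = x / r^(N-2d)` (vertical segment), `V = y / r^a`, `ρ = y / r^(a-d)`, `s = y / r^(N-2d)`.
`N - 2d = a + k`, so `A < r^(2d)`, `s < r^(2d)`, each `A` has `r^k` windows `U` and `r^(k+d)` sub-columns `c`; `N - 2d - b = h`, so
`#{P | U P = U, s P = s} ≤ 2 r^h` by `Hx`, `#{P | V P = V, A P = A} ≤ 2 r^h` by `Hy`.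

Proof. `cell P = A P * r^(2d) + s P < r^(4d) = K`, `#cell ≤ r^k * 2 r^h = 2 r^(k+h) = Y`. `R1 = r^(2d) * r^(3k) * (8 r^(3l) r^d 8 r^(3h)) = 64 r^(3d+3k+3l+3h)`:
sum of `tri1` over the triples `(U1, U2, U3)` of windows in the same segment `A`. `R2 = R1` by `tri2`.
`k + h = N + th - 4d`. `ramsey_count`, `r^(6N) ≤ 64 |X|^6`:
`r^(6N) / 64 ≤ r^(20d) (20480 r^(3d+3l+6k+6h) + 240 r^(4k+4h) G)`, and `r^(20d) 20480 r^(3d+3l+6k+6h) = 20480 r^(6N+6th+3l-d) ≤ r^(6N) / 128` since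
`d ≥ 6th+3l+1` and `r ≥ 2621440 = 20480 * 128`. So the number `G` of pairs in the same cell with `g1` and `g2` satisfies
`30720 G ≥ r^(6N-20d-4(N+th-4d)) = r^(2N-4th-4d) = r^(2a+2k-4th)`.
Remove from this set:
(i) the pairs with `U P = U Q`: at most `|X| * 2 r^h ≤ 2 r^(N+h)`, which is at most `G/8` (`2a+2k-4th - (N+h) = b-4th-2d ≥ 1`, `r ≥ 491520`);
(ii) the pairs with `V P = V Q`: the same by `Hy`;
(iii) the pairs `e` with `245760 r^(4th+4d) n_c(e) < r^(2a)`, `n_c(e)` = the number in the statement: `n_c(e)` depends only on the pair `(c e.1, c e.2)`, there are at most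
`r^(2d) * r^(2k+2d)` such pairs (same segment), and for each of them at most `n_c` edges `e`; so at most `r^(4d+2k) r^(2a) / (245760 r^(4th+4d)) = r^(2a+2k-4th) / 245760 ≤ G/8`;
(iv) the same for `n_r`.
The rest `E` has at least `G/2` elements.
-/

namespace Pool.Agent.TwinPerm

open Finset

theorem ec_seg_div (x r a k : ℕ) : x / r ^ a / r ^ k = x / r ^ (a + k) := by
  rw [Nat.div_div_eq_div_mul, ← pow_add]

theorem ec_seg_eq (x r a k : ℕ) :
    x / r ^ a = r ^ k * (x / r ^ (a + k)) + (x / r ^ a) % r ^ k := by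
  rw [← ec_seg_div, Nat.div_add_mod]

theorem ec_seg_lt {x r M d N : ℕ} (hMN : M + 2 * d = N) (hx : x < r ^ N) : x / r ^ M < r ^ (2 * d) := by
  apply Nat.div_lt_of_lt_mul
  rwa [← pow_add, hMN]

theorem ec_cell_inj {R A s A' s' : ℕ} (hs : s < R) (hs' : s' < R) (h : A * R + s = A' * R + s') :
    A = A' ∧ s = s' := by
  have hR : 0 < R := by omega
  have h1 : (A * R + s) / R = A := by
    rw [add_comm, Nat.add_mul_div_right _ _ hR, Nat.div_eq_of_lt hs, zero_add]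
  have h2 : (A' * R + s') / R = A' := by
    rw [add_comm, Nat.add_mul_div_right _ _ hR, Nat.div_eq_of_lt hs', zero_add]
  have h3 : A = A' := by rw [← h1, h, h2]
  subst h3
  exact ⟨rfl, by omega⟩

open Classical in
/-- number of triples in a common cell -/
theorem ec_tri_bound {α : Type} (X : Finset α) (x y : α → ℕ) (r a k M d N B : ℕ) (hr : 0 < r)
    (hM : M = a + k) (hMN : M + 2 * d = N) (hxN : ∀ P ∈ X, x P < r ^ N) (g : α → α → Prop)
    (tri : ∀ U1 U2 U3, ((X ×ˢ X ×ˢ X).filter (fun t => x t.1 / r ^ a = U1 ∧ x t.2.1 / r ^ a = U2 ∧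
      x t.2.2 / r ^ a = U3 ∧ y t.1 / r ^ M = y t.2.1 / r ^ M ∧
      y t.2.1 / r ^ M = y t.2.2 / r ^ M ∧ ¬ g t.1 t.2.1 ∧ ¬ g t.1 t.2.2 ∧
      ¬ g t.2.1 t.2.2)).card ≤ B) :
    ((X ×ˢ X ×ˢ X).filter (fun t => (x t.1 / r ^ M = x t.2.1 / r ^ M ∧
      x t.2.1 / r ^ M = x t.2.2 / r ^ M ∧
      y t.1 / r ^ M = y t.2.1 / r ^ M ∧ y t.2.1 / r ^ M = y t.2.2 / r ^ M) ∧
      ¬ g t.1 t.2.1 ∧ ¬ g t.1 t.2.2 ∧ ¬ g t.2.1 t.2.2)).card ≤
      B * (r ^ (2 * d) * (r ^ k * (r ^ k * r ^ k))) := by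
  have hk : 0 < r ^ k := pow_pos hr k
  have key := Finset.card_le_mul_card_image_of_maps_to
    (s := (X ×ˢ X ×ˢ X).filter (fun t => (x t.1 / r ^ M = x t.2.1 / r ^ M ∧
      x t.2.1 / r ^ M = x t.2.2 / r ^ M ∧
      y t.1 / r ^ M = y t.2.1 / r ^ M ∧ y t.2.1 / r ^ M = y t.2.2 / r ^ M) ∧
      ¬ g t.1 t.2.1 ∧ ¬ g t.1 t.2.2 ∧ ¬ g t.2.1 t.2.2))
    (f := fun t => (x t.1 / r ^ M, (x t.1 / r ^ a) % r ^ k, (x t.2.1 / r ^ a) % r ^ k,
      (x t.2.2 / r ^ a) % r ^ k))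
    (t := Finset.range (r ^ (2 * d)) ×ˢ Finset.range (r ^ k) ×ˢ Finset.range (r ^ k) ×ˢ
      Finset.range (r ^ k)) ?_ B ?_
  · rw [Finset.card_product, Finset.card_product, Finset.card_product, Finset.card_range,
      Finset.card_range] at key
    exact key
  · intro t ht
    obtain ⟨ht1, ht2⟩ := Finset.mem_filter.mp ht
    have h1 := (Finset.mem_product.mp ht1).1
    simp only [Finset.mem_product, Finset.mem_range]
    exact ⟨ec_seg_lt hMN (hxN _ h1), Nat.mod_lt _ hk, Nat.mod_lt _ hk, Nat.mod_lt _ hk⟩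
  · rintro ⟨A, u1, u2, u3⟩ _
    refine le_trans (Finset.card_le_card ?_) (tri (r ^ k * A + u1) (r ^ k * A + u2) (r ^ k * A + u3))
    intro t ht
    obtain ⟨ht1, ht2⟩ := Finset.mem_filter.mp ht
    obtain ⟨ht3, ⟨e1, e2, e3, e4⟩, ht4⟩ := Finset.mem_filter.mp ht1
    simp only [Prod.mk.injEq] at ht2
    obtain ⟨f0, f1, f2, f3⟩ := ht2
    refine Finset.mem_filter.mpr ⟨ht3, ?_, ?_, ?_, e3, e4, ht4⟩
    · rw [ec_seg_eq (x t.1) r a k, ← hM, f0, f1]
    · rw [ec_seg_eq (x t.2.1) r a k, ← hM, ← e1, f0, f2]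
    · rw [ec_seg_eq (x t.2.2) r a k, ← hM, ← e2, ← e1, f0, f3]

open Classical in
/-- number of points in a cell -/
theorem ec_cell_bound {α : Type} (X : Finset α) (x y : α → ℕ) (r a k M c : ℕ) (hr : 0 < r)
    (hM : M = a + k)
    (H : ∀ U β, (X.filter (fun P => x P / r ^ a = U ∧ y P / r ^ M = β)).card ≤ c) (A₀ s₀ : ℕ) :
    (X.filter (fun P => x P / r ^ M = A₀ ∧ y P / r ^ M = s₀)).card ≤ c * r ^ k := by
  have hk : 0 < r ^ k := pow_pos hr k
  have key := Finset.card_le_mul_card_image_of_maps_to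
    (s := X.filter (fun P => x P / r ^ M = A₀ ∧ y P / r ^ M = s₀))
    (f := fun P => (x P / r ^ a) % r ^ k)
    (t := Finset.range (r ^ k)) ?_ c ?_
  · rw [Finset.card_range] at key
    exact key
  · intro P _
    exact Finset.mem_range.mpr (Nat.mod_lt _ hk)
  · intro u _
    refine le_trans (Finset.card_le_card ?_) (H (r ^ k * A₀ + u) s₀)
    intro P hP
    obtain ⟨h1, h2⟩ := Finset.mem_filter.mp hP
    obtain ⟨h3, h4, h5⟩ := Finset.mem_filter.mp h1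
    refine Finset.mem_filter.mpr ⟨h3, ?_, h5⟩
    rw [ec_seg_eq (x P) r a k, ← hM, h4]
    congr 1

open Classical in
/-- number of pairs in a common window and a common strip -/
theorem ec_row_bound {α : Type} (X : Finset α) (x y : α → ℕ) (r a M c : ℕ)
    (H : ∀ U β, (X.filter (fun P => x P / r ^ a = U ∧ y P / r ^ M = β)).card ≤ c) :
    ((X ×ˢ X).filter (fun e => x e.1 / r ^ a = x e.2 / r ^ a ∧
      y e.1 / r ^ M = y e.2 / r ^ M)).card ≤ c * X.card := by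
  apply Finset.card_le_mul_card_image_of_maps_to (f := Prod.fst)
  · intro e he
    exact (Finset.mem_product.mp (Finset.mem_filter.mp he).1).1
  · intro P _
    refine le_trans (Finset.card_le_card_of_injOn Prod.snd ?_ ?_) (H (x P / r ^ a) (y P / r ^ M))
    · intro e he
      obtain ⟨h1, h2⟩ := Finset.mem_filter.mp (Finset.mem_coe.mp he)
      obtain ⟨h3, h4, h5⟩ := Finset.mem_filter.mp h1
      rw [h2] at h4 h5
      exact Finset.mem_coe.mpr (Finset.mem_filter.mpr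
        ⟨(Finset.mem_product.mp h3).2, h4.symm, h5.symm⟩)
    · intro e he e' he' h
      have h1 := (Finset.mem_filter.mp (Finset.mem_coe.mp he)).2
      have h2 := (Finset.mem_filter.mp (Finset.mem_coe.mp he')).2
      exact Prod.ext (h1.trans h2.symm) h

open Classical in
/-- number of light pairs -/
theorem ec_light_bound {α : Type} (X : Finset α) (x y : α → ℕ) (r a' k' M d N W T : ℕ) (hr : 0 < r)
    (hM : M = a' + k') (hMN : M + 2 * d = N) (hxN : ∀ P ∈ X, x P < r ^ N) (g : α → α → Prop)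
    (S : Finset (α × α)) (hS : ∀ e ∈ S, e ∈ X ×ˢ X ∧ x e.1 / r ^ M = x e.2 / r ^ M ∧
      y e.1 / r ^ M = y e.2 / r ^ M ∧ g e.1 e.2) :
    W * (S.filter (fun e => ¬ (T ≤ W * ((X ×ˢ X).filter (fun f =>
        x f.1 / r ^ a' = x e.1 / r ^ a' ∧ x f.2 / r ^ a' = x e.2 / r ^ a' ∧
        y f.1 / r ^ M = y f.2 / r ^ M ∧ g f.1 f.2)).card))).card ≤
      r ^ (2 * d) * (r ^ k' * r ^ k') * T := by
  have hk : 0 < r ^ k' := pow_pos hr k'
  set L := S.filter (fun e => ¬ (T ≤ W * ((X ×ˢ X).filter (fun f =>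
        x f.1 / r ^ a' = x e.1 / r ^ a' ∧ x f.2 / r ^ a' = x e.2 / r ^ a' ∧
        y f.1 / r ^ M = y f.2 / r ^ M ∧ g f.1 f.2)).card)) with hL
  have hmaps : ∀ e ∈ L, (x e.1 / r ^ M, (x e.1 / r ^ a') % r ^ k', (x e.2 / r ^ a') % r ^ k') ∈
      Finset.range (r ^ (2 * d)) ×ˢ Finset.range (r ^ k') ×ˢ Finset.range (r ^ k') := by
    intro e he
    have h1 := (hS e (Finset.mem_filter.mp he).1).1
    simp only [Finset.mem_product, Finset.mem_range]
    exact ⟨ec_seg_lt hMN (hxN _ (Finset.mem_product.mp h1).1), Nat.mod_lt _ hk, Nat.mod_lt _ hk⟩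
  rw [Finset.card_eq_sum_card_fiberwise hmaps, Finset.mul_sum]
  refine le_trans (Finset.sum_le_card_nsmul _ _ T ?_) (le_of_eq ?_)
  · rintro ⟨A, u1, u2⟩ _
    rcases (L.filter (fun e => (x e.1 / r ^ M, (x e.1 / r ^ a') % r ^ k', (x e.2 / r ^ a') % r ^ k') =
      (A, u1, u2))).eq_empty_or_nonempty with h | ⟨e, he⟩
    · rw [h, Finset.card_empty, mul_zero]
      exact Nat.zero_le _
    · obtain ⟨he1, he2⟩ := Finset.mem_filter.mp he
      obtain ⟨he3, he4⟩ := Finset.mem_filter.mp he1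
      have h1 := not_le.mp he4
      refine le_trans (Nat.mul_le_mul_left W (Finset.card_le_card ?_)) h1.le
      intro e' he'
      obtain ⟨hf1, hf2⟩ := Finset.mem_filter.mp he'
      obtain ⟨hf3, hf4⟩ := Finset.mem_filter.mp hf1
      obtain ⟨q1, q2, q3, q4⟩ := hS e' hf3
      obtain ⟨p1, p2, p3, p4⟩ := hS e he3
      simp only [Prod.mk.injEq] at he2 hf2
      obtain ⟨a1, a2, a3⟩ := he2
      obtain ⟨b1, b2, b3⟩ := hf2
      refine Finset.mem_filter.mpr ⟨q1, ?_, ?_, q3, q4⟩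
      · rw [ec_seg_eq (x e'.1) r a' k', ec_seg_eq (x e.1) r a' k', ← hM, a1, b1, a2, b2]
      · rw [ec_seg_eq (x e'.2) r a' k', ec_seg_eq (x e.2) r a' k', ← hM, ← q2, ← p2, a1, b1, a3, b3]
  · rw [Finset.card_product, Finset.card_product, Finset.card_range, Finset.card_range, smul_eq_mul]

open Classical in
theorem edge_count (a b th d l k h N r : ℕ) (hN : N = a + b + th) (hk : k + 2 * d = b + th)
    (hh : h + 2 * d = a + th) (hda : d ≤ a) (hd : 6 * th + 3 * l + 1 ≤ d) (hb : 2 * d + 4 * th + 1 ≤ b)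
    (hr : 2621440 ≤ r) {α : Type} (X : Finset α) (x y : α → ℕ)
    (hxN : ∀ P ∈ X, x P < r ^ N) (hyN : ∀ P ∈ X, y P < r ^ N) (hXN : X.card ≤ r ^ N)
    (Hx : ∀ U β h', (X.filter (fun P => x P / r ^ a = U ∧ y P / r ^ h' = β)).card ≤ 2 * r ^ (h' - b))
    (Hy : ∀ V β h', (X.filter (fun P => y P / r ^ a = V ∧ x P / r ^ h' = β)).card ≤ 2 * r ^ (h' - b))
    (hX : r ^ N ≤ 2 * X.card) (g1 g2 : α → α → Prop)
    (tri1 : ∀ U1 U2 U3, ((X ×ˢ X ×ˢ X).filter (fun t => x t.1 / r ^ a = U1 ∧ x t.2.1 / r ^ a = U2 ∧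
      x t.2.2 / r ^ a = U3 ∧ y t.1 / r ^ (N - 2 * d) = y t.2.1 / r ^ (N - 2 * d) ∧
      y t.2.1 / r ^ (N - 2 * d) = y t.2.2 / r ^ (N - 2 * d) ∧ ¬ g1 t.1 t.2.1 ∧ ¬ g1 t.1 t.2.2 ∧
      ¬ g1 t.2.1 t.2.2)).card ≤ 8 * (r ^ l) ^ 3 * r ^ d * (2 * r ^ h) ^ 3)
    (tri2 : ∀ U1 U2 U3, ((X ×ˢ X ×ˢ X).filter (fun t => y t.1 / r ^ a = U1 ∧ y t.2.1 / r ^ a = U2 ∧
      y t.2.2 / r ^ a = U3 ∧ x t.1 / r ^ (N - 2 * d) = x t.2.1 / r ^ (N - 2 * d) ∧
      x t.2.1 / r ^ (N - 2 * d) = x t.2.2 / r ^ (N - 2 * d) ∧ ¬ g2 t.1 t.2.1 ∧ ¬ g2 t.1 t.2.2 ∧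
      ¬ g2 t.2.1 t.2.2)).card ≤ 8 * (r ^ l) ^ 3 * r ^ d * (2 * r ^ h) ^ 3) :
    ∃ E ⊆ X ×ˢ X, (∀ e ∈ E,
      x e.1 / r ^ (N - 2 * d) = x e.2 / r ^ (N - 2 * d) ∧ y e.1 / r ^ (N - 2 * d) = y e.2 / r ^ (N - 2 * d) ∧
      g1 e.1 e.2 ∧ g2 e.1 e.2 ∧ x e.1 / r ^ a ≠ x e.2 / r ^ a ∧ y e.1 / r ^ a ≠ y e.2 / r ^ a ∧
      r ^ (2 * a) ≤ 245760 * r ^ (4 * th + 4 * d) * ((X ×ˢ X).filter (fun f =>
        x f.1 / r ^ (a - d) = x e.1 / r ^ (a - d) ∧ x f.2 / r ^ (a - d) = x e.2 / r ^ (a - d) ∧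
        y f.1 / r ^ (N - 2 * d) = y f.2 / r ^ (N - 2 * d) ∧ g1 f.1 f.2)).card ∧
      r ^ (2 * a) ≤ 245760 * r ^ (4 * th + 4 * d) * ((X ×ˢ X).filter (fun f =>
        y f.1 / r ^ (a - d) = y e.1 / r ^ (a - d) ∧ y f.2 / r ^ (a - d) = y e.2 / r ^ (a - d) ∧
        x f.1 / r ^ (N - 2 * d) = x f.2 / r ^ (N - 2 * d) ∧ g2 f.1 f.2)).card) ∧
      r ^ (2 * N) ≤ 61440 * r ^ (4 * th + 4 * d) * E.card := by
  have hr0 : 0 < r := by omega
  have hr1 : 1 ≤ r := hr0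
  have hMd : (N - 2 * d) + 2 * d = N := by omega
  have hMk : N - 2 * d = a + k := by omega
  have hMb : N - 2 * d - b = h := by omega
  have hMk' : N - 2 * d = (a - d) + (k + d) := by omega
  set M := N - 2 * d with hMdef
  set W := r ^ (4 * th + 4 * d) with hWdef
  have hW : 0 < W := pow_pos hr0 _
  set cell : α → ℕ := fun P => x P / r ^ M * r ^ (2 * d) + y P / r ^ M with hcelldef
  have hxs : ∀ P ∈ X, x P / r ^ M < r ^ (2 * d) := fun P hP => ec_seg_lt hMd (hxN P hP)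
  have hys : ∀ P ∈ X, y P / r ^ M < r ^ (2 * d) := fun P hP => ec_seg_lt hMd (hyN P hP)
  have hcell : ∀ P ∈ X, cell P < r ^ (4 * d) := by
    intro P hP
    have h1 := hxs P hP
    have h2 := hys P hP
    have h3 : r ^ (4 * d) = r ^ (2 * d) * r ^ (2 * d) := by rw [← pow_add]; congr 1; ring
    rw [h3]
    calc cell P < x P / r ^ M * r ^ (2 * d) + r ^ (2 * d) := by
          simp only [hcelldef]
          omega
      _ = (x P / r ^ M + 1) * r ^ (2 * d) := by ring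
      _ ≤ r ^ (2 * d) * r ^ (2 * d) := Nat.mul_le_mul_right _ h1
  have hcinj : ∀ P ∈ X, ∀ Q ∈ X, cell P = cell Q →
      x P / r ^ M = x Q / r ^ M ∧ y P / r ^ M = y Q / r ^ M := by
    intro P hP Q hQ hPQ
    exact ec_cell_inj (hys P hP) (hys Q hQ) hPQ
  have Hx' : ∀ U β, (X.filter (fun P => x P / r ^ a = U ∧ y P / r ^ M = β)).card ≤ 2 * r ^ h := by
    intro U β
    have := Hx U β M
    rwa [hMb] at this
  have Hy' : ∀ U β, (X.filter (fun P => y P / r ^ a = U ∧ x P / r ^ M = β)).card ≤ 2 * r ^ h := by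
    intro U β
    have := Hy U β M
    rwa [hMb] at this
  have hY : ∀ c, (X.filter (fun P => cell P = c)).card ≤ 2 * r ^ h * r ^ k := by
    intro c
    rcases (X.filter (fun P => cell P = c)).eq_empty_or_nonempty with h0 | ⟨P₀, hP₀⟩
    · rw [h0, Finset.card_empty]
      exact Nat.zero_le _
    · refine le_trans (Finset.card_le_card ?_)
        (ec_cell_bound X x y r a k M (2 * r ^ h) hr0 hMk Hx' (x P₀ / r ^ M) (y P₀ / r ^ M))
      intro P hP
      obtain ⟨h1, h2⟩ := Finset.mem_filter.mp hP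
      obtain ⟨h3, h4⟩ := Finset.mem_filter.mp hP₀
      exact Finset.mem_filter.mpr ⟨h1, hcinj P h1 P₀ h3 (h2.trans h4.symm)⟩
  have hR1 : ((X ×ˢ X ×ˢ X).filter (fun t => cell t.1 = cell t.2.1 ∧ cell t.2.1 = cell t.2.2 ∧
      ¬ g1 t.1 t.2.1 ∧ ¬ g1 t.1 t.2.2 ∧ ¬ g1 t.2.1 t.2.2)).card ≤
      8 * (r ^ l) ^ 3 * r ^ d * (2 * r ^ h) ^ 3 * (r ^ (2 * d) * (r ^ k * (r ^ k * r ^ k))) := by
    refine le_trans (Finset.card_le_card ?_)
      (ec_tri_bound X x y r a k M d N _ hr0 hMk hMd hxN g1 tri1)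
    intro t ht
    obtain ⟨h1, h2, h3, h4⟩ := Finset.mem_filter.mp ht
    obtain ⟨m1, m2⟩ := Finset.mem_product.mp h1
    obtain ⟨m2, m3⟩ := Finset.mem_product.mp m2
    obtain ⟨c1, c2⟩ := hcinj _ m1 _ m2 h2
    obtain ⟨c3, c4⟩ := hcinj _ m2 _ m3 h3
    exact Finset.mem_filter.mpr ⟨h1, ⟨c1, c3, c2, c4⟩, h4⟩
  have hR2 : ((X ×ˢ X ×ˢ X).filter (fun t => cell t.1 = cell t.2.1 ∧ cell t.2.1 = cell t.2.2 ∧
      ¬ g2 t.1 t.2.1 ∧ ¬ g2 t.1 t.2.2 ∧ ¬ g2 t.2.1 t.2.2)).card ≤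
      8 * (r ^ l) ^ 3 * r ^ d * (2 * r ^ h) ^ 3 * (r ^ (2 * d) * (r ^ k * (r ^ k * r ^ k))) := by
    refine le_trans (Finset.card_le_card ?_)
      (ec_tri_bound X y x r a k M d N _ hr0 hMk hMd hyN g2 tri2)
    intro t ht
    obtain ⟨h1, h2, h3, h4⟩ := Finset.mem_filter.mp ht
    obtain ⟨m1, m2⟩ := Finset.mem_product.mp h1
    obtain ⟨m2, m3⟩ := Finset.mem_product.mp m2
    obtain ⟨c1, c2⟩ := hcinj _ m1 _ m2 h2
    obtain ⟨c3, c4⟩ := hcinj _ m2 _ m3 h3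
    exact Finset.mem_filter.mpr ⟨h1, ⟨c2, c4, c1, c3⟩, h4⟩
  have hram := ramsey_count X cell (r ^ (4 * d)) (2 * r ^ h * r ^ k) hcell hY g1 g2 _ _ hR1 hR2
  set S := (X ×ˢ X).filter (fun e => cell e.1 = cell e.2 ∧ g1 e.1 e.2 ∧ g2 e.1 e.2) with hSdef
  have hSm : ∀ e ∈ S, e ∈ X ×ˢ X ∧ x e.1 / r ^ M = x e.2 / r ^ M ∧
      y e.1 / r ^ M = y e.2 / r ^ M ∧ g1 e.1 e.2 ∧ g2 e.1 e.2 := by
    intro e he
    obtain ⟨h1, h2, h3⟩ := Finset.mem_filter.mp he
    obtain ⟨m1, m2⟩ := Finset.mem_product.mp h1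
    obtain ⟨c1, c2⟩ := hcinj _ m1 _ m2 h2
    exact ⟨h1, c1, c2, h3⟩
  -- the main count
  have hkey : r ^ (2 * N) ≤ 30720 * W * S.card := by
    have hX6 : (r ^ N) ^ 6 ≤ 64 * X.card ^ 6 := by
      calc (r ^ N) ^ 6 ≤ (2 * X.card) ^ 6 := Nat.pow_le_pow_left hX 6
        _ = 64 * X.card ^ 6 := by rw [mul_pow]; norm_num
    set G := S.card with hG
    set P := r ^ (23 * d + 3 * l + 6 * k + 6 * h) with hP
    have hrP : 2621440 * P ≤ r ^ (6 * N) := by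
      calc 2621440 * P ≤ r * P := Nat.mul_le_mul_right _ hr
        _ = r ^ (23 * d + 3 * l + 6 * k + 6 * h + 1) := by rw [hP, pow_succ]; ring
        _ ≤ r ^ (6 * N) := Nat.pow_le_pow_right hr0 (by omega)
    have e1 : (r ^ (4 * d)) ^ 5 * (20 * (8 * (r ^ l) ^ 3 * r ^ d * (2 * r ^ h) ^ 3 *
          (r ^ (2 * d) * (r ^ k * (r ^ k * r ^ k))) +
          8 * (r ^ l) ^ 3 * r ^ d * (2 * r ^ h) ^ 3 *
          (r ^ (2 * d) * (r ^ k * (r ^ k * r ^ k)))) * (2 * r ^ h * r ^ k) ^ 3 +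
          15 * (2 * r ^ h * r ^ k) ^ 4 * G) =
        20480 * P + 240 * (r ^ (4 * N) * W * G) := by
      have e2 : r ^ (4 * N) * W = r ^ (20 * d + 4 * k + 4 * h) := by
        rw [hWdef, ← pow_add]
        congr 1
        omega
      rw [e2, hP]
      ring
    rw [e1] at hram
    have e3 : (r ^ N) ^ 6 = r ^ (6 * N) := by rw [← pow_mul]; congr 1; ring
    rw [e3] at hX6
    have h4 : r ^ (6 * N) ≤ 30720 * (r ^ (4 * N) * W * G) := by omega
    have h5 : r ^ (4 * N) * r ^ (2 * N) ≤ r ^ (4 * N) * (30720 * W * G) := by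
      calc r ^ (4 * N) * r ^ (2 * N) = r ^ (6 * N) := by rw [← pow_add]; congr 1; ring
        _ ≤ 30720 * (r ^ (4 * N) * W * G) := h4
        _ = _ := by ring
    exact Nat.le_of_mul_le_mul_left h5 (pow_pos hr0 _)
  -- the removals
  have h16 : 16 * r ^ (N + h) ≤ S.card := by
    have h1 : 30720 * W * (16 * r ^ (N + h)) ≤ 30720 * W * S.card := by
      refine le_trans ?_ hkey
      calc 30720 * W * (16 * r ^ (N + h)) = 491520 * r ^ (4 * th + 4 * d + (N + h)) := by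
            rw [pow_add r (4 * th + 4 * d) (N + h), ← hWdef]; ring
        _ ≤ r * r ^ (4 * th + 4 * d + (N + h)) := Nat.mul_le_mul_right _ (by omega)
        _ = r ^ (4 * th + 4 * d + (N + h) + 1) := by rw [pow_succ]; ring
        _ ≤ r ^ (2 * N) := Nat.pow_le_pow_right hr0 (by omega)
    exact Nat.le_of_mul_le_mul_left h1 (by positivity)
  have hXr : 2 * r ^ h * X.card ≤ 2 * r ^ (N + h) := by
    calc 2 * r ^ h * X.card ≤ 2 * r ^ h * r ^ N := Nat.mul_le_mul_left _ hXN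
      _ = 2 * r ^ (N + h) := by rw [pow_add]; ring
  have hi : 8 * (S.filter (fun e => x e.1 / r ^ a = x e.2 / r ^ a)).card ≤ S.card := by
    have h1 : (S.filter (fun e => x e.1 / r ^ a = x e.2 / r ^ a)).card ≤ 2 * r ^ h * X.card := by
      refine le_trans (Finset.card_le_card ?_) (ec_row_bound X x y r a M (2 * r ^ h) Hx')
      intro e he
      obtain ⟨h1, h2⟩ := Finset.mem_filter.mp he
      obtain ⟨h3, -, h4, -⟩ := hSm e h1
      exact Finset.mem_filter.mpr ⟨h3, h2, h4⟩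
    omega
  have hii : 8 * (S.filter (fun e => y e.1 / r ^ a = y e.2 / r ^ a)).card ≤ S.card := by
    have h1 : (S.filter (fun e => y e.1 / r ^ a = y e.2 / r ^ a)).card ≤ 2 * r ^ h * X.card := by
      refine le_trans (Finset.card_le_card ?_) (ec_row_bound X y x r a M (2 * r ^ h) Hy')
      intro e he
      obtain ⟨h1, h2⟩ := Finset.mem_filter.mp he
      obtain ⟨h3, h4, -, -⟩ := hSm e h1
      exact Finset.mem_filter.mpr ⟨h3, h2, h4⟩
    omega
  have hpow : r ^ (2 * d) * (r ^ (k + d) * r ^ (k + d)) * r ^ (2 * a) = r ^ (2 * N) := by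
    rw [← pow_add, ← pow_add, ← pow_add]
    congr 1
    omega
  have hlight : ∀ L : ℕ, 245760 * W * L ≤ r ^ (2 * N) → 8 * L ≤ S.card := by
    intro L hL
    have h1 : 30720 * W * (8 * L) ≤ 30720 * W * S.card := by
      calc 30720 * W * (8 * L) = 245760 * W * L := by ring
        _ ≤ _ := hL.trans hkey
    exact Nat.le_of_mul_le_mul_left h1 (by positivity)
  have hiii := hlight _ ((ec_light_bound X x y r (a - d) (k + d) M d N (245760 * W) (r ^ (2 * a))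
    hr0 hMk' hMd hxN g1 S (fun e he => by
      obtain ⟨h1, h2, h3, h4, h5⟩ := hSm e he
      exact ⟨h1, h2, h3, h4⟩)).trans hpow.le)
  have hiv := hlight _ ((ec_light_bound X y x r (a - d) (k + d) M d N (245760 * W) (r ^ (2 * a))
    hr0 hMk' hMd hyN g2 S (fun e he => by
      obtain ⟨h1, h2, h3, h4, h5⟩ := hSm e he
      exact ⟨h1, h3, h2, h5⟩)).trans hpow.le)
  set Pi : α × α → Prop := fun e => x e.1 / r ^ a = x e.2 / r ^ a with hPi
  set Pii : α × α → Prop := fun e => y e.1 / r ^ a = y e.2 / r ^ a with hPii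
  set Piii : α × α → Prop := fun e => ¬ (r ^ (2 * a) ≤ 245760 * W * ((X ×ˢ X).filter (fun f =>
        x f.1 / r ^ (a - d) = x e.1 / r ^ (a - d) ∧ x f.2 / r ^ (a - d) = x e.2 / r ^ (a - d) ∧
        y f.1 / r ^ M = y f.2 / r ^ M ∧ g1 f.1 f.2)).card) with hPiii
  set Piv : α × α → Prop := fun e => ¬ (r ^ (2 * a) ≤ 245760 * W * ((X ×ˢ X).filter (fun f =>
        y f.1 / r ^ (a - d) = y e.1 / r ^ (a - d) ∧ y f.2 / r ^ (a - d) = y e.2 / r ^ (a - d) ∧
        x f.1 / r ^ M = x f.2 / r ^ M ∧ g2 f.1 f.2)).card) with hPiv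
  set E := S.filter (fun e => ¬ Pi e ∧ ¬ Pii e ∧ ¬ Piii e ∧ ¬ Piv e) with hE
  have hcov : S ⊆ E ∪ (S.filter Pi ∪ (S.filter Pii ∪ (S.filter Piii ∪ S.filter Piv))) := by
    intro e he
    simp only [Finset.mem_union]
    by_cases h1 : Pi e
    · exact Or.inr (Or.inl (Finset.mem_filter.mpr ⟨he, h1⟩))
    by_cases h2 : Pii e
    · exact Or.inr (Or.inr (Or.inl (Finset.mem_filter.mpr ⟨he, h2⟩)))
    by_cases h3 : Piii e
    · exact Or.inr (Or.inr (Or.inr (Or.inl (Finset.mem_filter.mpr ⟨he, h3⟩))))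
    by_cases h4 : Piv e
    · exact Or.inr (Or.inr (Or.inr (Or.inr (Finset.mem_filter.mpr ⟨he, h4⟩))))
    exact Or.inl (Finset.mem_filter.mpr ⟨he, h1, h2, h3, h4⟩)
  have hcard : S.card ≤ E.card + ((S.filter Pi).card + ((S.filter Pii).card +
      ((S.filter Piii).card + (S.filter Piv).card))) := by
    refine (Finset.card_le_card hcov).trans ((Finset.card_union_le _ _).trans ?_)
    refine Nat.add_le_add_left ((Finset.card_union_le _ _).trans ?_) _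
    refine Nat.add_le_add_left ((Finset.card_union_le _ _).trans ?_) _
    exact Nat.add_le_add_left (Finset.card_union_le _ _) _
  have hGE : S.card ≤ 2 * E.card := by
    have q1 : 8 * (S.filter Pi).card ≤ S.card := hi
    have q2 : 8 * (S.filter Pii).card ≤ S.card := hii
    have q3 : 8 * (S.filter Piii).card ≤ S.card := hiii
    have q4 : 8 * (S.filter Piv).card ≤ S.card := hiv
    omega
  refine ⟨E, ?_, ?_, ?_⟩
  · intro e he
    exact (hSm e (Finset.mem_filter.mp he).1).1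
  · intro e he
    obtain ⟨h1, h2, h3, h4, h5⟩ := Finset.mem_filter.mp he
    obtain ⟨m1, m2, m3, m4, m5⟩ := hSm e h1
    exact ⟨m2, m3, m4, m5, h2, h3, not_not.mp h4, not_not.mp h5⟩
  · calc r ^ (2 * N) ≤ 30720 * W * S.card := hkey
      _ ≤ 30720 * W * (2 * E.card) := Nat.mul_le_mul_left _ hGE
      _ = _ := by ring

end Pool.Agent.TwinPerm
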