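import Pool.Agent.TwinPerm.Def

set_option autoImplicit false

/-!
# Greedy: families of disjoint chains of length `L`

Proof of `greedy_exists`: take a family of pairwise disjoint `L`-chains in `A` with the maximal number `r` of members
(`r * L ≤ A.card ≤ L * q`, so `r ≤ q`), put `C i` = the `i`-th member for `i < r` and `∅` for `i ≥ r`. If the rest contained a chain `R`
with `R.card ≥ L`, a subset of `R` with `L` elements would enlarge the family.
`gfam_spec` is then immediate. `lam_chain`: two elements of the same chain.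
-/

namespace Pool.Agent.TwinPerm

open Finset

namespace GreedyAux

/-- families of disjoint chains -/
def Valid {ι : Type} (A : Finset ι) (j j' : ι → ℕ) (L : ℕ) {q : ℕ} (C : Fin q → Finset ι) : Prop :=
  (∀ i, C i ⊆ A ∧ Chain2 j j' (C i) ∧ ((C i).card = L ∨ C i = ∅)) ∧
  (∀ i i', i ≠ i' → Disjoint (C i) (C i'))

theorem sum_card {ι : Type} [DecidableEq ι] {q : ℕ} {C : Fin q → Finset ι}
    (h : ∀ i i', i ≠ i' → Disjoint (C i) (C i')) :
    (Finset.univ.biUnion C).card = ∑ i, (C i).card :=
  Finset.card_biUnion fun i _ i' _ hne => h i i' hne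

theorem sum_le {ι : Type} {A : Finset ι} {j j' : ι → ℕ} {L q : ℕ} {C : Fin q → Finset ι}
    (h : Valid A j j' L C) : ∑ i, (C i).card ≤ A.card := by
  classical
  rw [← sum_card h.2]
  refine Finset.card_le_card ?_
  intro x hx
  obtain ⟨i, _, hi⟩ := Finset.mem_biUnion.1 hx
  exact (h.1 i).1 hi

theorem chain_mono {ι : Type} {j j' : ι → ℕ} {C C' : Finset ι} (h : Chain2 j j' C)
    (hs : C' ⊆ C) : Chain2 j j' C' :=
  fun x hx y hy hne => h x (hs hx) y (hs hy) hne

end GreedyAux

open GreedyAux in
theorem greedy_exists {ι : Type} (A : Finset ι) (j j' : ι → ℕ) (L q : ℕ) (hL : 0 < L) (hq : A.card ≤ L * q) :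
    ∃ C : Fin q → Finset ι, IsGreedy A j j' L C := by
  classical
  -- a valid family with the maximal number of elements
  let P : ℕ → Prop := fun k => ∃ C : Fin q → Finset ι, Valid A j j' L C ∧ ∑ i, (C i).card = k
  have hP0 : P 0 := by
    refine ⟨fun _ => ∅, ⟨fun i => ⟨Finset.empty_subset _, ?_, Or.inr rfl⟩, fun _ _ _ => ?_⟩, ?_⟩
    · intro x hx
      exact absurd hx (Finset.notMem_empty x)
    · exact Finset.disjoint_empty_left _
    · simp
  have hspec := Nat.findGreatest_spec (P := P) (Nat.zero_le A.card) hP0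
  obtain ⟨C, hC, hk⟩ := hspec
  refine ⟨C, hC.1, hC.2, ?_⟩
  intro R hRA hRC hR
  by_contra hcon
  push Not at hcon
  obtain ⟨R', hR'R, hR'L⟩ := Finset.exists_subset_card_eq hcon
  have hdis : ∀ i, Disjoint R' (C i) := fun i => Disjoint.mono_left hR'R (hRC i)
  -- the union with R'
  have htot : ∑ i, (C i).card + L ≤ A.card := by
    rw [← sum_card hC.2, ← hR'L]
    have hd : Disjoint (Finset.univ.biUnion C) R' := by
      rw [Finset.disjoint_biUnion_left]
      exact fun i _ => (hdis i).symm
    rw [← Finset.card_union_of_disjoint hd]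
    refine Finset.card_le_card (Finset.union_subset ?_ (hR'R.trans hRA))
    intro x hx
    obtain ⟨i, _, hi⟩ := Finset.mem_biUnion.1 hx
    exact (hC.1 i).1 hi
  -- an empty member
  have hempty : ∃ i, C i = ∅ := by
    by_contra hne
    push Not at hne
    have hall : ∀ i, (C i).card = L := fun i =>
      ((hC.1 i).2.2).resolve_right (Finset.nonempty_iff_ne_empty.1 (hne i))
    have : ∑ i, (C i).card = L * q := by
      rw [Finset.sum_congr rfl fun i _ => hall i, Finset.sum_const, Finset.card_univ,
        Fintype.card_fin, smul_eq_mul, Nat.mul_comm]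
    omega
  obtain ⟨i0, hi0⟩ := hempty
  let C' : Fin q → Finset ι := Function.update C i0 R'
  have hC'i0 : C' i0 = R' := Function.update_self _ _ _
  have hC'ne : ∀ i, i ≠ i0 → C' i = C i := fun i hi => Function.update_of_ne hi _ _
  have hV : Valid A j j' L C' := by
    constructor
    · intro i
      by_cases hi : i = i0
      · subst hi
        rw [hC'i0]
        exact ⟨hR'R.trans hRA, chain_mono hR hR'R, Or.inl hR'L⟩
      · rw [hC'ne i hi]
        exact hC.1 i
    · intro i i' hne
      by_cases hi : i = i0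
      · subst hi
        rw [hC'i0, hC'ne i' (Ne.symm hne)]
        exact hdis i'
      · by_cases hi' : i' = i0
        · subst hi'
          rw [hC'i0, hC'ne i hi]
          exact (hdis i).symm
        · rw [hC'ne i hi, hC'ne i' hi']
          exact hC.2 i i' hne
  have hsum : ∑ i, (C' i).card = ∑ i, (C i).card + L := by
    rw [← Finset.add_sum_erase _ _ (Finset.mem_univ i0),
      ← Finset.add_sum_erase Finset.univ (fun i => (C i).card) (Finset.mem_univ i0), hC'i0, hR'L, hi0,
      Finset.card_empty, Nat.zero_add, Nat.add_comm]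
    congr 1
    refine Finset.sum_congr rfl fun i hi => ?_
    rw [hC'ne i (Finset.ne_of_mem_erase hi)]
  have hle := Nat.le_findGreatest (P := P) htot ⟨C', hV, hsum⟩
  rw [hk] at hle
  omega

theorem gfam_spec {ι : Type} (A : Finset ι) (j j' : ι → ℕ) (L q : ℕ) (hL : 0 < L) (hq : A.card ≤ L * q) :
    IsGreedy A j j' L (gfam A j j' L q) := by
  have h := greedy_exists A j j' L q hL hq
  unfold gfam
  rw [dif_pos h]
  exact h.choose_spec

theorem lam_chain {α : Type} (X : Finset α) (u j lab sl : α → ℕ) (D Z L q : ℕ) (hL : 0 < L) (hD : D = L * q)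
    (U U' : ℕ) (ω : Samp D Z × Fin q) (j1 j1' j2 j2' : ℕ)
    (h1 : Lam X u j lab sl D Z L q U U' ω j1 j1') (h2 : Lam X u j lab sl D Z L q U U' ω j2 j2') :
    (j1 = j2 ∧ j1' = j2') ∨ (j1 < j2 ∧ j1' < j2') ∨ (j2 < j1 ∧ j2' < j1') := by
  obtain ⟨g, hg, e1, e2⟩ := h1
  obtain ⟨g', hg', e3, e4⟩ := h2
  have hcard : (dset X u lab sl D Z U U' ω.1).card ≤ L * q := by
    calc (dset X u lab sl D Z U U' ω.1).card ≤ (Finset.univ : Finset (Fin D)).card :=
          Finset.card_le_card (Finset.subset_univ _)
      _ = L * q := by rw [Finset.card_univ, Fintype.card_fin, hD]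
  have hspec := gfam_spec (dset X u lab sl D Z U U' ω.1) (jL X u j lab sl D Z U ω.1)
    (jR X u j lab sl D Z U' ω.1) L q hL hcard
  by_cases hgg : g = g'
  · subst hgg
    exact Or.inl ⟨e1.symm.trans e3, e2.symm.trans e4⟩
  · right
    have := (hspec.1 ω.2).2.1 g hg g' hg' hgg
    rw [e1, e2, e3, e4] at this
    exact this

end Pool.Agent.TwinPerm
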