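import Pool.Agent.TwinPerm.Def

set_option autoImplicit false

/-!
# Light: counting light points, slots, the trichotomy

* `count_light`: points of `X` in a window `P / r^a = U` and in the block `(σ P) / r^h' = β`. If `h' ≤ b`, the block is contained in one block of
  height `r^b`, so there are at most `2` points (if there is one, all are in its box, and its box has at most two points). If `h' ≥ b` the block
  is the union of `r^(h'-b)` blocks of height `r^b`, each contains at most `2` points of `X` in the window.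
* `count_light'`: the same with positions and values exchanged.
* `slots`: number the elements of each class `{P ∈ X | u P = U, lab P = s}` by `0, ..., card - 1`.
* `boxCard_inv`: bijection `Q ↦ σ Q`.
* `light_or_heavy`: if both heavy sets (for `σ` with box `r^a x r^b` and for `σ` with box `r^b x r^a`, which corresponds to `σ⁻¹` via `boxCard_inv` and the bijection `σ`)
  have less than a quarter of all points, at least half of the points are light for both.
* `card_div_le`: at most `w` points have `P / w = c`, and at most `w` have `(σ P) / w = c`.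
-/

namespace Pool.Agent.TwinPerm

open Finset

/-- generic counting lemma: a set whose classes (level sets of `f`) of every fine block `g = γ` have at most two
elements; the coarse block `g / r^m` -/
private lemma count_gen {α : Type} (S : Finset α) (g : α → ℕ) (β r k : ℕ) (hr : 0 < r)
    (hS : ∀ P ∈ S, g P / r ^ k = β) (h2 : ∀ γ, (S.filter (fun P => g P = γ)).card ≤ 2) :
    S.card ≤ 2 * r ^ k := by
  classical
  have hmaps : ∀ P ∈ S, g P ∈ Finset.Ico (β * r ^ k) ((β + 1) * r ^ k) := by
    intro P hP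
    have hpos : 0 < r ^ k := pow_pos hr k
    have h := hS P hP
    rw [Finset.mem_Ico]
    constructor
    · rw [← h]
      exact Nat.div_mul_le_self _ _
    · rw [← h]
      have h2 := Nat.lt_mul_div_succ (g P) hpos
      rw [mul_comm] at h2
      exact h2
  have := Finset.card_le_mul_card_image_of_maps_to hmaps 2 (fun γ _ => h2 γ)
  rw [Nat.card_Ico] at this
  have h3 : (β + 1) * r ^ k - β * r ^ k = r ^ k := by
    rw [add_mul, one_mul, Nat.add_sub_cancel_left]
  rw [h3] at this
  exact this

theorem count_light {n : ℕ} (σ : Equiv.Perm (Fin n)) (X : Finset (Fin n)) (r a b : ℕ) (hr : 0 < r)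
    (hX : ∀ P ∈ X, boxCard σ (r ^ a) (r ^ b) P ≤ 2) (U β h' : ℕ) :
    (X.filter (fun P => P.val / r ^ a = U ∧ (σ P).val / r ^ h' = β)).card ≤ 2 * r ^ (h' - b) := by
  classical
  have key : ∀ S : Finset (Fin n), (∀ P ∈ S, P ∈ X) → (∀ P ∈ S, P.val / r ^ a = U) →
      ∀ γ, (S.filter (fun P => (σ P).val / r ^ b = γ)).card ≤ 2 := by
    intro S hSX hSU γ
    rcases (S.filter (fun P => (σ P).val / r ^ b = γ)).eq_empty_or_nonempty with he | ⟨P, hP⟩
    · rw [he]; simp
    · rw [Finset.mem_filter] at hP
      refine le_trans (Finset.card_le_card ?_) (hX P (hSX P hP.1))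
      intro Q hQ
      rw [Finset.mem_filter] at hQ ⊢
      refine ⟨Finset.mem_univ _, ?_, ?_⟩
      · rw [hSU Q hQ.1, hSU P hP.1]
      · rw [hQ.2, hP.2]
  rcases le_total h' b with hb | hb
  · have h0 : h' - b = 0 := Nat.sub_eq_zero_of_le hb
    rw [h0, pow_zero, mul_one]
    have := key (X.filter (fun P => P.val / r ^ a = U ∧ (σ P).val / r ^ h' = β))
      (fun P hP => (Finset.mem_filter.1 hP).1) (fun P hP => (Finset.mem_filter.1 hP).2.1)
      (β / r ^ (b - h'))
    refine le_trans (Finset.card_le_card ?_) this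
    intro P hP
    rw [Finset.mem_filter]
    refine ⟨hP, ?_⟩
    have h2 := (Finset.mem_filter.1 hP).2.2
    rw [← h2, Nat.div_div_eq_div_mul, ← pow_add, Nat.add_sub_cancel' hb]
  · refine count_gen _ (fun P => (σ P).val / r ^ b) β r (h' - b) hr ?_ ?_
    · intro P hP
      have h2 := (Finset.mem_filter.1 hP).2.2
      show (σ P).val / r ^ b / r ^ (h' - b) = β
      rw [Nat.div_div_eq_div_mul, ← pow_add, Nat.add_sub_cancel' hb, h2]
    · exact key _ (fun P hP => (Finset.mem_filter.1 hP).1) (fun P hP => (Finset.mem_filter.1 hP).2.1)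

theorem count_light' {n : ℕ} (σ : Equiv.Perm (Fin n)) (X : Finset (Fin n)) (r a b : ℕ) (hr : 0 < r)
    (hX : ∀ P ∈ X, boxCard σ (r ^ b) (r ^ a) P ≤ 2) (V β h' : ℕ) :
    (X.filter (fun P => (σ P).val / r ^ a = V ∧ P.val / r ^ h' = β)).card ≤ 2 * r ^ (h' - b) := by
  classical
  have key : ∀ S : Finset (Fin n), (∀ P ∈ S, P ∈ X) → (∀ P ∈ S, (σ P).val / r ^ a = V) →
      ∀ γ, (S.filter (fun P => P.val / r ^ b = γ)).card ≤ 2 := by
    intro S hSX hSU γ
    rcases (S.filter (fun P => P.val / r ^ b = γ)).eq_empty_or_nonempty with he | ⟨P, hP⟩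
    · rw [he]; simp
    · rw [Finset.mem_filter] at hP
      refine le_trans (Finset.card_le_card ?_) (hX P (hSX P hP.1))
      intro Q hQ
      rw [Finset.mem_filter] at hQ ⊢
      refine ⟨Finset.mem_univ _, ?_, ?_⟩
      · rw [hQ.2, hP.2]
      · rw [hSU Q hQ.1, hSU P hP.1]
  rcases le_total h' b with hb | hb
  · have h0 : h' - b = 0 := Nat.sub_eq_zero_of_le hb
    rw [h0, pow_zero, mul_one]
    have := key (X.filter (fun P => (σ P).val / r ^ a = V ∧ P.val / r ^ h' = β))
      (fun P hP => (Finset.mem_filter.1 hP).1) (fun P hP => (Finset.mem_filter.1 hP).2.1)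
      (β / r ^ (b - h'))
    refine le_trans (Finset.card_le_card ?_) this
    intro P hP
    rw [Finset.mem_filter]
    refine ⟨hP, ?_⟩
    have h2 := (Finset.mem_filter.1 hP).2.2
    rw [← h2, Nat.div_div_eq_div_mul, ← pow_add, Nat.add_sub_cancel' hb]
  · refine count_gen _ (fun P => P.val / r ^ b) β r (h' - b) hr ?_ ?_
    · intro P hP
      have h2 := (Finset.mem_filter.1 hP).2.2
      show P.val / r ^ b / r ^ (h' - b) = β
      rw [Nat.div_div_eq_div_mul, ← pow_add, Nat.add_sub_cancel' hb, h2]
    · exact key _ (fun P hP => (Finset.mem_filter.1 hP).1) (fun P hP => (Finset.mem_filter.1 hP).2.1)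

theorem slots {α : Type} (X : Finset α) (u lab : α → ℕ) (Z : ℕ)
    (h : ∀ U s, (X.filter (fun P => u P = U ∧ lab P = s)).card ≤ Z) :
    ∃ sl : α → ℕ, (∀ P ∈ X, sl P < Z) ∧
      ∀ P ∈ X, ∀ Q ∈ X, u P = u Q → lab P = lab Q → sl P = sl Q → P = Q := by
  classical
  refine ⟨fun P => if hP : P ∈ X then
    ((X.filter (fun Q => u Q = u P ∧ lab Q = lab P)).equivFin
      ⟨P, Finset.mem_filter.2 ⟨hP, rfl, rfl⟩⟩).val else 0, ?_, ?_⟩
  · intro P hP
    simp only [hP, dif_pos]
    exact lt_of_lt_of_le (Fin.is_lt _) (h _ _)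
  · intro P hP Q hQ hu hl hs
    simp only [hP, hQ, dif_pos] at hs
    have gen : ∀ (U U' s s' : ℕ) (hU : U = U') (hs' : s = s')
        (hPm : P ∈ X.filter (fun R => u R = U ∧ lab R = s))
        (hQm : Q ∈ X.filter (fun R => u R = U' ∧ lab R = s')),
        (((X.filter (fun R => u R = U ∧ lab R = s)).equivFin ⟨P, hPm⟩).val =
          ((X.filter (fun R => u R = U' ∧ lab R = s')).equivFin ⟨Q, hQm⟩).val) → P = Q := by
      intro U U' s s' hU hs' hPm hQm he
      subst hU
      subst hs'
      have h1 := Fin.ext he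
      have h2 := (Finset.equivFin _).injective h1
      exact congrArg Subtype.val h2
    exact gen _ _ _ _ hu hl _ _ hs

private lemma inv_ap {n : ℕ} (σ : Equiv.Perm (Fin n)) (P : Fin n) : σ⁻¹ (σ P) = P := σ.symm_apply_apply P

private lemma ap_inv {n : ℕ} (σ : Equiv.Perm (Fin n)) (P : Fin n) : σ (σ⁻¹ P) = P := σ.apply_symm_apply P

theorem boxCard_inv {n : ℕ} (σ : Equiv.Perm (Fin n)) (W H : ℕ) (P : Fin n) :
    boxCard σ W H P = boxCard σ⁻¹ H W (σ P) := by
  classical
  unfold boxCard
  refine Finset.card_bij (fun Q _ => σ Q) ?_ ?_ ?_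
  · intro Q hQ
    rw [Finset.mem_filter] at hQ ⊢
    refine ⟨Finset.mem_univ _, hQ.2.2, ?_⟩
    rw [inv_ap σ Q, inv_ap σ P]
    exact hQ.2.1
  · intro Q _ Q' _ h
    exact σ.injective h
  · intro R hR
    rw [Finset.mem_filter] at hR
    refine ⟨σ⁻¹ R, ?_, ?_⟩
    · rw [Finset.mem_filter]
      refine ⟨Finset.mem_univ _, ?_, ?_⟩
      · have := hR.2.2
        rw [inv_ap σ P] at this
        exact this
      · rw [ap_inv σ R]
        exact hR.2.1
    · exact ap_inv σ R

theorem light_or_heavy {n : ℕ} (σ : Equiv.Perm (Fin n)) (W H : ℕ) :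
    n ≤ 4 * (univ.filter (fun P : Fin n => 3 ≤ boxCard σ W H P)).card ∨
    n ≤ 4 * (univ.filter (fun P : Fin n => 3 ≤ boxCard σ⁻¹ W H P)).card ∨
    n ≤ 2 * (univ.filter (fun P : Fin n => boxCard σ W H P ≤ 2 ∧ boxCard σ H W P ≤ 2)).card := by
  classical
  have h1 : (univ.filter (fun P : Fin n => 3 ≤ boxCard σ⁻¹ W H P)).card =
      (univ.filter (fun P : Fin n => 3 ≤ boxCard σ H W P)).card := by
    symm
    refine Finset.card_bij (fun Q _ => σ Q) ?_ ?_ ?_
    · intro Q hQ
      rw [Finset.mem_filter] at hQ ⊢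
      refine ⟨Finset.mem_univ _, ?_⟩
      rw [← boxCard_inv]
      exact hQ.2
    · intro Q _ Q' _ h
      exact σ.injective h
    · intro R hR
      rw [Finset.mem_filter] at hR
      refine ⟨σ⁻¹ R, ?_, ?_⟩
      · rw [Finset.mem_filter]
        refine ⟨Finset.mem_univ _, ?_⟩
        rw [boxCard_inv, ap_inv σ R]
        exact hR.2
      · exact ap_inv σ R
  rw [h1]
  have h2 : (univ : Finset (Fin n)) ⊆
      (univ.filter (fun P : Fin n => 3 ≤ boxCard σ W H P)) ∪
      ((univ.filter (fun P : Fin n => 3 ≤ boxCard σ H W P)) ∪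
      (univ.filter (fun P : Fin n => boxCard σ W H P ≤ 2 ∧ boxCard σ H W P ≤ 2))) := by
    intro P _
    simp only [Finset.mem_union, Finset.mem_filter, Finset.mem_univ, true_and]
    omega
  have h3 := Finset.card_le_card h2
  have h4 := Finset.card_union_le (univ.filter (fun P : Fin n => 3 ≤ boxCard σ W H P))
    ((univ.filter (fun P : Fin n => 3 ≤ boxCard σ H W P)) ∪
      (univ.filter (fun P : Fin n => boxCard σ W H P ≤ 2 ∧ boxCard σ H W P ≤ 2)))
  have h5 := Finset.card_union_le (univ.filter (fun P : Fin n => 3 ≤ boxCard σ H W P))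
      (univ.filter (fun P : Fin n => boxCard σ W H P ≤ 2 ∧ boxCard σ H W P ≤ 2))
  rw [Finset.card_univ, Fintype.card_fin] at h3
  omega

theorem card_div_le {n : ℕ} (σ : Equiv.Perm (Fin n)) (w c : ℕ) (hw : 0 < w) :
    (univ.filter (fun P : Fin n => P.val / w = c)).card ≤ w ∧
    (univ.filter (fun P : Fin n => (σ P).val / w = c)).card ≤ w := by
  classical
  have gen : ∀ f : Fin n → ℕ, Function.Injective f →
      (univ.filter (fun P : Fin n => f P / w = c)).card ≤ w := by
    intro f hf
    have h1 : (univ.filter (fun P : Fin n => f P / w = c)).card ≤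
        (Finset.Ico (c * w) ((c + 1) * w)).card := by
      refine Finset.card_le_card_of_injOn f ?_ (hf.injOn)
      intro P hP
      have hP' : f P / w = c := by
        have := Finset.mem_coe.1 hP
        exact (Finset.mem_filter.1 this).2
      rw [Finset.mem_coe, Finset.mem_Ico, ← hP']
      refine ⟨Nat.div_mul_le_self _ _, ?_⟩
      have := Nat.lt_mul_div_succ (f P) hw
      rw [mul_comm] at this
      exact this
    rw [Nat.card_Ico] at h1
    have h3 : (c + 1) * w - c * w = w := by
      rw [add_mul, one_mul, Nat.add_sub_cancel_left]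
    rw [h3] at h1
    exact h1
  refine ⟨gen (fun P => P.val) Fin.val_injective, gen (fun P => (σ P).val) ?_⟩
  intro P Q h
  exact σ.injective (Fin.ext h)

end Pool.Agent.TwinPerm
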