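import Pool.Agent.TwinPerm.Def

set_option autoImplicit false

/-!
# TwinSet: twins as sets of pairs, inverse permutation, restriction to a prefix

* `hasTwin_of_twinSet`: order the set `T` by the first component (injective on `T` by the second condition of
  `IsTwinSet` and linearity: `e.1 = e'.1` iff `e.2 = e'.2`), `f` = first components, `g` = second components
  (`Finset.orderEmbOfFin` of the image).
* `twinSet_inv`: image of `T` under `(P, Q) ↦ (σ⁻¹ P, σ⁻¹ Q)`.
* `hasTwin_restrict`: `σ'` = standardisation of the first `m` values (the unique permutation with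
  `σ' i < σ' j ↔ σ (castLE i) < σ (castLE j)`), compose the embeddings with `Fin.castLEOrderEmb`.
-/

namespace Pool.Agent.TwinPerm

open Finset

theorem hasTwin_of_twinSet {n : ℕ} (σ : Equiv.Perm (Fin n)) (T : Finset (Fin n × Fin n)) (h : IsTwinSet σ T) :
    HasTwin σ T.card := by
  classical
  obtain ⟨h1, h2, h3⟩ := h
  have heq : ∀ e ∈ T, ∀ e' ∈ T, e.1 = e'.1 → e.2 = e'.2 := by
    intro e he e' he' h
    have ha := h2 e he e' he'
    have hb := h2 e' he' e he
    rw [h] at ha hb
    have ha' : ¬ e.2 < e'.2 := fun hlt => lt_irrefl _ (ha.mpr hlt)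
    have hb' : ¬ e'.2 < e.2 := fun hlt => lt_irrefl _ (hb.mpr hlt)
    exact le_antisymm (not_lt.mp hb') (not_lt.mp ha')
  have hcard : (T.image Prod.fst).card = T.card := by
    apply Finset.card_image_of_injOn
    intro e he e' he' h
    exact Prod.ext h (heq e he e' he' h)
  have hmem : ∀ i, ∃ e ∈ T, e.1 = (T.image Prod.fst).orderEmbOfFin hcard i := by
    intro i
    have := Finset.orderEmbOfFin_mem (T.image Prod.fst) hcard i
    rw [Finset.mem_image] at this
    exact this
  choose e heT hef using hmem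
  refine ⟨(T.image Prod.fst).orderEmbOfFin hcard,
    OrderEmbedding.ofStrictMono (fun i => (e i).2) ?_, ?_, ?_⟩
  · intro i j hij
    have : (e i).1 < (e j).1 := by
      rw [hef i, hef j]
      exact ((T.image Prod.fst).orderEmbOfFin hcard).strictMono hij
    exact (h2 _ (heT i) _ (heT j)).mp this
  · intro i j
    rw [← hef i]
    exact h1 _ (heT i) _ (heT j)
  · intro i j
    rw [← hef i, ← hef j]
    exact h3 _ (heT i) _ (heT j)

theorem twinSet_inv {n : ℕ} (σ : Equiv.Perm (Fin n)) (T : Finset (Fin n × Fin n)) (h : IsTwinSet σ⁻¹ T) :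
    ∃ T' : Finset (Fin n × Fin n), IsTwinSet σ T' ∧ T'.card = T.card := by
  classical
  obtain ⟨h1, h2, h3⟩ := h
  refine ⟨T.image (fun e => (σ⁻¹ e.1, σ⁻¹ e.2)), ⟨?_, ?_, ?_⟩, ?_⟩
  · intro a ha b hb
    obtain ⟨e, he, rfl⟩ := Finset.mem_image.mp ha
    obtain ⟨e', he', rfl⟩ := Finset.mem_image.mp hb
    intro h
    exact h1 e he e' he' ((σ⁻¹).injective h)
  · intro a ha b hb
    obtain ⟨e, he, rfl⟩ := Finset.mem_image.mp ha
    obtain ⟨e', he', rfl⟩ := Finset.mem_image.mp hb
    exact h3 e he e' he'
  · intro a ha b hb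
    obtain ⟨e, he, rfl⟩ := Finset.mem_image.mp ha
    obtain ⟨e', he', rfl⟩ := Finset.mem_image.mp hb
    simpa using h2 e he e' he'
  · apply Finset.card_image_of_injective
    intro a b h
    have ha := (σ⁻¹).injective (congrArg Prod.fst h)
    have hb := (σ⁻¹).injective (congrArg Prod.snd h)
    exact Prod.ext ha hb

theorem hasTwin_restrict {m n : ℕ} (hmn : m ≤ n) (σ : Equiv.Perm (Fin n)) :
    ∃ σ' : Equiv.Perm (Fin m), ∀ k, HasTwin σ' k → HasTwin σ k := by
  classical
  have hinj : Function.Injective (fun i : Fin m => σ (Fin.castLE hmn i)) := by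
    intro i j h
    exact Fin.castLE_injective hmn (σ.injective h)
  have hcard : (Finset.univ.image (fun i : Fin m => σ (Fin.castLE hmn i))).card = m := by
    rw [Finset.card_image_of_injective _ hinj, Finset.card_univ, Fintype.card_fin]
  have hmem : ∀ i : Fin m, σ (Fin.castLE hmn i) ∈ Finset.univ.image (fun i : Fin m => σ (Fin.castLE hmn i)) :=
    fun i => Finset.mem_image_of_mem _ (Finset.mem_univ i)
  let r := (Finset.univ.image (fun i : Fin m => σ (Fin.castLE hmn i))).orderIsoOfFin hcard
  let s : Fin m → Fin m := fun i => r.symm ⟨σ (Fin.castLE hmn i), hmem i⟩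
  have hs : ∀ i j, s i < s j ↔ σ (Fin.castLE hmn i) < σ (Fin.castLE hmn j) := by
    intro i j
    exact r.symm.lt_iff_lt
  have hsinj : Function.Injective s := by
    intro i j h
    have h' := r.symm.injective h
    exact hinj (congrArg Subtype.val h')
  refine ⟨Equiv.ofBijective s (Finite.injective_iff_bijective.mp hsinj), ?_⟩
  rintro k ⟨f, g, hd, ho⟩
  refine ⟨f.trans (Fin.castLEOrderEmb hmn), g.trans (Fin.castLEOrderEmb hmn), ?_, ?_⟩
  · intro i j h
    exact hd i j (Fin.castLE_injective hmn h)
  · intro i j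
    have := ho i j
    have h1 : s (f i) < s (f j) ↔ s (g i) < s (g j) := this
    rw [hs, hs] at h1
    exact h1

end Pool.Agent.TwinPerm
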