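import Pool.Agent.TwinPerm.Scheme
import Pool.Agent.TwinPerm.BR
import Pool.Agent.TwinPerm.TwinSet

set_option autoImplicit false

/-!
# Main: `t(n) ≥ c n^(3/5 + 1/5000)`
-/

namespace Pool.Agent.TwinPerm

open Finset

/-- the two cases for permutations of size `r^N` -/
theorem main_r (a b th d l k h N g c0 e0 : ℕ) (hN : N = a + b + th) (hk : k + 2 * d = b + th)
    (hh : h + 2 * d = a + th) (hda : d ≤ a) (hld : l ≤ d) (hd : 6 * th + 3 * l + 1 ≤ d)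
    (hb : 2 * d + 4 * th + 1 ≤ b)
    (hg : g + 2 * b = 2 * a + k + 1) (hth : 1 ≤ th) (hab : a ≤ b) (hk1 : 1 ≤ k)
    (hfin : b + 5 * th + 4 * d ≤ l + 2 * a) (hbc : b = 3 * c0) (hc0 : 1 ≤ c0) (hac : 2 * c0 ≤ a)
    (he1 : e0 + (11 * th + 1) ≤ l + b) (he2 : e0 + (a + 1) ≤ N) :
    ∃ C : ℝ, 0 < C ∧ ∀ r : ℕ, 2621440 ≤ r → ∀ σ : Equiv.Perm (Fin (r ^ N)),
      ∃ K : ℕ, HasTwin σ K ∧ (r : ℝ) ^ e0 ≤ C * K := by
  refine ⟨61847529062400 * k * 4 ^ k + 48 * c0, by positivity, ?_⟩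
  intro r hr σ
  have hr0 : 0 < r := by omega
  have hrR : (1 : ℝ) ≤ r := by exact_mod_cast (show 1 ≤ r by omega)
  -- conclusion of the heavy case
  have heavy : ∀ τ : Equiv.Perm (Fin (r ^ N)),
      r ^ N ≤ 4 * (univ.filter (fun P : Fin (r ^ N) => 3 ≤ boxCard τ (r ^ a) (r ^ b) P)).card →
      ∃ T : Finset (Fin (r ^ N) × Fin (r ^ N)), IsTwinSet τ T ∧ (r : ℝ) ^ e0 ≤ (48 * c0) * T.card := by
    intro τ hτ
    rw [hbc] at hτ
    obtain ⟨T, hT1, hT2⟩ := br_heavy r a c0 N (by omega) hc0 (by omega) τ hτ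
    refine ⟨T, hT1, ?_⟩
    have h1 : r ^ N ≤ 48 * c0 * r ^ (a + 1) * T.card := by
      refine hT2.trans ?_
      apply Nat.mul_le_mul_right
      have h2 : r ^ (2 * c0) ≤ r ^ a := Nat.pow_le_pow_right hr0 hac
      calc 24 * c0 * r * (r ^ a + r ^ (2 * c0)) ≤ 24 * c0 * r * (r ^ a + r ^ a) :=
            Nat.mul_le_mul_left _ (Nat.add_le_add_left h2 _)
        _ = 48 * c0 * r ^ (a + 1) := by rw [pow_succ]; ring
    have h3 : r ^ e0 * r ^ (a + 1) ≤ (48 * c0 * T.card) * r ^ (a + 1) := by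
      calc r ^ e0 * r ^ (a + 1) = r ^ (e0 + (a + 1)) := (pow_add _ _ _).symm
        _ ≤ r ^ N := Nat.pow_le_pow_right hr0 he2
        _ ≤ 48 * c0 * r ^ (a + 1) * T.card := h1
        _ = (48 * c0 * T.card) * r ^ (a + 1) := by ring
    have h4 := Nat.le_of_mul_le_mul_right h3 (pow_pos hr0 _)
    exact_mod_cast h4
  have hC1 : (48 * c0 : ℝ) ≤ 61847529062400 * k * 4 ^ k + 48 * c0 := by
    have : (0 : ℝ) ≤ 61847529062400 * k * 4 ^ k := by positivity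
    linarith
  have hC2 : (61847529062400 * k * 4 ^ k : ℝ) ≤ 61847529062400 * k * 4 ^ k + 48 * c0 := by
    have : (0 : ℝ) ≤ 48 * c0 := by positivity
    linarith
  rcases light_or_heavy σ (r ^ a) (r ^ b) with hx | hx | hx
  · obtain ⟨T, hT1, hT2⟩ := heavy σ hx
    exact ⟨T.card, hasTwin_of_twinSet σ T hT1, hT2.trans (mul_le_mul_of_nonneg_right hC1 (Nat.cast_nonneg _))⟩
  · obtain ⟨T, hT1, hT2⟩ := heavy σ⁻¹ hx
    obtain ⟨T', hT3, hT4⟩ := twinSet_inv σ T hT1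
    refine ⟨T'.card, hasTwin_of_twinSet σ T' hT3, ?_⟩
    rw [hT4]
    exact hT2.trans (mul_le_mul_of_nonneg_right hC1 (Nat.cast_nonneg _))
  · obtain ⟨T, hT1, hT2⟩ := scheme a b th d l k h N g hN hk hh hda hld hd hb hg hth hab hk1 hfin r hr σ hx
    refine ⟨T.card, hasTwin_of_twinSet σ T hT1, ?_⟩
    have h3 : (r : ℝ) ^ e0 * (r : ℝ) ^ (11 * th + 1) ≤
        (61847529062400 * k * 4 ^ k * T.card) * (r : ℝ) ^ (11 * th + 1) := by
      calc (r : ℝ) ^ e0 * (r : ℝ) ^ (11 * th + 1) = (r : ℝ) ^ (e0 + (11 * th + 1)) := (pow_add _ _ _).symm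
        _ ≤ (r : ℝ) ^ (l + b) := pow_le_pow_right₀ hrR he1
        _ ≤ _ := hT2
        _ = _ := by ring
    have h4 := le_of_mul_le_mul_right h3 (by positivity)
    exact h4.trans (mul_le_mul_of_nonneg_right hC2 (Nat.cast_nonneg _))

/-- `r = ⌊n^(1/N)⌋` -/
theorem exists_root (N : ℕ) (hN : 1 ≤ N) (n : ℕ) (hn : 1 ≤ n) : ∃ r : ℕ, 1 ≤ r ∧ r ^ N ≤ n ∧ n < (2 * r) ^ N := by
  classical
  have hex : ∃ r : ℕ, n < (r + 1) ^ N := by
    refine ⟨n, ?_⟩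
    calc n < n + 1 := Nat.lt_succ_self n
      _ = (n + 1) ^ 1 := (pow_one _).symm
      _ ≤ (n + 1) ^ N := Nat.pow_le_pow_right (by omega) hN
  set r := Nat.find hex with hr
  have h1 : n < (r + 1) ^ N := Nat.find_spec hex
  have hr1 : 1 ≤ r := by
    by_contra hcon
    have : r = 0 := by omega
    rw [this] at h1
    simp at h1
    omega
  refine ⟨r, hr1, ?_, ?_⟩
  · by_contra hcon
    push Not at hcon
    have := Nat.find_min hex (m := r - 1) (by omega)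
    apply this
    rw [Nat.sub_add_cancel hr1]
    exact hcon
  · refine lt_of_lt_of_le h1 (Nat.pow_le_pow_left (by omega) N)

theorem main_n (a b th d l k h N g c0 e0 : ℕ) (hN : N = a + b + th) (hk : k + 2 * d = b + th)
    (hh : h + 2 * d = a + th) (hda : d ≤ a) (hld : l ≤ d) (hd : 6 * th + 3 * l + 1 ≤ d)
    (hb : 2 * d + 4 * th + 1 ≤ b)
    (hg : g + 2 * b = 2 * a + k + 1) (hth : 1 ≤ th) (hab : a ≤ b) (hk1 : 1 ≤ k)
    (hfin : b + 5 * th + 4 * d ≤ l + 2 * a) (hbc : b = 3 * c0) (hc0 : 1 ≤ c0) (hac : 2 * c0 ≤ a)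
    (he1 : e0 + (11 * th + 1) ≤ l + b) (he2 : e0 + (a + 1) ≤ N) :
    ∃ c : ℝ, 0 < c ∧ ∃ n0 : ℕ, ∀ n : ℕ, n0 ≤ n → ∀ σ : Equiv.Perm (Fin n),
      ∃ K : ℕ, c * (n : ℝ) ^ ((e0 : ℝ) / (N : ℝ)) ≤ (K : ℝ) ∧ HasTwin σ K := by
  obtain ⟨C, hC, hmain⟩ := main_r a b th d l k h N g c0 e0 hN hk hh hda hld hd hb hg hth hab hk1 hfin hbc hc0 hac
    he1 he2
  have hN1 : 1 ≤ N := by omega
  have hN0 : (0 : ℝ) < N := by exact_mod_cast hN1
  refine ⟨(C * 2 ^ e0)⁻¹, by positivity, (2 * 2621440) ^ N, ?_⟩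
  intro n hn σ
  have hn1 : 1 ≤ n := le_trans (Nat.one_le_pow _ _ (by norm_num)) hn
  obtain ⟨r, hr1, hr2, hr3⟩ := exists_root N hN1 n hn1
  have hr4 : 2621440 ≤ r := by
    by_contra hcon
    push Not at hcon
    have h1 : (2 * r) ^ N ≤ (2 * 2621440) ^ N := Nat.pow_le_pow_left (by omega) N
    omega
  obtain ⟨σ', hσ'⟩ := hasTwin_restrict hr2 σ
  obtain ⟨K, hK1, hK2⟩ := hmain r hr4 σ'
  refine ⟨K, ?_, hσ' K hK1⟩
  have hx : (n : ℝ) ≤ (2 * (r : ℝ)) ^ N := by exact_mod_cast hr3.le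
  have h2 : (n : ℝ) ^ ((e0 : ℝ) / (N : ℝ)) ≤ (2 * (r : ℝ)) ^ e0 := by
    calc (n : ℝ) ^ ((e0 : ℝ) / (N : ℝ)) ≤ ((2 * (r : ℝ)) ^ N) ^ ((e0 : ℝ) / (N : ℝ)) :=
          Real.rpow_le_rpow (Nat.cast_nonneg _) hx (by positivity)
      _ = (2 * (r : ℝ)) ^ e0 := by
          rw [← Real.rpow_natCast (2 * (r : ℝ)) N, ← Real.rpow_mul (by positivity), mul_div_cancel₀ _ (ne_of_gt hN0),
            Real.rpow_natCast]
  have h3 : (2 * (r : ℝ)) ^ e0 ≤ (C * 2 ^ e0) * K := by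
    rw [mul_pow]
    calc (2 : ℝ) ^ e0 * (r : ℝ) ^ e0 ≤ 2 ^ e0 * (C * K) := mul_le_mul_of_nonneg_left hK2 (by positivity)
      _ = _ := by ring
  have hCp : 0 < C * 2 ^ e0 := by positivity
  calc (C * 2 ^ e0)⁻¹ * (n : ℝ) ^ ((e0 : ℝ) / (N : ℝ)) ≤ (C * 2 ^ e0)⁻¹ * ((C * 2 ^ e0) * K) :=
        mul_le_mul_of_nonneg_left (h2.trans h3) (by positivity)
    _ = K := by
        rw [← mul_assoc, inv_mul_cancel₀ (ne_of_gt hCp), one_mul]

theorem main : ∃ c : ℝ, 0 < c ∧ ∃ N : ℕ, ∀ n : ℕ, N ≤ n → ∀ σ : Equiv.Perm (Fin n),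
      ∃ k : ℕ, c * (n : ℝ) ^ ((3 : ℝ) / 5 + 1 / 5000) ≤ (k : ℝ) ∧
        ∃ f g : Fin k ↪o Fin n, (∀ i j, f i ≠ g j) ∧
          ∀ i j, (σ (f i) < σ (f j) ↔ σ (g i) < σ (g j)) := by
  have hmain := main_n 1998 2997 5 211 60 2580 1581 5000 583 999 3001 (by norm_num) (by norm_num) (by norm_num)
    (by norm_num) (by norm_num) (by norm_num) (by norm_num) (by norm_num) (by norm_num) (by norm_num) (by norm_num)
    (by norm_num) (by norm_num) (by norm_num) (by norm_num) (by norm_num) (by norm_num)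
  have he : ((3 : ℝ) / 5 + 1 / 5000) = ((3001 : ℕ) : ℝ) / ((5000 : ℕ) : ℝ) := by norm_num
  rw [he]
  exact hmain

end Pool.Agent.TwinPerm
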