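import Pool.Agent.TwinPerm.Def

set_option autoImplicit false

/-!
# Num: real inequalities used in `Scheme`
-/

namespace Pool.Agent.TwinPerm

open Finset

theorem pr_nonneg (Ω : Type) [Fintype Ω] (p : Ω → Prop) : 0 ≤ pr Ω p := by
  unfold pr; positivity

theorem pr_mono (Ω : Type) [Fintype Ω] (p q : Ω → Prop) (h : ∀ ω, p ω → q ω) : pr Ω p ≤ pr Ω q := by
  classical
  unfold pr
  apply div_le_div_of_nonneg_right _ (by positivity)
  have : (univ.filter p).card ≤ (univ.filter q).card :=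
    card_le_card (fun ω hω => by simp only [mem_filter, mem_univ, true_and] at hω ⊢; exact h ω hω)
  exact_mod_cast this

theorem pr_ne_zero (Ω : Type) [Fintype Ω] (p : Ω → Prop) (h : pr Ω p ≠ 0) : ∃ ω, p ω := by
  classical
  by_contra hcon
  push Not at hcon
  apply h
  unfold pr
  have : univ.filter p = ∅ := by
    ext ω; simp [hcon ω]
  rw [this]; simp

theorem sum_bound (a b k g : ℕ) (R : ℝ) (hR : 1 ≤ R) (hg : g + 2 * b = 2 * a + k + 1) :
    ∑ i ∈ range k, 4 * (R ^ (a + i + 1 - b)) ^ 2 / R ^ i ≤ 4 * k * R ^ g := by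
  have hR0 : 0 < R := by linarith
  calc ∑ i ∈ range k, 4 * (R ^ (a + i + 1 - b)) ^ 2 / R ^ i ≤ ∑ i ∈ range k, 4 * R ^ g := by
        apply sum_le_sum
        intro i hi
        rw [mem_range] at hi
        rw [div_le_iff₀ (by positivity)]
        have h1 : (R ^ (a + i + 1 - b)) ^ 2 ≤ R ^ g * R ^ i := by
          rw [← pow_mul, ← pow_add]
          apply pow_le_pow_right₀ hR
          omega
        nlinarith
    _ = 4 * k * R ^ g := by simp; ring

/-- the numerical part of the degree condition -/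
theorem num_HL (a b th d l k h g : ℕ) (hk : k + 2 * d = b + th) (hh : h + 2 * d = a + th)
    (hg : g + 2 * b = 2 * a + k + 1) (hk1 : 1 ≤ k) (R : ℝ) (hR : 1 ≤ R) (φ X0 Y0 nc p Sg : ℝ) (hφ : 0 < φ) (hX0 : 0 < X0) (hY0 : 0 < Y0)
    (hnc : 0 ≤ nc) (hSg : Sg ≤ 4 * k * R ^ g)
    (hp : p = R ^ (l + b) / (R ^ (2 * a + 7 * th + 1) * 251658240 * k))
    (hA : R ^ l / (4 * (R ^ d) ^ 2 * (2 * R ^ h) ^ 2) * nc ≤ X0)
    (hB : R ^ (2 * a) ≤ 245760 * R ^ (4 * th + 4 * d) * nc)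
    (hC : 24 * p ≤ X0 * Y0) :
    φ * (3 / Y0 + Sg + nc / R ^ k) ≤ φ * X0 / (4 * p) := by
  have hR0 : 0 < R := by linarith
  have hkr : (1 : ℝ) ≤ k := by exact_mod_cast hk1
  have hp0 : 0 < p := by rw [hp]; positivity
  -- part 1
  have h1 : 3 / Y0 ≤ X0 / (8 * p) := by
    rw [div_le_div_iff₀ hY0 (by positivity)]
    linarith
  -- part 2
  have h2 : Sg + nc / R ^ k ≤ 2 * 983040 * k * R ^ (6 * th + 1) * nc / R ^ k := by
    have hS2 : Sg ≤ 983040 * k * R ^ (6 * th + 1) * nc / R ^ k := by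
      refine hSg.trans ?_
      rw [le_div_iff₀ (by positivity)]
      -- 4 k R^g R^k ≤ 983040 k R^(6th+1) nc
      have e1 : R ^ g * R ^ k * R ^ (2 * b) * R ^ (2 * d * 2) = R ^ (2 * a) * R ^ (2 * b) * R ^ (2 * th + 1) := by
        rw [← pow_add, ← pow_add, ← pow_add, ← pow_add, ← pow_add]
        congr 1
        omega
      have e2 : R ^ g * R ^ k * R ^ (4 * d) = R ^ (2 * a) * R ^ (2 * th + 1) := by
        have hb0 : (0 : ℝ) < R ^ (2 * b) := by positivity
        have : R ^ (2 * d * 2) = R ^ (4 * d) := by congr 1; ring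
        rw [this] at e1
        have := mul_right_cancel₀ (ne_of_gt hb0) (show (R ^ g * R ^ k * R ^ (4 * d)) * R ^ (2 * b) =
          (R ^ (2 * a) * R ^ (2 * th + 1)) * R ^ (2 * b) by linarith [e1])
        exact this
      have e3 : R ^ (2 * a) * R ^ (2 * th + 1) ≤ 245760 * R ^ (4 * th + 4 * d) * nc * R ^ (2 * th + 1) :=
        mul_le_mul_of_nonneg_right hB (by positivity)
      have e4 : R ^ (4 * th + 4 * d) * R ^ (2 * th + 1) = R ^ (6 * th + 1) * R ^ (4 * d) := by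
        rw [← pow_add, ← pow_add]; congr 1; omega
      have e5 : R ^ g * R ^ k * R ^ (4 * d) ≤ 245760 * R ^ (6 * th + 1) * nc * R ^ (4 * d) := by
        rw [e2]
        calc R ^ (2 * a) * R ^ (2 * th + 1) ≤ 245760 * R ^ (4 * th + 4 * d) * nc * R ^ (2 * th + 1) := e3
          _ = 245760 * nc * (R ^ (4 * th + 4 * d) * R ^ (2 * th + 1)) := by ring
          _ = 245760 * R ^ (6 * th + 1) * nc * R ^ (4 * d) := by rw [e4]; ring
      have e6 : R ^ g * R ^ k ≤ 245760 * R ^ (6 * th + 1) * nc := le_of_mul_le_mul_right e5 (by positivity)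
      calc 4 * (k : ℝ) * R ^ g * R ^ k = 4 * k * (R ^ g * R ^ k) := by ring
        _ ≤ 4 * k * (245760 * R ^ (6 * th + 1) * nc) := by
            apply mul_le_mul_of_nonneg_left e6 (by positivity)
        _ = 983040 * k * R ^ (6 * th + 1) * nc := by ring
    have hS3 : nc / R ^ k ≤ 983040 * k * R ^ (6 * th + 1) * nc / R ^ k := by
      apply div_le_div_of_nonneg_right _ (by positivity)
      have : (1 : ℝ) ≤ 983040 * k * R ^ (6 * th + 1) := by
        have h3 : (1 : ℝ) ≤ R ^ (6 * th + 1) := one_le_pow₀ hR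
        nlinarith
      nlinarith
    calc Sg + nc / R ^ k ≤ 983040 * k * R ^ (6 * th + 1) * nc / R ^ k + 983040 * k * R ^ (6 * th + 1) * nc / R ^ k :=
          add_le_add hS2 hS3
      _ = 2 * 983040 * k * R ^ (6 * th + 1) * nc / R ^ k := by ring
  have h3 : 2 * 983040 * k * R ^ (6 * th + 1) * nc / R ^ k ≤ X0 / (8 * p) := by
    have h4 : R ^ l / (4 * (R ^ d) ^ 2 * (2 * R ^ h) ^ 2) * nc / (8 * p) ≤ X0 / (8 * p) :=
      div_le_div_of_nonneg_right hA (by positivity)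
    refine le_trans (le_of_eq ?_) h4
    rw [hp]
    have e1 : R ^ (l + b) = R ^ l * R ^ b := pow_add _ _ _
    have e2 : R ^ (2 * a + 7 * th + 1) * R ^ k  * R ^ (2 * d) = R ^ b * (R ^ h) ^ 2 * (R ^ d) ^ 4 * R ^ (6 * th + 1) := by
      rw [← pow_mul, ← pow_mul, ← pow_add, ← pow_add, ← pow_add, ← pow_add, ← pow_add]
      congr 1
      omega
    have e3 : R ^ (2 * a + 7 * th + 1) * R ^ k = R ^ b * (R ^ h) ^ 2 * (R ^ d) ^ 2 * R ^ (6 * th + 1) := by
      have hd0 : (0 : ℝ) < (R ^ d) ^ 2 := by positivity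
      apply mul_right_cancel₀ (ne_of_gt hd0)
      have : R ^ (2 * d) = (R ^ d) ^ 2 := by rw [← pow_mul]; congr 1; ring
      rw [this] at e2
      rw [e2]; ring
    rw [e1]
    field_simp
    linear_combination (-(251658240 : ℝ) * nc) * e3
  have h5 : 3 / Y0 + Sg + nc / R ^ k ≤ X0 / (4 * p) := by
    have : X0 / (4 * p) = X0 / (8 * p) + X0 / (8 * p) := by field_simp; ring
    rw [this]; linarith
  calc φ * (3 / Y0 + Sg + nc / R ^ k) ≤ φ * (X0 / (4 * p)) := mul_le_mul_of_nonneg_left h5 hφ.le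
    _ = φ * X0 / (4 * p) := by ring

/-- the numerical part of the condition `24 p ≤ x y` -/
theorem num_C (a b th d l k h : ℕ) (hk : k + 2 * d = b + th) (hh : h + 2 * d = a + th) (hk1 : 1 ≤ k)
    (hfin : b + 5 * th + 4 * d ≤ l + 2 * a) (R : ℝ) (hR : 1474560 ≤ R) (X0 Y0 nc nr p : ℝ)
    (hp : p = R ^ (l + b) / (R ^ (2 * a + 7 * th + 1) * 251658240 * k))
    (hnc : 0 ≤ nc) (hnr : 0 ≤ nr)
    (hA : R ^ l / (4 * (R ^ d) ^ 2 * (2 * R ^ h) ^ 2) * nc ≤ X0)
    (hB : R ^ (2 * a) ≤ 245760 * R ^ (4 * th + 4 * d) * nc)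
    (hA' : R ^ l / (4 * (R ^ d) ^ 2 * (2 * R ^ h) ^ 2) * nr ≤ Y0)
    (hB' : R ^ (2 * a) ≤ 245760 * R ^ (4 * th + 4 * d) * nr) : 24 * p ≤ X0 * Y0 := by
  have hR1 : 1 ≤ R := by linarith
  have hR0 : 0 < R := by linarith
  have hkr : (1 : ℝ) ≤ k := by exact_mod_cast hk1
  -- lower bound for each factor
  have key : ∀ (Z n : ℝ), 0 ≤ n → R ^ l / (4 * (R ^ d) ^ 2 * (2 * R ^ h) ^ 2) * n ≤ Z →
      R ^ (2 * a) ≤ 245760 * R ^ (4 * th + 4 * d) * n → R ^ l ≤ 3932160 * R ^ (6 * th + 2 * d) * Z := by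
    intro Z n hn h1 h2
    have e1 : (R ^ d) ^ 2 * (R ^ h) ^ 2 * R ^ (4 * th + 4 * d) = R ^ (2 * a) * R ^ (6 * th + 2 * d) := by
      rw [← pow_mul, ← pow_mul, ← pow_add, ← pow_add, ← pow_add]
      congr 1
      omega
    have h3 : R ^ l * n ≤ 16 * ((R ^ d) ^ 2 * (R ^ h) ^ 2) * Z := by
      have : R ^ l / (4 * (R ^ d) ^ 2 * (2 * R ^ h) ^ 2) * n = R ^ l * n / (16 * ((R ^ d) ^ 2 * (R ^ h) ^ 2)) := by
        field_simp
        ring
      rw [this, div_le_iff₀ (by positivity)] at h1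
      linarith
    have h4 : R ^ l * R ^ (2 * a) ≤ R ^ l * (245760 * R ^ (4 * th + 4 * d) * n) :=
      mul_le_mul_of_nonneg_left h2 (by positivity)
    have h5 : R ^ l * R ^ (2 * a) ≤ (3932160 * R ^ (6 * th + 2 * d) * Z) * R ^ (2 * a) := by
      calc R ^ l * R ^ (2 * a) ≤ R ^ l * (245760 * R ^ (4 * th + 4 * d) * n) := h4
        _ = 245760 * R ^ (4 * th + 4 * d) * (R ^ l * n) := by ring
        _ ≤ 245760 * R ^ (4 * th + 4 * d) * (16 * ((R ^ d) ^ 2 * (R ^ h) ^ 2) * Z) :=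
            mul_le_mul_of_nonneg_left h3 (by positivity)
        _ = 3932160 * Z * ((R ^ d) ^ 2 * (R ^ h) ^ 2 * R ^ (4 * th + 4 * d)) := by ring
        _ = (3932160 * R ^ (6 * th + 2 * d) * Z) * R ^ (2 * a) := by rw [e1]; ring
    exact le_of_mul_le_mul_right h5 (by positivity)
  have kX := key X0 nc hnc hA hB
  have kY := key Y0 nr hnr hA' hB'
  have hXY : R ^ l * R ^ l ≤ (3932160 * R ^ (6 * th + 2 * d) * X0) * (3932160 * R ^ (6 * th + 2 * d) * Y0) :=
    mul_le_mul kX kY (by positivity) (le_trans (by positivity) kX)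
  have hX0 : 0 ≤ X0 := le_trans (by positivity) hA
  have hY0 : 0 ≤ Y0 := le_trans (by positivity) hA'
  have h6 : 24 * p ≤ 24 * (R ^ (l + b) / (R ^ (2 * a + 7 * th + 1) * 251658240)) := by
    rw [hp]
    apply mul_le_mul_of_nonneg_left _ (by norm_num)
    apply div_le_div_of_nonneg_left (by positivity) (by positivity)
    have : (0 : ℝ) < R ^ (2 * a + 7 * th + 1) * 251658240 := by positivity
    nlinarith
  refine h6.trans ?_
  -- 24 R^(l+b) * 3932160^2 R^(12 th + 4 d) ≤ 251658240 R^(2a+7th+1) R^(2l)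
  have h7 : 1474560 * (R ^ (l + b) * (R ^ (6 * th + 2 * d) * R ^ (6 * th + 2 * d))) ≤
      R ^ (2 * a + 7 * th + 1) * (R ^ l * R ^ l) := by
    have e : R ^ (l + b) * (R ^ (6 * th + 2 * d) * R ^ (6 * th + 2 * d)) * R ≤
        R ^ (2 * a + 7 * th + 1) * (R ^ l * R ^ l) := by
      rw [← pow_add, ← pow_add, ← pow_add, ← pow_add, ← pow_succ]
      apply pow_le_pow_right₀ hR1
      omega
    refine le_trans ?_ e
    rw [mul_comm]
    apply mul_le_mul_of_nonneg_left hR (by positivity)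
  have hden : (0 : ℝ) < R ^ (2 * a + 7 * th + 1) * 251658240 := by positivity
  rw [← mul_div_assoc, div_le_iff₀ hden]
  have hD2 : (0 : ℝ) < (3932160 * R ^ (6 * th + 2 * d)) * (3932160 * R ^ (6 * th + 2 * d)) := by positivity
  apply le_of_mul_le_mul_right _ hD2
  calc 24 * R ^ (l + b) * ((3932160 * R ^ (6 * th + 2 * d)) * (3932160 * R ^ (6 * th + 2 * d)))
      = 251658240 * (1474560 * (R ^ (l + b) * (R ^ (6 * th + 2 * d) * R ^ (6 * th + 2 * d)))) := by ring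
    _ ≤ 251658240 * (R ^ (2 * a + 7 * th + 1) * (R ^ l * R ^ l)) :=
        mul_le_mul_of_nonneg_left h7 (by norm_num)
    _ ≤ 251658240 * (R ^ (2 * a + 7 * th + 1) *
        ((3932160 * R ^ (6 * th + 2 * d) * X0) * (3932160 * R ^ (6 * th + 2 * d) * Y0))) := by
        apply mul_le_mul_of_nonneg_left _ (by norm_num)
        apply mul_le_mul_of_nonneg_left hXY (by positivity)
    _ = X0 * Y0 * (R ^ (2 * a + 7 * th + 1) * 251658240) *
        ((3932160 * R ^ (6 * th + 2 * d)) * (3932160 * R ^ (6 * th + 2 * d))) := by ring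

/-- the numerical part of the yield -/
theorem num_Y (a b th d l k N : ℕ) (hN : N = a + b + th) (hk : k + 2 * d = b + th) (hk1 : 1 ≤ k)
    (R : ℝ) (hR : 1 ≤ R) (p Ec Mc Tc : ℝ)
    (hp : p = R ^ (l + b) / (R ^ (2 * a + 7 * th + 1) * 251658240 * k))
    (hE : R ^ (2 * N) ≤ 61440 * R ^ (4 * th + 4 * d) * Ec)
    (hM : 3 / 4 * (p * (((2 * R - 1) ^ k)⁻¹) ^ 2 * Ec) ≤ Mc) (hT : Mc ≤ 3 * Tc) :
    R ^ (l + b) ≤ 61847529062400 * k * 4 ^ k * R ^ (11 * th + 1) * Tc := by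
  have hR0 : 0 < R := by linarith
  have hkr : (1 : ℝ) ≤ k := by exact_mod_cast hk1
  have h2R : (0 : ℝ) < 2 * R - 1 := by linarith
  have hp0 : 0 < p := by rw [hp]; positivity
  have hEc : 0 < Ec := by
    by_contra hcon
    push Not at hcon
    have h1 : (0 : ℝ) < R ^ (2 * N) := by positivity
    have h2 : 61440 * R ^ (4 * th + 4 * d) * Ec ≤ 0 :=
      mul_nonpos_of_nonneg_of_nonpos (by positivity) hcon
    linarith
  -- phi^2 ≥ 1 / (4^k R^(2k))
  have hphi : (4 ^ k * R ^ (2 * k))⁻¹ ≤ (((2 * R - 1) ^ k)⁻¹) ^ 2 := by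
    rw [inv_pow]
    apply inv_anti₀ (by positivity)
    have h1 : (2 * R - 1) ^ k ≤ (2 * R) ^ k := pow_le_pow_left₀ h2R.le (by linarith) k
    calc ((2 * R - 1) ^ k) ^ 2 ≤ ((2 * R) ^ k) ^ 2 := pow_le_pow_left₀ (by positivity) h1 2
      _ = 4 ^ k * R ^ (2 * k) := by
          rw [mul_pow, mul_pow, ← pow_mul, ← pow_mul, mul_comm k 2, pow_mul 2 2 k]; norm_num
  have h3 : 3 / 4 * (p * (4 ^ k * R ^ (2 * k))⁻¹ * Ec) ≤ 3 * Tc := by
    refine le_trans ?_ (hM.trans hT)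
    apply mul_le_mul_of_nonneg_left _ (by norm_num)
    apply mul_le_mul_of_nonneg_right _ hEc.le
    apply mul_le_mul_of_nonneg_left hphi hp0.le
  have h4 : p * Ec ≤ 4 * (4 ^ k * R ^ (2 * k)) * Tc := by
    have hq : (0 : ℝ) < 4 ^ k * R ^ (2 * k) := by positivity
    have : p * (4 ^ k * R ^ (2 * k))⁻¹ * Ec = p * Ec / (4 ^ k * R ^ (2 * k)) := by
      rw [div_eq_mul_inv]; ring
    rw [this] at h3
    have h5 : p * Ec / (4 ^ k * R ^ (2 * k)) ≤ 4 * Tc := by linarith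
    rw [div_le_iff₀ hq] at h5
    linarith
  -- multiply by the denominators
  have hden : (0 : ℝ) < R ^ (2 * a + 7 * th + 1) * 251658240 * k := by positivity
  have h5 : R ^ (l + b) * Ec ≤ 4 * (4 ^ k * R ^ (2 * k)) * Tc * (R ^ (2 * a + 7 * th + 1) * 251658240 * k) := by
    rw [hp, div_mul_eq_mul_div, div_le_iff₀ hden] at h4
    exact h4
  have h6 : R ^ (l + b) * R ^ (2 * N) ≤ 61440 * R ^ (4 * th + 4 * d) * (R ^ (l + b) * Ec) := by
    calc R ^ (l + b) * R ^ (2 * N) ≤ R ^ (l + b) * (61440 * R ^ (4 * th + 4 * d) * Ec) :=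
          mul_le_mul_of_nonneg_left hE (by positivity)
      _ = _ := by ring
  have h7 : R ^ (l + b) * R ^ (2 * N) ≤
      (61847529062400 * k * 4 ^ k * R ^ (11 * th + 1) * Tc) * R ^ (2 * N) := by
    refine h6.trans ?_
    calc 61440 * R ^ (4 * th + 4 * d) * (R ^ (l + b) * Ec)
        ≤ 61440 * R ^ (4 * th + 4 * d) *
          (4 * (4 ^ k * R ^ (2 * k)) * Tc * (R ^ (2 * a + 7 * th + 1) * 251658240 * k)) :=
          mul_le_mul_of_nonneg_left h5 (by positivity)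
      _ = 61847529062400 * k * 4 ^ k * Tc * (R ^ (4 * th + 4 * d) * R ^ (2 * k) * R ^ (2 * a + 7 * th + 1)) := by ring
      _ = 61847529062400 * k * 4 ^ k * Tc * (R ^ (11 * th + 1) * R ^ (2 * N)) := by
          congr 1
          rw [← pow_add, ← pow_add, ← pow_add]
          congr 1
          omega
      _ = _ := by ring
  exact le_of_mul_le_mul_right h7 (by positivity)

end Pool.Agent.TwinPerm
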