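import Pool.Agent.TwinPerm.Def

set_option autoImplicit false

/-!
# Ramsey: many pairs that are good for both relations (Ramsey number R(3,3) = 6)

Proof. Let `N_c` be the number of points of `X` in the cell `c`. Power mean (`inner` form: `(∑_{c<K} N_c)^6 ≤ K^5 ∑ N_c^6`, see
`inner_le_nnorm_mul_nnorm`-free version `Finset.inner...` or `pow_sum_div_card_le_sum_pow`): `|X|^6 ≤ K^5 ∑ N_c^6`.
`∑ N_c^6` is the number of 6-tuples `P : Fin 6 → α` of points of `X` all in the same cell. For such a tuple either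
(1) some `i < i' < i''` have `(P i, P i', P i'')` in the set of `hR1` (all three pairs not `g1`): at most `20 * R1 * Y^3` tuples (20 choices of the indices, `R1`
for the three points, `Y^3` for the others, which lie in the same cell);
(2) the same for `g2`: at most `20 * R2 * Y^3`;
(3) there are `i < i'` with `g1 (P i) (P i')` and `g2 (P i) (P i')`: at most `15 * Y^4 * G` tuples.
Indeed if (3) fails, colour the edge `i < i'` red if `¬ g1 (P i) (P i')` and blue otherwise (then `¬ g2 (P i) (P i')`); R(3,3) = 6 gives a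
monochromatic triangle, i.e. (1) or (2).
-/

namespace Pool.Agent.TwinPerm

open Finset

theorem ramsey_bool : ∀ f : Fin 5 → Bool, ∃ i j k : Fin 5, i < j ∧ j < k ∧ f i = f j ∧ f j = f k := by
  decide

/-- `R(3,3) ≤ 6` -/
theorem ramsey_six (r : Fin 6 → Fin 6 → Prop) : ∃ i j k : Fin 6, i < j ∧ j < k ∧
    ((r i j ∧ r i k ∧ r j k) ∨ (¬ r i j ∧ ¬ r i k ∧ ¬ r j k)) := by
  classical
  obtain ⟨i, j, k, hij, hjk, h1, h2⟩ := ramsey_bool fun l => decide (r 0 l.succ)
  have h1' : r 0 i.succ ↔ r 0 j.succ := by simpa using h1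
  have h2' : r 0 j.succ ↔ r 0 k.succ := by simpa using h2
  have hij' : i.succ < j.succ := Fin.succ_lt_succ_iff.mpr hij
  have hjk' : j.succ < k.succ := Fin.succ_lt_succ_iff.mpr hjk
  have h0 : ∀ l : Fin 5, (0 : Fin 6) < l.succ := fun l => Fin.succ_pos l
  by_cases h : r 0 i.succ
  · have hj : r 0 j.succ := h1'.mp h
    have hk : r 0 k.succ := h2'.mp hj
    by_cases a : r i.succ j.succ
    · exact ⟨0, i.succ, j.succ, h0 _, hij', Or.inl ⟨h, hj, a⟩⟩
    by_cases b : r i.succ k.succ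
    · exact ⟨0, i.succ, k.succ, h0 _, hij'.trans hjk', Or.inl ⟨h, hk, b⟩⟩
    by_cases c : r j.succ k.succ
    · exact ⟨0, j.succ, k.succ, h0 _, hjk', Or.inl ⟨hj, hk, c⟩⟩
    exact ⟨i.succ, j.succ, k.succ, hij', hjk', Or.inr ⟨a, b, c⟩⟩
  · have hj : ¬ r 0 j.succ := fun hh => h (h1'.mpr hh)
    have hk : ¬ r 0 k.succ := fun hh => hj (h2'.mpr hh)
    by_cases a : r i.succ j.succ
    · by_cases b : r i.succ k.succ
      · by_cases c : r j.succ k.succ
        · exact ⟨i.succ, j.succ, k.succ, hij', hjk', Or.inl ⟨a, b, c⟩⟩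
        · exact ⟨0, j.succ, k.succ, h0 _, hjk', Or.inr ⟨hj, hk, c⟩⟩
      · exact ⟨0, i.succ, k.succ, h0 _, hij'.trans hjk', Or.inr ⟨h, hk, b⟩⟩
    · exact ⟨0, i.succ, j.succ, h0 _, hij', Or.inr ⟨h, hj, a⟩⟩

theorem ramsey_mean (K : ℕ) (N : ℕ → ℕ) :
    (∑ c ∈ range K, N c) ^ 6 ≤ K ^ 5 * ∑ c ∈ range K, N c ^ 6 := by
  have h := pow_sum_div_card_le_sum_pow (s := range K) (f := fun c => (N c : ℝ))
    (fun i _ => Nat.cast_nonneg _) 5
  rw [card_range] at h
  rcases Nat.eq_zero_or_pos K with rfl | hK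
  · simp
  · have hK' : (0 : ℝ) < (K : ℝ) ^ 5 := by positivity
    rw [div_le_iff₀ hK'] at h
    have h2 : ((∑ c ∈ range K, N c : ℕ) : ℝ) ^ 6 ≤
        (K : ℝ) ^ 5 * ((∑ c ∈ range K, N c ^ 6 : ℕ) : ℝ) := by
      push_cast
      rw [mul_comm]
      exact h
    exact_mod_cast h2

open Classical in
/-- tuples of points of one cell -/
noncomputable def sixT {α : Type} (X : Finset α) (cell : α → ℕ) : Finset (Fin 6 → α) :=
  (Fintype.piFinset fun _ : Fin 6 => X).filter fun P => ∀ k, cell (P k) = cell (P 0)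

open Classical in
theorem sixT_fix {α : Type} (X : Finset α) (cell : α → ℕ) (Y : ℕ)
    (hY : ∀ c, (X.filter (fun P => cell P = c)).card ≤ Y) (s : Finset (Fin 6)) (hs : s.Nonempty)
    (p : Fin 6 → α) :
    ((sixT X cell).filter (fun P => ∀ k ∈ s, P k = p k)).card ≤ Y ^ (6 - s.card) := by
  obtain ⟨k₀, hk₀⟩ := hs
  have hsub : (sixT X cell).filter (fun P => ∀ k ∈ s, P k = p k) ⊆
      Fintype.piFinset (fun k : Fin 6 => if k ∈ s then {p k} else
        X.filter (fun P => cell P = cell (p k₀))) := by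
    intro P hP
    rw [mem_filter, sixT, mem_filter, Fintype.mem_piFinset] at hP
    obtain ⟨⟨h1, h2⟩, h3⟩ := hP
    rw [Fintype.mem_piFinset]
    intro k
    split_ifs with hk
    · rw [mem_singleton]
      exact h3 k hk
    · rw [mem_filter]
      refine ⟨h1 k, ?_⟩
      rw [← h3 k₀ hk₀, h2 k, h2 k₀]
  refine (card_le_card hsub).trans ?_
  rw [Fintype.card_piFinset]
  have h4 : ∀ k : Fin 6, (if k ∈ s then ({p k} : Finset α) else
        X.filter (fun P => cell P = cell (p k₀))).card ≤ if k ∈ s then 1 else Y := by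
    intro k
    split_ifs
    · rw [card_singleton]
    · exact hY _
  refine (prod_le_prod' fun k _ => h4 k).trans ?_
  rw [prod_ite, prod_const_one, one_mul, prod_const]
  have h5 : (univ.filter (fun k : Fin 6 => k ∉ s)).card = 6 - s.card := by
    rw [filter_not, card_sdiff_of_subset (filter_subset _ _), card_univ, Fintype.card_fin]
    congr 2
    ext k
    simp
  rw [h5]

open Classical in
theorem sixT_three {α : Type} (X : Finset α) (cell : α → ℕ) (Y : ℕ)
    (hY : ∀ c, (X.filter (fun P => cell P = c)).card ≤ Y) (g : α → α → Prop) (R : ℕ)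
    (hR : ((X ×ˢ X ×ˢ X).filter (fun t => cell t.1 = cell t.2.1 ∧ cell t.2.1 = cell t.2.2 ∧
      ¬ g t.1 t.2.1 ∧ ¬ g t.1 t.2.2 ∧ ¬ g t.2.1 t.2.2)).card ≤ R) (i j k : Fin 6) (hij : i < j)
    (hjk : j < k) :
    ((sixT X cell).filter (fun P => ¬ g (P i) (P j) ∧ ¬ g (P i) (P k) ∧ ¬ g (P j) (P k))).card ≤
      R * Y ^ 3 := by
  have hsub : (sixT X cell).filter (fun P => ¬ g (P i) (P j) ∧ ¬ g (P i) (P k) ∧ ¬ g (P j) (P k)) ⊆
      ((X ×ˢ X ×ˢ X).filter (fun t => cell t.1 = cell t.2.1 ∧ cell t.2.1 = cell t.2.2 ∧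
      ¬ g t.1 t.2.1 ∧ ¬ g t.1 t.2.2 ∧ ¬ g t.2.1 t.2.2)).biUnion fun t =>
        (sixT X cell).filter (fun P => ∀ l ∈ ({i, j, k} : Finset (Fin 6)),
          P l = (fun l => if l = i then t.1 else if l = j then t.2.1 else t.2.2) l) := by
    intro P hP
    rw [mem_filter] at hP
    obtain ⟨hP, h1, h2, h3⟩ := hP
    have hP' := hP
    rw [sixT, mem_filter, Fintype.mem_piFinset] at hP'
    rw [mem_biUnion]
    refine ⟨(P i, P j, P k), ?_, ?_⟩
    · rw [mem_filter, mem_product, mem_product]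
      refine ⟨⟨hP'.1 i, hP'.1 j, hP'.1 k⟩, ?_, ?_, h1, h2, h3⟩
      · change cell (P i) = cell (P j)
        rw [hP'.2 i, hP'.2 j]
      · change cell (P j) = cell (P k)
        rw [hP'.2 j, hP'.2 k]
    · rw [mem_filter]
      refine ⟨hP, ?_⟩
      intro l hl
      rw [mem_insert, mem_insert, mem_singleton] at hl
      rcases hl with rfl | rfl | rfl
      · simp
      · have : l ≠ i := hij.ne'
        simp [this]
      · have h4 : l ≠ i := (hij.trans hjk).ne'
        have h5 : l ≠ j := hjk.ne'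
        simp [h4, h5]
  refine (card_le_card hsub).trans ?_
  have hc : ({i, j, k} : Finset (Fin 6)).card = 3 := by
    rw [card_insert_of_notMem, card_insert_of_notMem, card_singleton]
    · rw [mem_singleton]
      exact hjk.ne
    · rw [mem_insert, mem_singleton, not_or]
      exact ⟨hij.ne, (hij.trans hjk).ne⟩
  refine (card_biUnion_le_card_mul _ _ (Y ^ 3) fun t _ => ?_).trans (Nat.mul_le_mul_right _ hR)
  have h := sixT_fix X cell Y hY {i, j, k} ⟨i, mem_insert_self _ _⟩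
    (fun l => if l = i then t.1 else if l = j then t.2.1 else t.2.2)
  rw [hc] at h
  exact h

open Classical in
theorem sixT_two {α : Type} (X : Finset α) (cell : α → ℕ) (Y : ℕ)
    (hY : ∀ c, (X.filter (fun P => cell P = c)).card ≤ Y) (g₁ g₂ : α → α → Prop) (i j : Fin 6)
    (hij : i < j) :
    ((sixT X cell).filter (fun P => g₁ (P i) (P j) ∧ g₂ (P i) (P j))).card ≤
      ((X ×ˢ X).filter (fun e => cell e.1 = cell e.2 ∧ g₁ e.1 e.2 ∧ g₂ e.1 e.2)).card * Y ^ 4 := by
  have hsub : (sixT X cell).filter (fun P => g₁ (P i) (P j) ∧ g₂ (P i) (P j)) ⊆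
      ((X ×ˢ X).filter (fun e => cell e.1 = cell e.2 ∧ g₁ e.1 e.2 ∧ g₂ e.1 e.2)).biUnion fun t =>
        (sixT X cell).filter (fun P => ∀ l ∈ ({i, j} : Finset (Fin 6)),
          P l = (fun l => if l = i then t.1 else t.2) l) := by
    intro P hP
    rw [mem_filter] at hP
    obtain ⟨hP, h1, h2⟩ := hP
    have hP' := hP
    rw [sixT, mem_filter, Fintype.mem_piFinset] at hP'
    rw [mem_biUnion]
    refine ⟨(P i, P j), ?_, ?_⟩
    · rw [mem_filter, mem_product]
      refine ⟨⟨hP'.1 i, hP'.1 j⟩, ?_, h1, h2⟩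
      change cell (P i) = cell (P j)
      rw [hP'.2 i, hP'.2 j]
    · rw [mem_filter]
      refine ⟨hP, ?_⟩
      intro l hl
      rw [mem_insert, mem_singleton] at hl
      rcases hl with rfl | rfl
      · simp
      · have : l ≠ i := hij.ne'
        simp [this]
  refine (card_le_card hsub).trans ?_
  have hc : ({i, j} : Finset (Fin 6)).card = 2 := by
    rw [card_insert_of_notMem, card_singleton]
    rw [mem_singleton]
    exact hij.ne
  refine card_biUnion_le_card_mul _ _ (Y ^ 4) fun t _ => ?_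
  have h := sixT_fix X cell Y hY {i, j} ⟨i, mem_insert_self _ _⟩
    (fun l => if l = i then t.1 else t.2)
  rw [hc] at h
  exact h

open Classical in
theorem sixT_card {α : Type} (X : Finset α) (cell : α → ℕ) (K : ℕ) :
    ∑ c ∈ range K, (X.filter (fun P => cell P = c)).card ^ 6 ≤ (sixT X cell).card := by
  have h1 : ∀ c ∈ range K, (X.filter (fun P => cell P = c)).card ^ 6 =
      (Fintype.piFinset fun _ : Fin 6 => X.filter (fun P => cell P = c)).card := by
    intro c _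
    rw [Fintype.card_piFinset, prod_const, card_univ, Fintype.card_fin]
  rw [sum_congr rfl h1, ← card_biUnion]
  · apply card_le_card
    intro P hP
    rw [mem_biUnion] at hP
    obtain ⟨c, -, hc⟩ := hP
    rw [Fintype.mem_piFinset] at hc
    have h2 : ∀ k, P k ∈ X ∧ cell (P k) = c := fun k => mem_filter.mp (hc k)
    rw [sixT, mem_filter, Fintype.mem_piFinset]
    exact ⟨fun k => (h2 k).1, fun k => by rw [(h2 k).2, (h2 0).2]⟩
  · intro c _ c' _ hcc
    change Disjoint _ _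
    rw [disjoint_left]
    intro P hP hP'
    rw [Fintype.mem_piFinset] at hP hP'
    exact hcc ((mem_filter.mp (hP 0)).2.symm.trans (mem_filter.mp (hP' 0)).2)

theorem card_triples6 : (univ.filter (fun t : Fin 6 × Fin 6 × Fin 6 => t.1 < t.2.1 ∧ t.2.1 < t.2.2)).card
    = 20 := by
  decide +kernel

theorem card_pairs6 : (univ.filter (fun t : Fin 6 × Fin 6 => t.1 < t.2)).card = 15 := by
  decide +kernel

open Classical in
theorem ramsey_count {α : Type} (X : Finset α) (cell : α → ℕ) (K Y : ℕ) (hcell : ∀ P ∈ X, cell P < K)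
    (hY : ∀ c, (X.filter (fun P => cell P = c)).card ≤ Y) (g1 g2 : α → α → Prop) (R1 R2 : ℕ)
    (hR1 : ((X ×ˢ X ×ˢ X).filter (fun t => cell t.1 = cell t.2.1 ∧ cell t.2.1 = cell t.2.2 ∧
      ¬ g1 t.1 t.2.1 ∧ ¬ g1 t.1 t.2.2 ∧ ¬ g1 t.2.1 t.2.2)).card ≤ R1)
    (hR2 : ((X ×ˢ X ×ˢ X).filter (fun t => cell t.1 = cell t.2.1 ∧ cell t.2.1 = cell t.2.2 ∧
      ¬ g2 t.1 t.2.1 ∧ ¬ g2 t.1 t.2.2 ∧ ¬ g2 t.2.1 t.2.2)).card ≤ R2) :
    X.card ^ 6 ≤ K ^ 5 * (20 * (R1 + R2) * Y ^ 3 +
      15 * Y ^ 4 * ((X ×ˢ X).filter (fun e => cell e.1 = cell e.2 ∧ g1 e.1 e.2 ∧ g2 e.1 e.2)).card) := by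
  have hX : X.card = ∑ c ∈ range K, (X.filter (fun P => cell P = c)).card :=
    card_eq_sum_card_fiberwise fun P hP => mem_coe.mpr (mem_range.mpr (hcell P (mem_coe.mp hP)))
  have h1 := ramsey_mean K fun c => (X.filter (fun P => cell P = c)).card
  rw [← hX] at h1
  refine h1.trans (Nat.mul_le_mul_left _ ((sixT_card X cell K).trans ?_))
  set T3 := univ.filter (fun t : Fin 6 × Fin 6 × Fin 6 => t.1 < t.2.1 ∧ t.2.1 < t.2.2) with hT3
  set T2 := univ.filter (fun t : Fin 6 × Fin 6 => t.1 < t.2) with hT2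
  have hsub : sixT X cell ⊆
      (T3.biUnion fun t => (sixT X cell).filter (fun P =>
        ¬ g1 (P t.1) (P t.2.1) ∧ ¬ g1 (P t.1) (P t.2.2) ∧ ¬ g1 (P t.2.1) (P t.2.2))) ∪
      (T3.biUnion fun t => (sixT X cell).filter (fun P =>
        ¬ g2 (P t.1) (P t.2.1) ∧ ¬ g2 (P t.1) (P t.2.2) ∧ ¬ g2 (P t.2.1) (P t.2.2))) ∪
      (T2.biUnion fun t => (sixT X cell).filter (fun P =>
        g1 (P t.1) (P t.2) ∧ g2 (P t.1) (P t.2))) := by
    intro P hP
    by_cases h3 : ∃ i j : Fin 6, i < j ∧ g1 (P i) (P j) ∧ g2 (P i) (P j)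
    · obtain ⟨i, j, hij, ha, hb⟩ := h3
      refine mem_union_right _ (mem_biUnion.mpr ⟨(i, j), ?_, mem_filter.mpr ⟨hP, ha, hb⟩⟩)
      rw [hT2, mem_filter]
      exact ⟨mem_univ _, hij⟩
    · push Not at h3
      obtain ⟨i, j, k, hij, hjk, h | h⟩ := ramsey_six fun i j => g1 (P i) (P j)
      · refine mem_union_left _ (mem_union_right _ (mem_biUnion.mpr ⟨(i, j, k), ?_,
          mem_filter.mpr ⟨hP, h3 _ _ hij h.1, h3 _ _ (hij.trans hjk) h.2.1, h3 _ _ hjk h.2.2⟩⟩))
        rw [hT3, mem_filter]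
        exact ⟨mem_univ _, hij, hjk⟩
      · refine mem_union_left _ (mem_union_left _ (mem_biUnion.mpr ⟨(i, j, k), ?_,
          mem_filter.mpr ⟨hP, h⟩⟩))
        rw [hT3, mem_filter]
        exact ⟨mem_univ _, hij, hjk⟩
  have hA := card_biUnion_le_card_mul T3 (fun t => (sixT X cell).filter (fun P =>
        ¬ g1 (P t.1) (P t.2.1) ∧ ¬ g1 (P t.1) (P t.2.2) ∧ ¬ g1 (P t.2.1) (P t.2.2))) (R1 * Y ^ 3)
    fun t ht => sixT_three X cell Y hY g1 R1 hR1 _ _ _ (mem_filter.mp ht).2.1 (mem_filter.mp ht).2.2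
  have hB := card_biUnion_le_card_mul T3 (fun t => (sixT X cell).filter (fun P =>
        ¬ g2 (P t.1) (P t.2.1) ∧ ¬ g2 (P t.1) (P t.2.2) ∧ ¬ g2 (P t.2.1) (P t.2.2))) (R2 * Y ^ 3)
    fun t ht => sixT_three X cell Y hY g2 R2 hR2 _ _ _ (mem_filter.mp ht).2.1 (mem_filter.mp ht).2.2
  have hC := card_biUnion_le_card_mul T2 (fun t => (sixT X cell).filter (fun P =>
        g1 (P t.1) (P t.2) ∧ g2 (P t.1) (P t.2)))
    (((X ×ˢ X).filter (fun e => cell e.1 = cell e.2 ∧ g1 e.1 e.2 ∧ g2 e.1 e.2)).card * Y ^ 4)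
    fun t ht => sixT_two X cell Y hY g1 g2 _ _ (mem_filter.mp ht).2
  rw [hT3, card_triples6] at hA hB
  rw [hT2, card_pairs6] at hC
  refine (card_le_card hsub).trans ((card_union_le _ _).trans ?_)
  refine (Nat.add_le_add (card_union_le _ _) le_rfl).trans ?_
  refine (Nat.add_le_add (Nat.add_le_add hA hB) hC).trans (le_of_eq ?_)
  ring

end Pool.Agent.TwinPerm
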