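import Pool.Agent.TwinPerm.Tower

set_option autoImplicit false

/-!
# RandRel: the random monotone relation on the sub-windows

Each window is divided into `D` sub-windows; the sub-window number `c` lies in the window `c / D` and has number `c % D` there.
`Ω = Ω_F × (Fin (S * B^k + 1) → Ωc)` with the tower `(Ω_F, F)` of `tower B k S`, and
`κ (ω, a) c c'` means `F ω (c/D) (c'/D)` and `Λ (c/D) (c'/D) (a (c/D)) (c%D) (c'%D)` (the coordinate of `a` exists since `F` forces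
`c / D < S * B^k`).
* `κ` is a strictly monotone relation: different windows by the monotonicity of `F` (and `F` is a partial injection), same window:
  then also the same image window (`F` is a function; by monotonicity it is injective) and the same chain `Λ`.
* probabilities: `a (c/D)` is independent of `ω`, and for different windows the coordinates `a (c/D)`, `a (d/D)` are independent.
* `p3`: same window or not, `Pr(κ c c' ∧ κ d d') ≤ Pr(κ d d')` (trivial, not needed here).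
-/

namespace Pool.Agent.TwinPerm

open Finset

private lemma pr_nonneg (Ω : Type) [Fintype Ω] (p : Ω → Prop) : 0 ≤ pr Ω p := by
  unfold pr
  positivity

private lemma pr_true (Ω : Type) [Fintype Ω] [Nonempty Ω] : pr Ω (fun _ => True) = 1 := by
  unfold pr
  rw [Finset.filter_true, Finset.card_univ]
  have : (Fintype.card Ω : ℝ) ≠ 0 := by
    exact_mod_cast Fintype.card_ne_zero
  exact div_self this

private lemma pr_false (Ω : Type) [Fintype Ω] (p : Ω → Prop) (h : ∀ ω, ¬ p ω) : pr Ω p = 0 := by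
  classical
  unfold pr
  rw [Finset.filter_false_of_mem (fun ω _ => h ω)]
  simp

private lemma pr_congr (Ω : Type) [Fintype Ω] (p q : Ω → Prop) (h : ∀ ω, p ω ↔ q ω) : pr Ω p = pr Ω q := by
  have : p = q := funext fun ω => propext (h ω)
  rw [this]

private lemma pr_equiv (Ω Ω' : Type) [Fintype Ω] [Fintype Ω'] (e : Ω ≃ Ω') (p : Ω' → Prop) :
    pr Ω (fun ω => p (e ω)) = pr Ω' p := by
  classical
  unfold pr
  rw [Fintype.card_congr e]
  congr 2
  refine Finset.card_bij (fun ω _ => e ω) ?_ ?_ ?_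
  · intro ω hω
    rw [Finset.mem_filter] at hω ⊢
    exact ⟨Finset.mem_univ _, hω.2⟩
  · intro ω _ ω' _ h
    exact e.injective h
  · intro ω' hω'
    rw [Finset.mem_filter] at hω'
    refine ⟨e.symm ω', ?_, e.apply_symm_apply ω'⟩
    rw [Finset.mem_filter]
    refine ⟨Finset.mem_univ _, ?_⟩
    rw [e.apply_symm_apply]
    exact hω'.2

private lemma pr_prod (Ω Ω' : Type) [Fintype Ω] [Fintype Ω'] (p : Ω → Prop) (q : Ω' → Prop) :
    pr (Ω × Ω') (fun x => p x.1 ∧ q x.2) = pr Ω p * pr Ω' q := by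
  classical
  unfold pr
  have h : ∀ (i1 : DecidablePred (fun x : Ω × Ω' => p x.1 ∧ q x.2)) (i2 : DecidablePred p) (i3 : DecidablePred q),
      (@Finset.filter _ (fun x : Ω × Ω' => p x.1 ∧ q x.2) i1 Finset.univ).card =
      (@Finset.filter _ p i2 Finset.univ).card * (@Finset.filter _ q i3 Finset.univ).card := by
    intro i1 i2 i3
    rw [← Finset.card_product]
    congr 1
    ext x
    simp
  rw [h, Fintype.card_prod, Nat.cast_mul, Nat.cast_mul, mul_div_mul_comm]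

private lemma pr_coord {ι : Type} [Fintype ι] [DecidableEq ι] (Ωc : Type) [Fintype Ωc] [Nonempty Ωc]
    (i : ι) (p : Ωc → Prop) : pr (ι → Ωc) (fun a => p (a i)) = pr Ωc p := by
  have h1 := pr_equiv (ι → Ωc) (Ωc × ({j // j ≠ i} → Ωc)) (Equiv.funSplitAt i Ωc)
    (fun x => p x.1 ∧ True)
  have h2 := pr_prod Ωc ({j // j ≠ i} → Ωc) p (fun _ => True)
  rw [pr_true, mul_one] at h2
  rw [← h2, ← h1]
  refine pr_congr _ _ _ fun a => ?_
  simp [Equiv.funSplitAt]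

private lemma pr_coord2 {ι : Type} [Fintype ι] [DecidableEq ι] (Ωc : Type) [Fintype Ωc] [Nonempty Ωc]
    (i i' : ι) (hi : i' ≠ i) (p q : Ωc → Prop) :
    pr (ι → Ωc) (fun a => p (a i) ∧ q (a i')) = pr Ωc p * pr Ωc q := by
  have h1 := pr_equiv (ι → Ωc) (Ωc × ({j // j ≠ i} → Ωc)) (Equiv.funSplitAt i Ωc)
    (fun x => p x.1 ∧ q (x.2 ⟨i', hi⟩))
  have h2 := pr_prod Ωc ({j // j ≠ i} → Ωc) p (fun a => q (a ⟨i', hi⟩))
  rw [pr_coord (ι := {j // j ≠ i}) Ωc ⟨i', hi⟩ q] at h2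
  rw [← h2, ← h1]
  refine pr_congr _ _ _ fun a => ?_
  simp [Equiv.funSplitAt]

theorem randRel (B k S D : ℕ) (hB : 1 ≤ B) (hD : 0 < D) (Ωc : Type) [Fintype Ωc] [Nonempty Ωc]
    (Λ : ℕ → ℕ → Ωc → ℕ → ℕ → Prop)
    (hΛ : ∀ U U' ω j1 j1' j2 j2', Λ U U' ω j1 j1' → Λ U U' ω j2 j2' →
      (j1 = j2 ∧ j1' = j2') ∨ (j1 < j2 ∧ j1' < j2') ∨ (j2 < j1 ∧ j2' < j1')) :
    ∃ (Ω : Type) (_ : Fintype Ω) (_ : Nonempty Ω) (κ : Ω → ℕ → ℕ → Prop),
      (∀ ω c c' d d', κ ω c c' → κ ω d d' → (c = d ∧ c' = d') ∨ (c < d ∧ c' < d') ∨ (d < c ∧ d' < c')) ∧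
      (∀ ω c c' d d' e, κ ω c c' → κ ω d d' → c / D / B ^ e = d / D / B ^ e → c' / D / B ^ e = d' / D / B ^ e) ∧
      (∀ c c', c / D < S * B ^ k → c' / D < S * B ^ k → c / D / B ^ k = c' / D / B ^ k →
        pr Ω (fun ω => κ ω c c') =
          ((2 * (B : ℝ) - 1) ^ k)⁻¹ * pr Ωc (fun ω => Λ (c / D) (c' / D) ω (c % D) (c' % D))) ∧
      (∀ c c' d d' e, e ≤ k → c / D / B ^ e ≠ d / D / B ^ e →
        pr Ω (fun ω => κ ω c c' ∧ κ ω d d') ≤ ((2 * (B : ℝ) - 1) ^ k)⁻¹ * ((B : ℝ) ^ e)⁻¹ *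
          (pr Ωc (fun ω => Λ (c / D) (c' / D) ω (c % D) (c' % D)) *
            pr Ωc (fun ω => Λ (d / D) (d' / D) ω (d % D) (d' % D)))) := by
  obtain ⟨ΩF, iF, nF, F, hmono, hfun, hdom, hblock, hprob, hprob2⟩ := tower B k S hB
  have hidx : ∀ u : ℕ, min u (S * B ^ k) < S * B ^ k + 1 := fun u => by
    have := min_le_right u (S * B ^ k)
    omega
  refine ⟨ΩF × (Fin (S * B ^ k + 1) → Ωc), inferInstance, inferInstance,
    fun ω c c' => F ω.1 (c / D) (c' / D) ∧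
      Λ (c / D) (c' / D) (ω.2 ⟨min (c / D) (S * B ^ k), hidx _⟩) (c % D) (c' % D), ?_, ?_, ?_, ?_⟩
  · rintro ω c c' d d' ⟨h1, h2⟩ ⟨h3, h4⟩
    have e1 := Nat.div_add_mod c D
    have e2 := Nat.div_add_mod c' D
    have e3 := Nat.div_add_mod d D
    have e4 := Nat.div_add_mod d' D
    have lt_of : ∀ x y : ℕ, x / D < y / D → x < y := fun x y h => Nat.lt_of_div_lt_div h
    rcases lt_trichotomy (c / D) (d / D) with h | h | h
    · exact Or.inr (Or.inl ⟨lt_of _ _ h, lt_of _ _ (hmono ω.1 _ _ _ _ h1 h3 h)⟩)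
    · rw [← h] at h3
      have h5 : c' / D = d' / D := hfun ω.1 _ _ _ h1 h3
      rw [← h, ← h5] at h4
      rw [← h] at e3
      rw [← h5] at e4
      rcases hΛ _ _ _ _ _ _ _ h2 h4 with ⟨h6, h7⟩ | ⟨h6, h7⟩ | ⟨h6, h7⟩
      · exact Or.inl ⟨by omega, by omega⟩
      · exact Or.inr (Or.inl ⟨by omega, by omega⟩)
      · exact Or.inr (Or.inr ⟨by omega, by omega⟩)
    · exact Or.inr (Or.inr ⟨lt_of _ _ h, lt_of _ _ (hmono ω.1 _ _ _ _ h3 h1 h)⟩)
  · rintro ω c c' d d' e ⟨h1, -⟩ ⟨h3, -⟩ h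
    exact hblock ω.1 _ _ _ _ e h1 h3 h
  · intro c c' hc hc' hcc
    rw [← hprob (c / D) (c' / D) hc hc' hcc,
      ← pr_coord (ι := Fin (S * B ^ k + 1)) Ωc ⟨min (c / D) (S * B ^ k), hidx _⟩
        (fun ω => Λ (c / D) (c' / D) ω (c % D) (c' % D)),
      ← pr_prod]
  · intro c c' d d' e he hne
    have hB0 : (0 : ℝ) ≤ 2 * (B : ℝ) - 1 := by
      have : (1 : ℝ) ≤ B := by exact_mod_cast hB
      linarith
    have hrhs : 0 ≤ ((2 * (B : ℝ) - 1) ^ k)⁻¹ * ((B : ℝ) ^ e)⁻¹ *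
          (pr Ωc (fun ω => Λ (c / D) (c' / D) ω (c % D) (c' % D)) *
            pr Ωc (fun ω => Λ (d / D) (d' / D) ω (d % D) (d' % D))) := by
      have := pr_nonneg Ωc (fun ω => Λ (c / D) (c' / D) ω (c % D) (c' % D))
      have := pr_nonneg Ωc (fun ω => Λ (d / D) (d' / D) ω (d % D) (d' % D))
      positivity
    by_cases hc : c / D < S * B ^ k
    swap
    · rw [pr_false _ _ (fun ω h => hc (hdom ω.1 _ _ h.1.1).1)]
      exact hrhs
    by_cases hd : d / D < S * B ^ k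
    swap
    · rw [pr_false _ _ (fun ω h => hd (hdom ω.1 _ _ h.2.1).1)]
      exact hrhs
    have hcd : c / D ≠ d / D := fun h => hne (by rw [h])
    have hii : (⟨min (d / D) (S * B ^ k), hidx _⟩ : Fin (S * B ^ k + 1)) ≠
        ⟨min (c / D) (S * B ^ k), hidx _⟩ := by
      intro h
      have h' := congrArg Fin.val h
      simp only at h'
      rw [min_eq_left hc.le, min_eq_left hd.le] at h'
      exact hcd h'.symm
    rw [← pr_coord2 (ι := Fin (S * B ^ k + 1)) Ωc ⟨min (c / D) (S * B ^ k), hidx _⟩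
        ⟨min (d / D) (S * B ^ k), hidx _⟩ hii
        (fun ω => Λ (c / D) (c' / D) ω (c % D) (c' % D))
        (fun ω => Λ (d / D) (d' / D) ω (d % D) (d' % D))]
    refine le_trans (le_of_eq ?_) (mul_le_mul_of_nonneg_right (hprob2 (c / D) (d / D) (c' / D) (d' / D) e he hne)
      (pr_nonneg _ _))
    rw [← pr_prod]
    refine pr_congr _ _ _ fun ω => ?_
    constructor
    · rintro ⟨⟨h1, h2⟩, ⟨h3, h4⟩⟩
      exact ⟨⟨h1, h3⟩, ⟨h2, h4⟩⟩
    · rintro ⟨⟨h1, h3⟩, ⟨h2, h4⟩⟩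
      exact ⟨⟨h1, h2⟩, ⟨h3, h4⟩⟩

end Pool.Agent.TwinPerm
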