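import Pool.Agent.TwinPerm.Def

set_option autoImplicit false

/-!
# Round: independent sets from weights

Proof. `f(w) = ∑_{e ∈ V} w e - (1/2) ∑_{e ∈ V} ∑_{e' ∈ V, e' ≠ e, conf e e'} w e * w e'` is affine in every single variable `w e`, so
the variables can be rounded to `0` or `1` one after the other without decreasing `f`. For a `0/1` vector with support `T`,
`f = |T| - (number of unordered conflicting pairs in T)`, and `T` contains an independent set of that size at least (delete
one element of a conflicting pair, induction on `|T|`).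
-/

namespace Pool.Agent.TwinPerm

open Finset

namespace RoundAux

open Classical in
/-- the conflict matrix -/
noncomputable def c {β : Type} (conf : β → β → Prop) (e e' : β) : ℝ :=
  if e' ≠ e ∧ conf e e' then 1 else 0

/-- the multilinear function -/
noncomputable def F {β : Type} (V : Finset β) (conf : β → β → Prop) (w : β → ℝ) : ℝ :=
  ∑ e ∈ V, w e - (1 / 2) * ∑ e ∈ V, ∑ e' ∈ V, c conf e e' * (w e * w e')

theorem c_self {β : Type} (conf : β → β → Prop) (e : β) : c conf e e = 0 := by
  unfold c
  rw [if_neg]
  exact fun h => h.1 rfl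

theorem c_symm {β : Type} (conf : β → β → Prop) (hsymm : ∀ e e', conf e e' → conf e' e) (e e' : β) :
    c conf e e' = c conf e' e := by
  unfold c
  by_cases h : e' ≠ e ∧ conf e e'
  · rw [if_pos h, if_pos ⟨h.1.symm, hsymm _ _ h.2⟩]
  · rw [if_neg h, if_neg]
    exact fun h' => h ⟨h'.1.symm, hsymm _ _ h'.2⟩

theorem c_nonneg {β : Type} (conf : β → β → Prop) (e e' : β) : 0 ≤ c conf e e' := by
  unfold c
  split_ifs <;> norm_num

open Classical in
theorem F_update {β : Type} (V : Finset β) (conf : β → β → Prop)
    (hsymm : ∀ e e', conf e e' → conf e' e) (w : β → ℝ) (a : β) (x : ℝ) (ha : a ∈ V) :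
    F V conf (Function.update w a x) =
      F V conf w + (x - w a) * (1 - ∑ e' ∈ V, c conf a e' * w e') := by
  have h1 : ∑ e ∈ V, Function.update w a x e = ∑ e ∈ V, w e + (x - w a) := by
    have : ∀ e ∈ V, Function.update w a x e = w e + if e = a then (x - w a) else 0 := by
      intro e _
      by_cases h : e = a
      · subst h; simp
      · rw [Function.update_of_ne h, if_neg h, add_zero]
    rw [sum_congr rfl this, sum_add_distrib, sum_ite_eq' V a, if_pos ha]
  have h2 : ∑ e ∈ V, ∑ e' ∈ V, c conf e e' *
      (Function.update w a x e * Function.update w a x e') =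
      ∑ e ∈ V, ∑ e' ∈ V, c conf e e' * (w e * w e') +
        2 * ((x - w a) * ∑ e' ∈ V, c conf a e' * w e') := by
    have h3 : ∀ e ∈ V, ∀ e' ∈ V, c conf e e' *
        (Function.update w a x e * Function.update w a x e') =
        c conf e e' * (w e * w e') + (if e = a then (x - w a) * (c conf a e' * w e') else 0) +
          (if e' = a then (x - w a) * (c conf a e * w e) else 0) := by
      intro e _ e' _
      by_cases h : e = a
      · subst h
        by_cases h' : e' = e
        · subst h'
          simp [c_self]
        · rw [Function.update_self, Function.update_of_ne h', if_pos rfl, if_neg h']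
          ring
      · by_cases h' : e' = a
        · subst h'
          rw [Function.update_self, Function.update_of_ne h, if_neg h, if_pos rfl,
            c_symm conf hsymm e' e]
          ring
        · rw [Function.update_of_ne h, Function.update_of_ne h', if_neg h, if_neg h']
          ring
    rw [sum_congr rfl (fun e he => sum_congr rfl (h3 e he))]
    simp only [sum_add_distrib]
    have h4 : ∑ e ∈ V, ∑ e' ∈ V, (if e = a then (x - w a) * (c conf a e' * w e') else 0) =
        (x - w a) * ∑ e' ∈ V, c conf a e' * w e' := by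
      rw [sum_comm]
      rw [mul_sum]
      apply sum_congr rfl
      intro e' _
      rw [sum_ite_eq' V a, if_pos ha]
    have h5 : ∑ e ∈ V, ∑ e' ∈ V, (if e' = a then (x - w a) * (c conf a e * w e) else 0) =
        (x - w a) * ∑ e' ∈ V, c conf a e' * w e' := by
      rw [mul_sum]
      apply sum_congr rfl
      intro e _
      rw [sum_ite_eq' V a, if_pos ha]
    rw [h4, h5]
    ring
  unfold F
  rw [h1, h2]
  ring

open Classical in
theorem exists_zero_one {β : Type} (V : Finset β) (conf : β → β → Prop)
    (hsymm : ∀ e e', conf e e' → conf e' e) (w : β → ℝ) (h0 : ∀ e ∈ V, 0 ≤ w e)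
    (h1 : ∀ e ∈ V, w e ≤ 1) (T : Finset β) :
    T ⊆ V → ∃ w' : β → ℝ, (∀ e ∈ T, w' e = 0 ∨ w' e = 1) ∧ (∀ e ∈ V, 0 ≤ w' e ∧ w' e ≤ 1) ∧
      F V conf w ≤ F V conf w' := by
  induction T using Finset.induction with
  | empty =>
    intro _
    exact ⟨w, by simp, fun e he => ⟨h0 e he, h1 e he⟩, le_rfl⟩
  | insert a T haT ih =>
    intro hT
    obtain ⟨w', hw1, hw2, hw3⟩ := ih (fun e he => hT (mem_insert_of_mem he))
    have ha : a ∈ V := hT (mem_insert_self a T)
    set S := ∑ e' ∈ V, c conf a e' * w' e' with hS
    rcases le_total 0 (1 - S) with h | h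
    · refine ⟨Function.update w' a 1, ?_, ?_, ?_⟩
      · intro e he
        rcases mem_insert.1 he with rfl | he
        · right; simp
        · rw [Function.update_of_ne (show e ≠ a from fun hh => haT (hh ▸ he))]
          exact hw1 e he
      · intro e he
        by_cases hea : e = a
        · subst hea; simp
        · rw [Function.update_of_ne hea]
          exact hw2 e he
      · rw [F_update V conf hsymm w' a 1 ha]
        have := mul_nonneg (sub_nonneg.2 (hw2 a ha).2) h
        linarith
    · refine ⟨Function.update w' a 0, ?_, ?_, ?_⟩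
      · intro e he
        rcases mem_insert.1 he with rfl | he
        · left; simp
        · rw [Function.update_of_ne (show e ≠ a from fun hh => haT (hh ▸ he))]
          exact hw1 e he
      · intro e he
        by_cases hea : e = a
        · subst hea; simp
        · rw [Function.update_of_ne hea]
          exact hw2 e he
      · rw [F_update V conf hsymm w' a 0 ha]
        have := mul_nonneg_of_nonpos_of_nonpos (sub_nonpos.2 (hw2 a ha).1) h
        linarith

open Classical in
theorem F_support {β : Type} (V : Finset β) (conf : β → β → Prop) (w : β → ℝ)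
    (h : ∀ e ∈ V, w e = 0 ∨ w e = 1) : ∑ e ∈ V, w e = ((V.filter (fun e => w e = 1)).card : ℝ) := by
  rw [card_filter]
  push_cast
  apply sum_congr rfl
  intro e he
  rcases h e he with h | h
  · rw [h]; norm_num
  · rw [h]; norm_num

open Classical in
theorem exists_indep {β : Type} (V : Finset β) (conf : β → β → Prop)
    (hsymm : ∀ e e', conf e e' → conf e' e) (k : ℕ) : ∀ (w : β → ℝ)
    (_ : ∀ e ∈ V, w e = 0 ∨ w e = 1), (V.filter (fun e => w e = 1)).card = k →
    ∃ I ⊆ V, (∀ e ∈ I, ∀ e' ∈ I, e ≠ e' → ¬ conf e e') ∧ F V conf w ≤ (I.card : ℝ) := by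
  induction k with
  | zero =>
    intro w h hk
    refine ⟨∅, empty_subset _, by simp, ?_⟩
    unfold F
    rw [F_support V conf w h, hk]
    have : 0 ≤ ∑ e ∈ V, ∑ e' ∈ V, c conf e e' * (w e * w e') := by
      refine sum_nonneg fun e he => sum_nonneg fun e' he' => mul_nonneg (c_nonneg _ _ _) ?_
      rcases h e he with h1 | h1 <;> rcases h e' he' with h2 | h2 <;> rw [h1, h2] <;> norm_num
    simp only [Nat.cast_zero, card_empty]
    linarith
  | succ k ih =>
    intro w h hk
    by_cases hc : ∃ a ∈ V, ∃ b ∈ V, w a = 1 ∧ w b = 1 ∧ a ≠ b ∧ conf a b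
    · obtain ⟨a, ha, b, hb, hwa, hwb, hab, hcab⟩ := hc
      have h' : ∀ e ∈ V, Function.update w a 0 e = 0 ∨ Function.update w a 0 e = 1 := by
        intro e he
        by_cases hea : e = a
        · subst hea; left; simp
        · rw [Function.update_of_ne hea]; exact h e he
      have hcard : (V.filter (fun e => Function.update w a 0 e = 1)).card = k := by
        have : V.filter (fun e => Function.update w a 0 e = 1) =
            (V.filter (fun e => w e = 1)).erase a := by
          ext e
          simp only [mem_filter, mem_erase]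
          by_cases hea : e = a
          · subst hea; simp
          · rw [Function.update_of_ne hea]
            tauto
        rw [this, card_erase_of_mem (mem_filter.2 ⟨ha, hwa⟩), hk]
        omega
      obtain ⟨I, hI1, hI2, hI3⟩ := ih _ h' hcard
      refine ⟨I, hI1, hI2, le_trans ?_ hI3⟩
      rw [F_update V conf hsymm w a 0 ha, hwa]
      have hS : 1 ≤ ∑ e' ∈ V, c conf a e' * w e' := by
        have h1 : c conf a b * w b = 1 := by
          rw [hwb, mul_one]
          unfold c
          rw [if_pos ⟨hab.symm, hcab⟩]
        rw [← h1]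
        refine single_le_sum (f := fun e' => c conf a e' * w e') (fun e' he' => ?_) hb
        refine mul_nonneg (c_nonneg _ _ _) ?_
        rcases h e' he' with h2 | h2 <;> rw [h2] <;> norm_num
      linarith
    · refine ⟨V.filter (fun e => w e = 1), filter_subset _ _, ?_, ?_⟩
      · intro e he e' he' hne hcc
        rw [mem_filter] at he he'
        exact hc ⟨e, he.1, e', he'.1, he.2, he'.2, hne, hcc⟩
      · unfold F
        rw [F_support V conf w h]
        have : 0 ≤ ∑ e ∈ V, ∑ e' ∈ V, c conf e e' * (w e * w e') := by
          refine sum_nonneg fun e he => sum_nonneg fun e' he' => mul_nonneg (c_nonneg _ _ _) ?_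
          rcases h e he with h1 | h1 <;> rcases h e' he' with h2 | h2 <;> rw [h1, h2] <;> norm_num
        linarith

end RoundAux

open RoundAux

open Classical in
theorem indep_of_weights {β : Type} (V : Finset β) (conf : β → β → Prop)
    (hsymm : ∀ e e', conf e e' → conf e' e) (w : β → ℝ) (h0 : ∀ e ∈ V, 0 ≤ w e) (h1 : ∀ e ∈ V, w e ≤ 1) :
    ∃ I ⊆ V, (∀ e ∈ I, ∀ e' ∈ I, e ≠ e' → ¬ conf e e') ∧
      ∑ e ∈ V, w e - (1 / 2) * ∑ e ∈ V, ∑ e' ∈ V.filter (fun e' => e' ≠ e ∧ conf e e'), w e * w e' ≤ (I.card : ℝ) := by
  obtain ⟨w', hw1, _, hw3⟩ := exists_zero_one V conf hsymm w h0 h1 V Subset.rfl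
  obtain ⟨I, hI1, hI2, hI3⟩ := exists_indep V conf hsymm _ w' hw1 rfl
  refine ⟨I, hI1, hI2, le_trans (le_of_eq ?_) (hw3.trans hI3)⟩
  unfold F
  congr 2
  apply sum_congr rfl
  intro e _
  rw [sum_filter]
  apply sum_congr rfl
  intro e' _
  unfold c
  split_ifs
  · rw [one_mul]
  · rw [zero_mul]

end Pool.Agent.TwinPerm
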