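import Pool.Agent.TwinPerm.Greedy

set_option autoImplicit false

/-!
# SampleX: the probability that the random alignment contains `(J, J')`

Hypotheses: `X` a finite set of points; `u` = window, `j < D` = sub-column in the window, `lab < D * D` = label, `sl < Z` = slot; window,
label and slot determine the point. `D = L * q`.

Proof. Let `Pairs` be the set of pairs `(P, Q)` on the left-hand side, `Ω = Samp D Z`, `|Ω| = (D Z Z)^D`.
`#{(ω, i) | Lam U U' (ω, i) J J'} = ∑_ω ∑_i [∃ g ∈ C_i(ω), jL g = J, jR g = J'] = ∑_ω ∑_i #{g ∈ C_i(ω) | jL g = J, jR g = J'}` (at most one such `g` in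
a strict chain) `= ∑_ω #{g | GoodAt ω g, jL g = J, jR g = J'}` (the chains are disjoint)
`≥ ∑_ω #{(P, Q) ∈ Pairs | ∃ g, Hit (lab P) (sl P) (sl Q) ω g ∧ GoodAt ω g}`: the map `(P, Q) ↦ g = lab P / D` is injective on this set for given `ω`
(`ω g` gives `lab P % D`, `sl P`, `sl Q`, hence `lab P = lab Q`, and `P`, `Q` by `hinj`), and the sampled points are `P` and `Q`
(uniqueness `hinj` in the definition of `jv`), so `jL g = j P = J`, `jR g = j Q = J'`.
Interchanging the sums: `= ∑_{(P,Q)} #{ω | ∃ g, Hit ∧ GoodAt} ≥ ∑_{(P,Q)} #{ω | ∃ g, Hit} / 4 = |Pairs| * |Ω| / (4 D Z^2)` (the value of `ω` at one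
coordinate `g = lab P / D < D` is prescribed). Divide by `|Ω| * q` and use `q = D / L`.
-/

namespace Pool.Agent.TwinPerm

open Finset

/-- functions with one prescribed value -/
theorem card_coord {β : Type} [Fintype β] [DecidableEq β] {D : ℕ} (g : Fin D) (v : β) :
    (Finset.univ.filter (fun ω : Fin D → β => ω g = v)).card * Fintype.card β =
      Fintype.card (Fin D → β) := by
  have h1 : Finset.univ.filter (fun ω : Fin D → β => ω g = v) =
      Fintype.piFinset (fun i => if i = g then ({v} : Finset β) else Finset.univ) := by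
    ext ω
    rw [Fintype.mem_piFinset, Finset.mem_filter]
    constructor
    · rintro ⟨-, h⟩ i
      by_cases hi : i = g
      · subst hi
        simp [h]
      · simp [hi]
    · intro h
      refine ⟨Finset.mem_univ _, ?_⟩
      have h2 := h g
      simpa using h2
  rw [h1, Fintype.card_piFinset, ← Finset.mul_prod_erase Finset.univ _ (Finset.mem_univ g)]
  have h2 : ∏ i ∈ Finset.univ.erase g, (if i = g then ({v} : Finset β) else Finset.univ).card =
      ∏ i ∈ Finset.univ.erase g, Fintype.card β := by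
    apply Finset.prod_congr rfl
    intro i hi
    rw [if_neg (Finset.ne_of_mem_erase hi), Finset.card_univ]
  rw [h2, if_pos rfl, Finset.card_singleton, one_mul, Fintype.card_fun]
  have h3 : ∏ i : Fin D, Fintype.card β = Fintype.card β * ∏ i ∈ Finset.univ.erase g, Fintype.card β :=
    (Finset.mul_prod_erase Finset.univ _ (Finset.mem_univ g)).symm
  rw [Finset.prod_const, Finset.card_univ] at h3
  rw [h3, mul_comm]

open Classical in
/-- the number of samples which hit a given label and given slots -/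
theorem card_hit (D Z l z z' : ℕ) (hD : 0 < D) (hl : l < D * D) (hz : z < Z) (hz' : z' < Z) :
    (Finset.univ.filter (fun ω : Samp D Z => ∃ g, Hit D Z l z z' ω g)).card * (D * (Z * Z)) =
      Fintype.card (Samp D Z) := by
  have hg : l / D < D := Nat.div_lt_of_lt_mul hl
  have hh : l % D < D := Nat.mod_lt _ hD
  have h1 : Finset.univ.filter (fun ω : Samp D Z => ∃ g, Hit D Z l z z' ω g) =
      Finset.univ.filter (fun ω : Fin D → Fin D × Fin Z × Fin Z => ω ⟨l / D, hg⟩ =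
        ((⟨l % D, hh⟩ : Fin D), (⟨z, hz⟩ : Fin Z), (⟨z', hz'⟩ : Fin Z))) := by
    apply Finset.filter_congr
    intro ω _
    constructor
    · rintro ⟨g, h2, h3, h4, h5⟩
      have h6 : g = ⟨l / D, hg⟩ := Fin.ext h2
      rw [← h6]
      exact Prod.ext (Fin.ext h3) (Prod.ext (Fin.ext h4) (Fin.ext h5))
    · intro h2
      refine ⟨⟨l / D, hg⟩, rfl, ?_, ?_, ?_⟩ <;> rw [h2]
  have h2 := card_coord (β := Fin D × Fin Z × Fin Z) (⟨l / D, hg⟩ : Fin D)
    ((⟨l % D, hh⟩ : Fin D), (⟨z, hz⟩ : Fin Z), (⟨z', hz'⟩ : Fin Z))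
  have h3 : Fintype.card (Fin D × Fin Z × Fin Z) = D * (Z * Z) := by
    simp [Fintype.card_prod]
  rw [h1, ← h3]
  exact h2

theorem jv_eq {α : Type} (X : Finset α) (u j lab sl : α → ℕ) (D : ℕ)
    (hinj : ∀ P ∈ X, ∀ Q ∈ X, u P = u Q → lab P = lab Q → sl P = sl Q → P = Q) (U g h z : ℕ)
    (P : α) (hP : P ∈ X) (h1 : u P = U) (h2 : lab P = g * D + h) (h3 : sl P = z) :
    jv X u j lab sl D U g h z = j P := by
  have hex : ∃ P ∈ X, u P = U ∧ lab P = g * D + h ∧ sl P = z := ⟨P, hP, h1, h2, h3⟩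
  unfold jv
  rw [dif_pos hex]
  obtain ⟨k1, k2, k3, k4⟩ := hex.choose_spec
  congr 1
  exact hinj _ k1 P hP (k2.trans h1.symm) (k3.trans h2.symm) (k4.trans h3.symm)

open Classical in
/-- for a given sample, every good pair gives its own chain number -/
theorem sample_inj {α : Type} (X : Finset α) (u j lab sl : α → ℕ) (D Z L q : ℕ) (hL : 0 < L)
    (hD : D = L * q) (hq : 0 < q)
    (hinj : ∀ P ∈ X, ∀ Q ∈ X, u P = u Q → lab P = lab Q → sl P = sl Q → P = Q)
    (U U' J J' : ℕ) (E : Finset (α × α))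
    (hE : ∀ e ∈ E, e.1 ∈ X ∧ e.2 ∈ X ∧ u e.1 = U ∧ j e.1 = J ∧ u e.2 = U' ∧ j e.2 = J' ∧
      lab e.1 = lab e.2) (ω : Samp D Z) :
    (E.filter (fun e => ∃ g, Hit D Z (lab e.1) (sl e.1) (sl e.2) ω g ∧
      GoodAt X u j lab sl D Z L q (u e.1) (u e.2) ω g)).card ≤
    (Finset.univ.filter (fun i : Fin q => Lam X u j lab sl D Z L q U U' (ω, i) J J')).card := by
  have hgr := gfam_spec (dset X u lab sl D Z U U' ω) (jL X u j lab sl D Z U ω)
    (jR X u j lab sl D Z U' ω) L q hL (by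
      refine le_trans (Finset.card_le_univ _) ?_
      rw [Fintype.card_fin, hD])
  -- what a good pair gives
  have key : ∀ e ∈ E, ∀ g, Hit D Z (lab e.1) (sl e.1) (sl e.2) ω g →
      lab e.1 = g.val * D + (ω g).1.val ∧ jL X u j lab sl D Z U ω g = J ∧
        jR X u j lab sl D Z U' ω g = J' := by
    intro e he g hg
    obtain ⟨h1, h2, h3, h4⟩ := hg
    obtain ⟨k1, k2, k3, k4, k5, k6, k7⟩ := hE e he
    have h5 : lab e.1 = g.val * D + (ω g).1.val := by
      rw [h1, h2, mul_comm]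
      exact (Nat.div_add_mod _ _).symm
    refine ⟨h5, ?_, ?_⟩
    · unfold jL
      rw [jv_eq X u j lab sl D hinj U _ _ _ e.1 k1 k3 h5 h3.symm, k4]
    · unfold jR
      rw [jv_eq X u j lab sl D hinj U' _ _ _ e.2 k2 k5 (k7.symm.trans h5) h4.symm, k6]
  have hex : ∀ e : α × α, ∃ i : Fin q, e ∈ (E.filter (fun e => ∃ g,
      Hit D Z (lab e.1) (sl e.1) (sl e.2) ω g ∧
      GoodAt X u j lab sl D Z L q (u e.1) (u e.2) ω g)) →
      ∃ g ∈ chains X u j lab sl D Z L q U U' ω i, Hit D Z (lab e.1) (sl e.1) (sl e.2) ω g := by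
    intro e
    by_cases he : e ∈ (E.filter (fun e => ∃ g,
      Hit D Z (lab e.1) (sl e.1) (sl e.2) ω g ∧
      GoodAt X u j lab sl D Z L q (u e.1) (u e.2) ω g))
    · obtain ⟨h1, g, h2, i, h3⟩ := Finset.mem_filter.1 he
      obtain ⟨k1, k2, k3, k4, k5, k6, k7⟩ := hE e h1
      rw [k3, k5] at h3
      exact ⟨i, fun _ => ⟨g, h3, h2⟩⟩
    · exact ⟨⟨0, hq⟩, fun h => absurd h he⟩
  choose i hi using hex
  apply Finset.card_le_card_of_injOn i
  · intro e he
    obtain ⟨g, h1, h2⟩ := hi e he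
    obtain ⟨h3, h4, h5⟩ := key e (Finset.mem_filter.1 he).1 g h2
    exact Finset.mem_filter.2 ⟨Finset.mem_univ _, g, h1, h4, h5⟩
  · intro e he e' he' hee
    obtain ⟨g, h1, h2⟩ := hi e he
    obtain ⟨g', h1', h2'⟩ := hi e' he'
    have hE1 := (Finset.mem_filter.1 he).1
    have hE2 := (Finset.mem_filter.1 he').1
    obtain ⟨h3, h4, h5⟩ := key e hE1 g h2
    obtain ⟨h3', h4', h5'⟩ := key e' hE2 g' h2'
    rw [← hee] at h1'
    have hgg : g = g' := by
      by_contra hne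
      rcases (hgr.1 (i e)).2.1 g h1 g' h1' hne with h6 | h6
      · rw [h4, h4'] at h6
        exact lt_irrefl _ h6.1
      · rw [h4, h4'] at h6
        exact lt_irrefl _ h6.1
    subst hgg
    obtain ⟨k1, k2, k3, k4, k5, k6, k7⟩ := hE e hE1
    obtain ⟨m1, m2, m3, m4, m5, m6, m7⟩ := hE e' hE2
    obtain ⟨-, -, a1, a2⟩ := h2
    obtain ⟨-, -, b1, b2⟩ := h2'
    have hl : lab e.1 = lab e'.1 := h3.trans h3'.symm
    have e1 : e.1 = e'.1 := hinj _ k1 _ m1 (k3.trans m3.symm) hl (a1.symm.trans b1)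
    have e2 : e.2 = e'.2 := hinj _ k2 _ m2 (k5.trans m5.symm) (k7.symm.trans (hl.trans m7))
      (a2.symm.trans b2)
    exact Prod.ext e1 e2

open Classical in
theorem sample_prob {α : Type} (X : Finset α) (u j lab sl : α → ℕ) (D Z L q : ℕ) (hL : 0 < L) (hD : D = L * q)
    (hq : 0 < q) (hZ : 0 < Z)
    (hlab : ∀ P ∈ X, lab P < D * D) (hsl : ∀ P ∈ X, sl P < Z)
    (hinj : ∀ P ∈ X, ∀ Q ∈ X, u P = u Q → lab P = lab Q → sl P = sl Q → P = Q) (U U' J J' : ℕ) :
    (L : ℝ) / (4 * (D : ℝ) ^ 2 * (Z : ℝ) ^ 2) *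
        (((X ×ˢ X).filter (fun e => u e.1 = U ∧ j e.1 = J ∧ u e.2 = U' ∧ j e.2 = J' ∧ lab e.1 = lab e.2 ∧
          GoodPair X u j lab sl D Z L q e.1 e.2)).card : ℝ) ≤
      pr (Samp D Z × Fin q) (fun ω => Lam X u j lab sl D Z L q U U' ω J J') := by
  have hD0 : 0 < D := by
    rw [hD]
    exact Nat.mul_pos hL hq
  obtain ⟨E, hE⟩ : ∃ E, E = (X ×ˢ X).filter (fun e => u e.1 = U ∧ j e.1 = J ∧ u e.2 = U' ∧
    j e.2 = J' ∧ lab e.1 = lab e.2 ∧ GoodPair X u j lab sl D Z L q e.1 e.2) := ⟨_, rfl⟩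
  rw [← hE]
  have hEm : ∀ e ∈ E, e.1 ∈ X ∧ e.2 ∈ X ∧ u e.1 = U ∧ j e.1 = J ∧ u e.2 = U' ∧ j e.2 = J' ∧
      lab e.1 = lab e.2 := by
    intro e he
    rw [hE] at he
    obtain ⟨h1, h2, h3, h4, h5, h6, h7⟩ := Finset.mem_filter.1 he
    obtain ⟨h8, h9⟩ := Finset.mem_product.1 h1
    exact ⟨h8, h9, h2, h3, h4, h5, h6⟩
  have hEg : ∀ e ∈ E, GoodPair X u j lab sl D Z L q e.1 e.2 := by
    intro e he
    rw [hE] at he
    exact (Finset.mem_filter.1 he).2.2.2.2.2.2
  -- double counting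
  have h1 : (Finset.univ.filter (fun ω : Samp D Z × Fin q =>
      Lam X u j lab sl D Z L q U U' ω J J')).card =
      ∑ ω : Samp D Z, (Finset.univ.filter (fun i : Fin q =>
        Lam X u j lab sl D Z L q U U' (ω, i) J J')).card := by
    simp only [Finset.card_filter]
    rw [Fintype.sum_prod_type]
  have h2 : ∑ ω : Samp D Z, (E.filter (fun e => ∃ g, Hit D Z (lab e.1) (sl e.1) (sl e.2) ω g ∧
      GoodAt X u j lab sl D Z L q (u e.1) (u e.2) ω g)).card ≤
      (Finset.univ.filter (fun ω : Samp D Z × Fin q =>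
        Lam X u j lab sl D Z L q U U' ω J J')).card := by
    rw [h1]
    exact Finset.sum_le_sum (fun ω _ =>
      sample_inj X u j lab sl D Z L q hL hD hq hinj U U' J J' E hEm ω)
  have h3 : ∑ ω : Samp D Z, (E.filter (fun e => ∃ g, Hit D Z (lab e.1) (sl e.1) (sl e.2) ω g ∧
      GoodAt X u j lab sl D Z L q (u e.1) (u e.2) ω g)).card =
      ∑ e ∈ E, (Finset.univ.filter (fun ω : Samp D Z => ∃ g,
        Hit D Z (lab e.1) (sl e.1) (sl e.2) ω g ∧
        GoodAt X u j lab sl D Z L q (u e.1) (u e.2) ω g)).card := by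
    simp only [Finset.card_filter]
    rw [Finset.sum_comm]
  have h4 : E.card * Fintype.card (Samp D Z) ≤ 4 * (D * (Z * Z)) *
      ∑ e ∈ E, (Finset.univ.filter (fun ω : Samp D Z => ∃ g,
        Hit D Z (lab e.1) (sl e.1) (sl e.2) ω g ∧
        GoodAt X u j lab sl D Z L q (u e.1) (u e.2) ω g)).card := by
    rw [Finset.mul_sum, ← smul_eq_mul, ← Finset.sum_const]
    apply Finset.sum_le_sum
    intro e he
    obtain ⟨k1, k2, -⟩ := hEm e he
    rw [← card_hit D Z (lab e.1) (sl e.1) (sl e.2) hD0 (hlab _ k1) (hsl _ k1) (hsl _ k2)]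
    have h5 := hEg e he
    unfold GoodPair at h5
    calc _ ≤ (4 * (Finset.univ.filter (fun ω : Samp D Z => ∃ g,
          Hit D Z (lab e.1) (sl e.1) (sl e.2) ω g ∧
          GoodAt X u j lab sl D Z L q (u e.1) (u e.2) ω g)).card) * (D * (Z * Z)) :=
          Nat.mul_le_mul_right _ h5
      _ = _ := by ring
  have h5 : E.card * Fintype.card (Samp D Z) ≤ 4 * (D * (Z * Z)) *
      (Finset.univ.filter (fun ω : Samp D Z × Fin q =>
        Lam X u j lab sl D Z L q U U' ω J J')).card := by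
    refine le_trans h4 (Nat.mul_le_mul_left _ ?_)
    rw [← h3]
    exact h2
  obtain ⟨M, hM⟩ : ∃ M, M = (Finset.univ.filter (fun ω : Samp D Z × Fin q =>
        Lam X u j lab sl D Z L q U U' ω J J')).card := ⟨_, rfl⟩
  have hN : 0 < Fintype.card (Samp D Z) := by
    rw [Fintype.card_fun]
    apply pow_pos
    rw [Fintype.card_prod, Fintype.card_prod, Fintype.card_fin, Fintype.card_fin]
    positivity
  obtain ⟨N, hN'⟩ : ∃ N, N = Fintype.card (Samp D Z) := ⟨_, rfl⟩
  unfold pr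
  rw [Fintype.card_prod, Fintype.card_fin, ← hM, ← hN']
  rw [← hM, ← hN'] at h5
  rw [← hN'] at hN
  have h6 : (E.card : ℝ) * N ≤ 4 * (D * (Z * Z)) * M := by exact_mod_cast h5
  have hDr : (D : ℝ) = L * q := by exact_mod_cast hD
  have hNr : (0 : ℝ) < N := by exact_mod_cast hN
  have hqr : (0 : ℝ) < q := by exact_mod_cast hq
  have hLr : (0 : ℝ) < L := by exact_mod_cast hL
  have hZr : (0 : ℝ) < Z := by exact_mod_cast hZ
  have hDr0 : (0 : ℝ) < D := by exact_mod_cast hD0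
  rw [Nat.cast_mul, le_div_iff₀ (by positivity)]
  have h7 : (L : ℝ) / (4 * (D : ℝ) ^ 2 * (Z : ℝ) ^ 2) * E.card * (N * q) =
      (E.card * N) * (L * q) / (4 * (D : ℝ) ^ 2 * (Z : ℝ) ^ 2) := by ring
  rw [h7, ← hDr, div_le_iff₀ (by positivity)]
  calc (E.card : ℝ) * N * D ≤ 4 * (D * (Z * Z)) * M * D :=
        mul_le_mul_of_nonneg_right h6 hDr0.le
    _ = M * (4 * (D : ℝ) ^ 2 * (Z : ℝ) ^ 2) := by ring

end Pool.Agent.TwinPerm
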