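import Pool.Agent.TwinPerm.Round

set_option autoImplicit false

/-!
# Thin: random thinning of the random set of present edges

Setting: an edge `e ∈ E` is present at `(ω1, ω2)` if `p1 ω1 e` and `p2 ω2 e`. `cc`, `rc` = two edges have the same column key / the same
row key.

Proof. Put `w e = p / (x e * y e) ∈ (0, 1]`. For each `(ω1, ω2)` apply `indep_of_weights` to the set `E_ω` of present edges with the conflict
relation `cc ∨ rc`: there is an independent set `I_ω` with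
`|I_ω| ≥ ∑_{E_ω} w e - (1/2) ∑∑_{cc} w e w e' - (1/2) ∑∑_{rc} w e w e'` (the sum over `cc ∨ rc` is at most the sum of the two sums).
Average over `(ω1, ω2)` (independent): `E ∑ w e = ∑_e (p / (x e y e)) φ x e φ y e = p φ^2 |E|`.
Column conflicts: for `cc e e'`, `Pr(e and e' present) ≤ Pr1(p1 e) * Pr2(p2 e and p2 e') = φ x e * J2(e,e')`, so with `x e = x e'` the contribution of
`e` is at most `∑_{e'} (p / (x e y e)) (p / (x e y e')) φ x e J2(e,e') = (p^2 φ / x e) ∑_{e'} J2(e,e') / (y e y e') ≤ p φ^2 / 4` by `HL`.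
Row conflicts are symmetric. Total: `E |I_ω| ≥ p φ^2 |E| (1 - 1/8 - 1/8)`; choose `(ω1, ω2)` with at least the average.
-/

namespace Pool.Agent.TwinPerm

open Finset

private theorem thin_sum (Ω : Type) [Fintype Ω] [Nonempty Ω] (q : Ω → Prop)
    [DecidablePred q] :
    ∑ ω : Ω, (if q ω then (1 : ℝ) else 0) = (Fintype.card Ω : ℝ) * pr Ω q := by
  unfold pr
  rw [Finset.sum_boole]
  have h : (Fintype.card Ω : ℝ) ≠ 0 := by
    have := Fintype.card_pos (α := Ω)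
    exact_mod_cast this.ne'
  have e : (Finset.univ.filter q).card =
      (@Finset.filter Ω q (fun a => Classical.propDecidable (q a)) Finset.univ).card := by
    congr!
  rw [e]
  field_simp

open Classical in
private theorem thin_point {β : Type} (E : Finset β) (P1 P2 : β → Prop) (cc rc : β → β → Prop)
    (conf : β → β → Prop) (hconf : ∀ e e', conf e e' ↔ cc e e' ∨ rc e e')
    (w : β → ℝ) (hw0 : ∀ e ∈ E, 0 ≤ w e) :
    ∑ e ∈ E, ((if P1 e then (1 : ℝ) else 0) * (if P2 e then (1 : ℝ) else 0)) * w e -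
      (1 / 2) * ∑ e ∈ E, ∑ e' ∈ E.filter (fun e' => e' ≠ e ∧ cc e e'),
        (if P1 e then (1 : ℝ) else 0) * (if P2 e ∧ P2 e' then (1 : ℝ) else 0) * (w e * w e') -
      (1 / 2) * ∑ e ∈ E, ∑ e' ∈ E.filter (fun e' => e' ≠ e ∧ rc e e'),
        (if P1 e ∧ P1 e' then (1 : ℝ) else 0) * (if P2 e then (1 : ℝ) else 0) * (w e * w e') ≤
    ∑ e ∈ E.filter (fun e => P1 e ∧ P2 e), w e -
      (1 / 2) * ∑ e ∈ E.filter (fun e => P1 e ∧ P2 e),
        ∑ e' ∈ (E.filter (fun e => P1 e ∧ P2 e)).filter (fun e' => e' ≠ e ∧ conf e e'),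
          w e * w e' := by
  have hA : ∑ e ∈ E, ((if P1 e then (1 : ℝ) else 0) * (if P2 e then (1 : ℝ) else 0)) * w e =
      ∑ e ∈ E.filter (fun e => P1 e ∧ P2 e), w e := by
    rw [Finset.sum_filter]
    apply Finset.sum_congr rfl
    intro e _
    by_cases h1 : P1 e <;> by_cases h2 : P2 e <;> simp [h1, h2]
  have hB : ∑ e ∈ E.filter (fun e => P1 e ∧ P2 e),
        ∑ e' ∈ (E.filter (fun e => P1 e ∧ P2 e)).filter (fun e' => e' ≠ e ∧ conf e e'),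
          w e * w e' ≤
      ∑ e ∈ E, ∑ e' ∈ E.filter (fun e' => e' ≠ e ∧ cc e e'),
        (if P1 e then (1 : ℝ) else 0) * (if P2 e ∧ P2 e' then (1 : ℝ) else 0) * (w e * w e') +
      ∑ e ∈ E, ∑ e' ∈ E.filter (fun e' => e' ≠ e ∧ rc e e'),
        (if P1 e ∧ P1 e' then (1 : ℝ) else 0) * (if P2 e then (1 : ℝ) else 0) * (w e * w e') := by
    rw [Finset.sum_filter, ← Finset.sum_add_distrib]
    apply Finset.sum_le_sum
    intro e he
    rw [Finset.filter_filter, Finset.sum_filter, Finset.sum_filter, Finset.sum_filter,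
      ← Finset.sum_add_distrib]
    have hnn : ∀ e' ∈ E, 0 ≤ w e * w e' := fun e' he' => mul_nonneg (hw0 e he) (hw0 e' he')
    by_cases h1 : P1 e ∧ P2 e
    · rw [if_pos h1]
      apply Finset.sum_le_sum
      intro e' he'
      have h0 := hnn e' he'
      obtain ⟨h1a, h1b⟩ := h1
      by_cases h2 : P1 e' <;> by_cases h3 : P2 e' <;> by_cases h4 : e' = e <;>
        by_cases h5 : cc e e' <;> by_cases h6 : rc e e' <;>
        simp [h1a, h1b, h2, h3, h4, h5, h6, hconf] <;> linarith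
    · rw [if_neg h1]
      apply Finset.sum_nonneg
      intro e' he'
      have h0 := hnn e' he'
      apply add_nonneg
      · split_ifs <;> positivity
      · split_ifs <;> positivity
  rw [hA]
  linarith

private theorem thin_avg (Ω1 Ω2 : Type) [Fintype Ω1] [Fintype Ω2] [Nonempty Ω1] [Nonempty Ω2]
    (q1 : Ω1 → Prop) (q2 : Ω2 → Prop) [DecidablePred q1] [DecidablePred q2] (c : ℝ) :
    ∑ ω1 : Ω1, ∑ ω2 : Ω2, (if q1 ω1 then (1 : ℝ) else 0) * (if q2 ω2 then (1 : ℝ) else 0) * c =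
      (Fintype.card Ω1 : ℝ) * (Fintype.card Ω2 : ℝ) * (pr Ω1 q1 * pr Ω2 q2 * c) := by
  have h : ∀ ω1 : Ω1, ∑ ω2 : Ω2, (if q1 ω1 then (1 : ℝ) else 0) *
      (if q2 ω2 then (1 : ℝ) else 0) * c =
      (if q1 ω1 then (1 : ℝ) else 0) * ((Fintype.card Ω2 : ℝ) * pr Ω2 q2 * c) := by
    intro ω1
    rw [← thin_sum Ω2 q2, ← Finset.sum_mul, ← Finset.mul_sum]
    ring
  rw [Finset.sum_congr rfl fun ω1 _ => h ω1, ← Finset.sum_mul, thin_sum]
  ring

open Classical in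
theorem thin {β : Type} (Ω1 Ω2 : Type) [Fintype Ω1] [Fintype Ω2] [Nonempty Ω1] [Nonempty Ω2]
    (E : Finset β) (p1 : Ω1 → β → Prop) (p2 : Ω2 → β → Prop) (cc rc : β → β → Prop)
    (hcc : ∀ e e', cc e e' → cc e' e) (hrc : ∀ e e', rc e e' → rc e' e)
    (x y : β → ℝ) (φ p : ℝ) (hφ : 0 < φ) (hp : 0 < p) (hx : ∀ e ∈ E, 0 < x e) (hy : ∀ e ∈ E, 0 < y e)
    (h1 : ∀ e ∈ E, pr Ω1 (fun ω => p1 ω e) = φ * x e) (h2 : ∀ e ∈ E, pr Ω2 (fun ω => p2 ω e) = φ * y e)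
    (hxc : ∀ e ∈ E, ∀ e' ∈ E, cc e e' → x e = x e') (hyc : ∀ e ∈ E, ∀ e' ∈ E, rc e e' → y e = y e')
    (hw : ∀ e ∈ E, p ≤ x e * y e)
    (HL : ∀ e ∈ E, ∑ e' ∈ E.filter (fun e' => e' ≠ e ∧ cc e e'),
      pr Ω2 (fun ω => p2 ω e ∧ p2 ω e') / (y e * y e') ≤ φ * x e / (4 * p))
    (HR : ∀ e ∈ E, ∑ e' ∈ E.filter (fun e' => e' ≠ e ∧ rc e e'),
      pr Ω1 (fun ω => p1 ω e ∧ p1 ω e') / (x e * x e') ≤ φ * y e / (4 * p)) :
    ∃ (ω1 : Ω1) (ω2 : Ω2), ∃ M ⊆ E, (∀ e ∈ M, p1 ω1 e ∧ p2 ω2 e) ∧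
      (∀ e ∈ M, ∀ e' ∈ M, e ≠ e' → ¬ cc e e' ∧ ¬ rc e e') ∧
      3 / 4 * (p * φ ^ 2 * (E.card : ℝ)) ≤ (M.card : ℝ) := by
  set w : β → ℝ := fun e => p / (x e * y e) with hwdef
  have hw0 : ∀ e ∈ E, 0 ≤ w e := fun e he => by
    have := hx e he
    have := hy e he
    rw [hwdef]
    positivity
  have hw1 : ∀ e ∈ E, w e ≤ 1 := fun e he => by
    have h3 := hx e he
    have h4 := hy e he
    rw [hwdef]
    exact (div_le_one (by positivity)).2 (hw e he)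
  have hn1 : (0 : ℝ) < Fintype.card Ω1 := by
    exact_mod_cast Fintype.card_pos (α := Ω1)
  have hn2 : (0 : ℝ) < Fintype.card Ω2 := by
    exact_mod_cast Fintype.card_pos (α := Ω2)
  let G : Ω1 → Ω2 → ℝ := fun ω1 ω2 =>
    ∑ e ∈ E, ((if p1 ω1 e then (1 : ℝ) else 0) * (if p2 ω2 e then (1 : ℝ) else 0)) * w e -
      (1 / 2) * ∑ e ∈ E, ∑ e' ∈ E.filter (fun e' => e' ≠ e ∧ cc e e'),
        (if p1 ω1 e then (1 : ℝ) else 0) * (if p2 ω2 e ∧ p2 ω2 e' then (1 : ℝ) else 0) *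
          (w e * w e') -
      (1 / 2) * ∑ e ∈ E, ∑ e' ∈ E.filter (fun e' => e' ≠ e ∧ rc e e'),
        (if p1 ω1 e ∧ p1 ω1 e' then (1 : ℝ) else 0) * (if p2 ω2 e then (1 : ℝ) else 0) *
          (w e * w e')
  -- the average of `G`
  have hT1 : ∑ ω1 : Ω1, ∑ ω2 : Ω2, ∑ e ∈ E,
      ((if p1 ω1 e then (1 : ℝ) else 0) * (if p2 ω2 e then (1 : ℝ) else 0)) * w e =
      (Fintype.card Ω1 : ℝ) * (Fintype.card Ω2 : ℝ) * ∑ e ∈ E, p * φ ^ 2 := by
    rw [Finset.mul_sum]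
    calc _ = ∑ ω1 : Ω1, ∑ e ∈ E, ∑ ω2 : Ω2,
          ((if p1 ω1 e then (1 : ℝ) else 0) * (if p2 ω2 e then (1 : ℝ) else 0)) * w e :=
          Finset.sum_congr rfl fun ω1 _ => Finset.sum_comm
      _ = ∑ e ∈ E, ∑ ω1 : Ω1, ∑ ω2 : Ω2,
          ((if p1 ω1 e then (1 : ℝ) else 0) * (if p2 ω2 e then (1 : ℝ) else 0)) * w e :=
          Finset.sum_comm
      _ = _ := by
          apply Finset.sum_congr rfl
          intro e he
          rw [thin_avg Ω1 Ω2 (fun ω => p1 ω e) (fun ω => p2 ω e) (w e), h1 e he, h2 e he]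
          have h3 := hx e he
          have h4 := hy e he
          rw [hwdef]
          field_simp
  have hT2 : ∑ ω1 : Ω1, ∑ ω2 : Ω2, ∑ e ∈ E, ∑ e' ∈ E.filter (fun e' => e' ≠ e ∧ cc e e'),
        (if p1 ω1 e then (1 : ℝ) else 0) * (if p2 ω2 e ∧ p2 ω2 e' then (1 : ℝ) else 0) *
          (w e * w e') ≤
      (Fintype.card Ω1 : ℝ) * (Fintype.card Ω2 : ℝ) * ∑ e ∈ E, p * φ ^ 2 / 4 := by
    rw [Finset.mul_sum]
    have hsw : ∑ ω1 : Ω1, ∑ ω2 : Ω2, ∑ e ∈ E, ∑ e' ∈ E.filter (fun e' => e' ≠ e ∧ cc e e'),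
        (if p1 ω1 e then (1 : ℝ) else 0) * (if p2 ω2 e ∧ p2 ω2 e' then (1 : ℝ) else 0) *
          (w e * w e') =
        ∑ e ∈ E, ∑ e' ∈ E.filter (fun e' => e' ≠ e ∧ cc e e'), ∑ ω1 : Ω1, ∑ ω2 : Ω2,
        (if p1 ω1 e then (1 : ℝ) else 0) * (if p2 ω2 e ∧ p2 ω2 e' then (1 : ℝ) else 0) *
          (w e * w e') := by
      rw [Finset.sum_congr rfl fun ω1 _ => Finset.sum_comm, Finset.sum_comm]
      apply Finset.sum_congr rfl
      intro e _
      rw [Finset.sum_congr rfl fun ω1 _ => Finset.sum_comm, Finset.sum_comm]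
    rw [hsw]
    apply Finset.sum_le_sum
    intro e he
    have h3 := hx e he
    have h4 := hy e he
    have e1 : ∑ e' ∈ E.filter (fun e' => e' ≠ e ∧ cc e e'), ∑ ω1 : Ω1, ∑ ω2 : Ω2,
        (if p1 ω1 e then (1 : ℝ) else 0) * (if p2 ω2 e ∧ p2 ω2 e' then (1 : ℝ) else 0) *
          (w e * w e') =
        (Fintype.card Ω1 : ℝ) * (Fintype.card Ω2 : ℝ) * (p ^ 2 * φ / x e) *
          ∑ e' ∈ E.filter (fun e' => e' ≠ e ∧ cc e e'),
            pr Ω2 (fun ω => p2 ω e ∧ p2 ω e') / (y e * y e') := by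
      rw [Finset.mul_sum]
      apply Finset.sum_congr rfl
      intro e' he'
      rw [Finset.mem_filter] at he'
      rw [thin_avg Ω1 Ω2 (fun ω => p1 ω e) (fun ω => p2 ω e ∧ p2 ω e') (w e * w e'), h1 e he]
      have h5 := hx e' he'.1
      have h6 := hy e' he'.1
      have h7 := hxc e he e' he'.1 he'.2.2
      rw [hwdef]
      simp only
      rw [← h7]
      field_simp
    rw [e1]
    have h5 := HL e he
    calc _ ≤ (Fintype.card Ω1 : ℝ) * (Fintype.card Ω2 : ℝ) * (p ^ 2 * φ / x e) *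
          (φ * x e / (4 * p)) := mul_le_mul_of_nonneg_left h5 (by positivity)
      _ = _ := by
          field_simp
  have hT3 : ∑ ω1 : Ω1, ∑ ω2 : Ω2, ∑ e ∈ E, ∑ e' ∈ E.filter (fun e' => e' ≠ e ∧ rc e e'),
        (if p1 ω1 e ∧ p1 ω1 e' then (1 : ℝ) else 0) * (if p2 ω2 e then (1 : ℝ) else 0) *
          (w e * w e') ≤
      (Fintype.card Ω1 : ℝ) * (Fintype.card Ω2 : ℝ) * ∑ e ∈ E, p * φ ^ 2 / 4 := by
    rw [Finset.mul_sum]
    have hsw : ∑ ω1 : Ω1, ∑ ω2 : Ω2, ∑ e ∈ E, ∑ e' ∈ E.filter (fun e' => e' ≠ e ∧ rc e e'),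
        (if p1 ω1 e ∧ p1 ω1 e' then (1 : ℝ) else 0) * (if p2 ω2 e then (1 : ℝ) else 0) *
          (w e * w e') =
        ∑ e ∈ E, ∑ e' ∈ E.filter (fun e' => e' ≠ e ∧ rc e e'), ∑ ω1 : Ω1, ∑ ω2 : Ω2,
        (if p1 ω1 e ∧ p1 ω1 e' then (1 : ℝ) else 0) * (if p2 ω2 e then (1 : ℝ) else 0) *
          (w e * w e') := by
      rw [Finset.sum_congr rfl fun ω1 _ => Finset.sum_comm, Finset.sum_comm]
      apply Finset.sum_congr rfl
      intro e _
      rw [Finset.sum_congr rfl fun ω1 _ => Finset.sum_comm, Finset.sum_comm]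
    rw [hsw]
    apply Finset.sum_le_sum
    intro e he
    have h3 := hx e he
    have h4 := hy e he
    have e1 : ∑ e' ∈ E.filter (fun e' => e' ≠ e ∧ rc e e'), ∑ ω1 : Ω1, ∑ ω2 : Ω2,
        (if p1 ω1 e ∧ p1 ω1 e' then (1 : ℝ) else 0) * (if p2 ω2 e then (1 : ℝ) else 0) *
          (w e * w e') =
        (Fintype.card Ω1 : ℝ) * (Fintype.card Ω2 : ℝ) * (p ^ 2 * φ / y e) *
          ∑ e' ∈ E.filter (fun e' => e' ≠ e ∧ rc e e'),
            pr Ω1 (fun ω => p1 ω e ∧ p1 ω e') / (x e * x e') := by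
      rw [Finset.mul_sum]
      apply Finset.sum_congr rfl
      intro e' he'
      rw [Finset.mem_filter] at he'
      rw [thin_avg Ω1 Ω2 (fun ω => p1 ω e ∧ p1 ω e') (fun ω => p2 ω e) (w e * w e'), h2 e he]
      have h5 := hx e' he'.1
      have h6 := hy e' he'.1
      have h7 := hyc e he e' he'.1 he'.2.2
      rw [hwdef]
      simp only
      rw [← h7]
      field_simp
    rw [e1]
    have h5 := HR e he
    calc _ ≤ (Fintype.card Ω1 : ℝ) * (Fintype.card Ω2 : ℝ) * (p ^ 2 * φ / y e) *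
          (φ * y e / (4 * p)) := mul_le_mul_of_nonneg_left h5 (by positivity)
      _ = _ := by
          field_simp
  have hsumG : ∑ ω1 : Ω1, ∑ ω2 : Ω2, 3 / 4 * (p * φ ^ 2 * (E.card : ℝ)) ≤
      ∑ ω1 : Ω1, ∑ ω2 : Ω2, G ω1 ω2 := by
    have hG : ∑ ω1 : Ω1, ∑ ω2 : Ω2, G ω1 ω2 =
        ∑ ω1 : Ω1, ∑ ω2 : Ω2, ∑ e ∈ E,
          ((if p1 ω1 e then (1 : ℝ) else 0) * (if p2 ω2 e then (1 : ℝ) else 0)) * w e -
        (1 / 2) * ∑ ω1 : Ω1, ∑ ω2 : Ω2, ∑ e ∈ E, ∑ e' ∈ E.filter (fun e' => e' ≠ e ∧ cc e e'),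
          (if p1 ω1 e then (1 : ℝ) else 0) * (if p2 ω2 e ∧ p2 ω2 e' then (1 : ℝ) else 0) *
            (w e * w e') -
        (1 / 2) * ∑ ω1 : Ω1, ∑ ω2 : Ω2, ∑ e ∈ E, ∑ e' ∈ E.filter (fun e' => e' ≠ e ∧ rc e e'),
          (if p1 ω1 e ∧ p1 ω1 e' then (1 : ℝ) else 0) * (if p2 ω2 e then (1 : ℝ) else 0) *
            (w e * w e') := by
      simp only [G, Finset.sum_sub_distrib, Finset.mul_sum]
    rw [hG, hT1]
    simp only [Finset.sum_const, nsmul_eq_mul, Finset.card_univ] at hT2 hT3 ⊢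
    nlinarith
  obtain ⟨ω1, ω2, hω⟩ : ∃ ω1 ω2, 3 / 4 * (p * φ ^ 2 * (E.card : ℝ)) ≤ G ω1 ω2 := by
    by_contra hcon
    push Not at hcon
    have : ∑ ω1 : Ω1, ∑ ω2 : Ω2, G ω1 ω2 <
        ∑ ω1 : Ω1, ∑ ω2 : Ω2, 3 / 4 * (p * φ ^ 2 * (E.card : ℝ)) := by
      apply Finset.sum_lt_sum_of_nonempty Finset.univ_nonempty
      intro ω1 _
      apply Finset.sum_lt_sum_of_nonempty Finset.univ_nonempty
      intro ω2 _
      exact hcon ω1 ω2
    linarith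
  obtain ⟨I, hI, hind, hcard⟩ := indep_of_weights (E.filter (fun e => p1 ω1 e ∧ p2 ω2 e))
    (fun e e' => cc e e' ∨ rc e e') (fun e e' h => h.imp (hcc e e') (hrc e e')) w
    (fun e he => hw0 e (Finset.mem_filter.1 he).1) (fun e he => hw1 e (Finset.mem_filter.1 he).1)
  refine ⟨ω1, ω2, I, hI.trans (Finset.filter_subset _ _), ?_, ?_, ?_⟩
  · intro e he
    exact (Finset.mem_filter.1 (hI he)).2
  · intro e he e' he' hne
    exact not_or.1 (hind e he e' he' hne)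
  · refine hω.trans (le_trans ?_ hcard)
    exact thin_point E (p1 ω1) (p2 ω2) cc rc (fun e e' => cc e e' ∨ rc e e')
      (fun e e' => Iff.rfl) w hw0

end Pool.Agent.TwinPerm
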