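import Pool.Agent.TwinPerm.Align
import Pool.Agent.TwinPerm.EdgeCount
import Pool.Agent.TwinPerm.Degree
import Pool.Agent.TwinPerm.Thin
import Pool.Agent.TwinPerm.RandRel
import Pool.Agent.TwinPerm.Light
import Pool.Agent.TwinPerm.Disj
import Pool.Agent.TwinPerm.Num

set_option autoImplicit false

/-!
# Scheme: the light case
-/

namespace Pool.Agent.TwinPerm

open Finset

/-- one side (columns or rows): alignment and random relation. `x` = the coordinate of the side, `y` = the other coordinate -/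
theorem side (a b th d l k h N r : ℕ) (hN : N = a + b + th) (hk : k + 2 * d = b + th)
    (hh : h + 2 * d = a + th) (hda : d ≤ a) (hld : l ≤ d) (hth : 1 ≤ th)
    (hr : 12 ≤ r) {α : Type} (X : Finset α) (x y : α → ℕ)
    (hyN : ∀ P ∈ X, y P < r ^ N)
    (Hc : ∀ c, (X.filter (fun P => x P / r ^ (a - d) = c)).card ≤ r ^ (a - d))
    (hsl : ∃ sl : α → ℕ, (∀ P ∈ X, sl P < 2 * r ^ h) ∧ ∀ P ∈ X, ∀ Q ∈ X, x P / r ^ a = x Q / r ^ a →
      y P / r ^ (N - 2 * d) = y Q / r ^ (N - 2 * d) → sl P = sl Q → P = Q) :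
    ∃ (Ω : Type) (_ : Fintype Ω) (_ : Nonempty Ω) (κ : Ω → ℕ → ℕ → Prop) (lam : ℕ → ℕ → ℝ) (good : α → α → Prop),
      (∀ ω c c' e e', κ ω c c' → κ ω e e' → (c = e ∧ c' = e') ∨ (c < e ∧ c' < e') ∨ (e < c ∧ e' < c')) ∧
      (∀ ω c c' e e' i, κ ω c c' → κ ω e e' → c / r ^ d / r ^ i = e / r ^ d / r ^ i →
        c' / r ^ d / r ^ i = e' / r ^ d / r ^ i) ∧
      (∀ c c', c / r ^ d < r ^ (2 * d) * r ^ k → c' / r ^ d < r ^ (2 * d) * r ^ k →
        c / r ^ d / r ^ k = c' / r ^ d / r ^ k →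
        pr Ω (fun ω => κ ω c c') = ((2 * (r : ℝ) - 1) ^ k)⁻¹ * lam c c') ∧
      (∀ c c' e e' i, i ≤ k → c / r ^ d / r ^ i ≠ e / r ^ d / r ^ i →
        pr Ω (fun ω => κ ω c c' ∧ κ ω e e') ≤ ((2 * (r : ℝ) - 1) ^ k)⁻¹ * ((r : ℝ) ^ i)⁻¹ *
          (lam c c' * lam e e')) ∧
      (∀ c c', 0 ≤ lam c c') ∧
      (open Classical in ∀ c c', (r : ℝ) ^ l / (4 * ((r : ℝ) ^ d) ^ 2 * (2 * (r : ℝ) ^ h) ^ 2) *
        (((X ×ˢ X).filter (fun f => x f.1 / r ^ (a - d) = c ∧ x f.2 / r ^ (a - d) = c' ∧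
          y f.1 / r ^ (N - 2 * d) = y f.2 / r ^ (N - 2 * d) ∧ good f.1 f.2)).card : ℝ) ≤ lam c c') ∧
      (open Classical in ∀ U1 U2 U3, ((X ×ˢ X ×ˢ X).filter (fun t => x t.1 / r ^ a = U1 ∧ x t.2.1 / r ^ a = U2 ∧
        x t.2.2 / r ^ a = U3 ∧ y t.1 / r ^ (N - 2 * d) = y t.2.1 / r ^ (N - 2 * d) ∧
        y t.2.1 / r ^ (N - 2 * d) = y t.2.2 / r ^ (N - 2 * d) ∧ ¬ good t.1 t.2.1 ∧ ¬ good t.1 t.2.2 ∧
        ¬ good t.2.1 t.2.2)).card ≤ 8 * (r ^ l) ^ 3 * r ^ d * (2 * r ^ h) ^ 3) := by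
  classical
  obtain ⟨sl, hsl1, hsl2⟩ := hsl
  have hr0 : 0 < r := by omega
  have hdiv : ∀ P, x P / r ^ (a - d) / r ^ d = x P / r ^ a := by
    intro P
    rw [Nat.div_div_eq_div_mul, ← pow_add, Nat.sub_add_cancel hda]
  have hq : (r : ℕ) ^ d = r ^ l * r ^ (d - l) := by
    rw [← pow_add]; congr 1; omega
  have hcomb : ∀ P U J, x P / r ^ a = U → x P / r ^ (a - d) % r ^ d = J → x P / r ^ (a - d) = U * r ^ d + J := by
    intro P U J h1 h2
    have := Nat.div_add_mod (x P / r ^ (a - d)) (r ^ d)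
    rw [hdiv, h1, h2] at this
    rw [← this]; ring
  obtain ⟨Ωc, i1, i2, Λ, good, hch, hpr, htri⟩ := alignment X (fun P => x P / r ^ a)
    (fun P => x P / r ^ (a - d) % r ^ d) (fun P => y P / r ^ (N - 2 * d)) sl (r ^ d) (2 * r ^ h) (r ^ l)
    (r ^ (d - l)) (pow_pos hr0 l) hq (pow_pos hr0 _) (Nat.mul_pos (by norm_num) (pow_pos hr0 _))
    (by
      intro P hP
      rw [Nat.div_lt_iff_lt_mul (pow_pos hr0 _), ← pow_add, ← pow_add]
      have := hyN P hP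
      convert this using 2
      omega)
    hsl1
    (by
      intro P hP Q hQ h1 h2 h3
      exact hsl2 P hP Q hQ h1 h2 h3)
    (by
      intro U J
      have h1 : (X.filter (fun P => x P / r ^ a = U ∧ x P / r ^ (a - d) % r ^ d = J)).card ≤
          (X.filter (fun P => x P / r ^ (a - d) = U * r ^ d + J)).card := by
        apply card_le_card
        intro P hP
        simp only [mem_filter] at hP ⊢
        exact ⟨hP.1, hcomb P U J hP.2.1 hP.2.2⟩
      have h2 := h1.trans (Hc _)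
      have h3 : r ^ d * (2 * r ^ h) = 2 * r ^ (a - d + th) := by
        have : r ^ d * r ^ h = r ^ (a - d + th) := by rw [← pow_add]; congr 1; omega
        calc r ^ d * (2 * r ^ h) = 2 * (r ^ d * r ^ h) := by ring
          _ = _ := by rw [this]
      rw [h3, pow_add]
      have h4 : r ^ 1 ≤ r ^ th := Nat.pow_le_pow_right hr0 hth
      have h5 : 12 ≤ r ^ th := by
        have : r ^ 1 = r := pow_one r
        omega
      calc 24 * _ ≤ 24 * r ^ (a - d) := Nat.mul_le_mul_left _ h2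
        _ = 2 * (r ^ (a - d) * 12) := by ring
        _ ≤ 2 * (r ^ (a - d) * r ^ th) := Nat.mul_le_mul_left _ (Nat.mul_le_mul_left _ h5))
  obtain ⟨Ω, i3, i4, κ, k1, k2, k3, k4⟩ := randRel r k (r ^ (2 * d)) (r ^ d) (by omega) (pow_pos hr0 _) Ωc Λ hch
  refine ⟨Ω, i3, i4, κ, fun c c' => pr Ωc (fun ω => Λ (c / r ^ d) (c' / r ^ d) ω (c % r ^ d) (c' % r ^ d)), good,
    k1, k2, k3, k4, fun c c' => pr_nonneg _ _, ?_, ?_⟩
  · intro c c'
    have := hpr (c / r ^ d) (c' / r ^ d) (c % r ^ d) (c' % r ^ d)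
    refine le_trans (le_of_eq ?_) this
    push_cast
    congr 3
    ext f
    simp only [mem_filter, mem_product, and_congr_right_iff]
    intro hf
    constructor
    · rintro ⟨h1, h2, h3, h4⟩
      refine ⟨?_, ?_, ?_, ?_, h3, h4⟩
      · rw [← hdiv, h1]
      · rw [h1]
      · rw [← hdiv, h2]
      · rw [h2]
    · rintro ⟨h1, h2, h3, h4, h5, h6⟩
      refine ⟨?_, ?_, h5, h6⟩
      · rw [hcomb _ _ _ h1 h2]
        have := Nat.div_add_mod c (r ^ d)
        rw [mul_comm]; exact this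
      · rw [hcomb _ _ _ h3 h4]
        have := Nat.div_add_mod c' (r ^ d)
        rw [mul_comm]; exact this
  · intro U1 U2 U3
    exact htri U1 U2 U3

/-- symmetric form of the degree condition: `z` = coordinate of this side, `y` = the other coordinate -/
theorem degree_side (a b th d l k h N g r : ℕ) (hN : N = a + b + th) (hk : k + 2 * d = b + th)
    (hh : h + 2 * d = a + th) (hda : d ≤ a) (hab : a ≤ b) (hk1 : 1 ≤ k)
    (hg : g + 2 * b = 2 * a + k + 1) (hr : 1 ≤ r) {α : Type} (X : Finset α) (x y : α → ℕ)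
    (hyN : ∀ P ∈ X, y P < r ^ N)
    (Hx : ∀ U β h', (X.filter (fun P => x P / r ^ a = U ∧ y P / r ^ h' = β)).card ≤ 2 * r ^ (h' - b))
    (g1 : α → α → Prop) (E : Finset (α × α)) (hE : E ⊆ X ×ˢ X)
    (hEs : ∀ e ∈ E, y e.1 / r ^ (N - 2 * d) = y e.2 / r ^ (N - 2 * d) ∧ g1 e.1 e.2)
    (Ω : Type) [Fintype Ω] (κ : Ω → ℕ → ℕ → Prop) (lam : ℕ → ℕ → ℝ)
    (k2 : ∀ ω c c' e e' i, κ ω c c' → κ ω e e' → c / r ^ d / r ^ i = e / r ^ d / r ^ i →
        c' / r ^ d / r ^ i = e' / r ^ d / r ^ i)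
    (k3 : ∀ c c', c / r ^ d < r ^ (2 * d) * r ^ k → c' / r ^ d < r ^ (2 * d) * r ^ k →
        c / r ^ d / r ^ k = c' / r ^ d / r ^ k →
        pr Ω (fun ω => κ ω c c') = ((2 * (r : ℝ) - 1) ^ k)⁻¹ * lam c c')
    (k4 : ∀ c c' e e' i, i ≤ k → c / r ^ d / r ^ i ≠ e / r ^ d / r ^ i →
        pr Ω (fun ω => κ ω c c' ∧ κ ω e e') ≤ ((2 * (r : ℝ) - 1) ^ k)⁻¹ * ((r : ℝ) ^ i)⁻¹ *
          (lam c c' * lam e e'))
    (hlam : ∀ e ∈ E, 0 < lam (y e.1 / r ^ (a - d)) (y e.2 / r ^ (a - d)))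
    (X0 p : ℝ) (hX0 : 0 < X0)
    (hp : p = (r : ℝ) ^ (l + b) / ((r : ℝ) ^ (2 * a + 7 * th + 1) * 251658240 * k)) (e : α × α) (he : e ∈ E)
    (hA : open Classical in (r : ℝ) ^ l / (4 * ((r : ℝ) ^ d) ^ 2 * (2 * (r : ℝ) ^ h) ^ 2) *
        (((X ×ˢ X).filter (fun f => x f.1 / r ^ (a - d) = x e.1 / r ^ (a - d) ∧
          x f.2 / r ^ (a - d) = x e.2 / r ^ (a - d) ∧
          y f.1 / r ^ (N - 2 * d) = y f.2 / r ^ (N - 2 * d) ∧ g1 f.1 f.2)).card : ℝ) ≤ X0)
    (hB : open Classical in r ^ (2 * a) ≤ 245760 * r ^ (4 * th + 4 * d) * ((X ×ˢ X).filter (fun f =>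
        x f.1 / r ^ (a - d) = x e.1 / r ^ (a - d) ∧ x f.2 / r ^ (a - d) = x e.2 / r ^ (a - d) ∧
        y f.1 / r ^ (N - 2 * d) = y f.2 / r ^ (N - 2 * d) ∧ g1 f.1 f.2)).card)
    (hC : 24 * p ≤ X0 * lam (y e.1 / r ^ (a - d)) (y e.2 / r ^ (a - d))) :
    open Classical in ∑ e' ∈ E.filter (fun e' => e' ≠ e ∧ (x e.1 / r ^ (a - d) = x e'.1 / r ^ (a - d) ∧
        x e.2 / r ^ (a - d) = x e'.2 / r ^ (a - d))),
      pr Ω (fun ω => κ ω (y e.1 / r ^ (a - d)) (y e.2 / r ^ (a - d)) ∧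
        κ ω (y e'.1 / r ^ (a - d)) (y e'.2 / r ^ (a - d))) /
        (lam (y e.1 / r ^ (a - d)) (y e.2 / r ^ (a - d)) * lam (y e'.1 / r ^ (a - d)) (y e'.2 / r ^ (a - d))) ≤
      ((2 * (r : ℝ) - 1) ^ k)⁻¹ * X0 / (4 * p) := by
  classical
  have hr0 : 0 < r := by omega
  have hrR : (1 : ℝ) ≤ r := by exact_mod_cast hr
  have hNk : N - 2 * d = a + k := by omega
  have hdivy : ∀ P, y P / r ^ (a - d) / r ^ d = y P / r ^ a := by
    intro P
    rw [Nat.div_div_eq_div_mul, ← pow_add, Nat.sub_add_cancel hda]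
  have hphi : (0 : ℝ) < ((2 * (r : ℝ) - 1) ^ k)⁻¹ := by
    apply inv_pos.mpr
    apply pow_pos; linarith
  have hylt : ∀ P ∈ X, y P / r ^ (a - d) / r ^ d < r ^ (2 * d) * r ^ k := by
    intro P hP
    rw [hdivy, Nat.div_lt_iff_lt_mul (pow_pos hr0 _), ← pow_add, ← pow_add]
    have := hyN P hP
    convert this using 2
    omega
  have hEX : ∀ e' ∈ E, e'.1 ∈ X ∧ e'.2 ∈ X := fun e' he' => mem_product.mp (hE he')
  have hprE : ∀ e' ∈ E, pr Ω (fun ω => κ ω (y e'.1 / r ^ (a - d)) (y e'.2 / r ^ (a - d))) =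
      ((2 * (r : ℝ) - 1) ^ k)⁻¹ * lam (y e'.1 / r ^ (a - d)) (y e'.2 / r ^ (a - d)) := by
    intro e' he'
    apply k3 _ _ (hylt _ (hEX e' he').1) (hylt _ (hEX e' he').2)
    rw [hdivy, hdivy, Nat.div_div_eq_div_mul, Nat.div_div_eq_div_mul, ← pow_add, ← hNk]
    exact (hEs e' he').1
  have hD := degree_sum a b d k r hr0 hda hab X x y Hx g1 E hE (by rw [← hNk]; exact hEs)
    (fun e' => pr Ω (fun ω => κ ω (y e.1 / r ^ (a - d)) (y e.2 / r ^ (a - d)) ∧
        κ ω (y e'.1 / r ^ (a - d)) (y e'.2 / r ^ (a - d))))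
    (fun e' => lam (y e'.1 / r ^ (a - d)) (y e'.2 / r ^ (a - d))) (((2 * (r : ℝ) - 1) ^ k)⁻¹) hphi hlam e he
    (fun e' _ => pr_nonneg _ _)
    (fun e' he' => (pr_mono _ _ _ (fun ω hω => hω.2)).trans (le_of_eq (hprE e' he')))
    (by
      intro e' he' i hi hne
      apply k4 _ _ _ _ i hi
      rw [hdivy, hdivy]
      exact hne)
    (by
      intro e' he' hJ i hi
      obtain ⟨ω, hω1, hω2⟩ := pr_ne_zero _ _ hJ
      have := k2 ω _ _ _ _ i hω1 hω2
      rw [hdivy, hdivy, hdivy, hdivy] at this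
      exact this hi)
  refine hD.trans ?_
  rw [← hNk]
  have hB' : (r : ℝ) ^ (2 * a) ≤ 245760 * (r : ℝ) ^ (4 * th + 4 * d) *
    (((X ×ˢ X).filter (fun f =>
        x f.1 / r ^ (a - d) = x e.1 / r ^ (a - d) ∧ x f.2 / r ^ (a - d) = x e.2 / r ^ (a - d) ∧
        y f.1 / r ^ (N - 2 * d) = y f.2 / r ^ (N - 2 * d) ∧ g1 f.1 f.2)).card : ℝ) := by
    exact_mod_cast hB
  exact num_HL a b th d l k h g hk hh hg hk1 r hrR _ X0 _ _ p _ hphi hX0 (hlam e he) (Nat.cast_nonneg _)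
    (sum_bound a b k g r hrR hg) hp hA hB' hC

theorem scheme (a b th d l k h N g : ℕ) (hN : N = a + b + th) (hk : k + 2 * d = b + th)
    (hh : h + 2 * d = a + th) (hda : d ≤ a) (hld : l ≤ d) (hd : 6 * th + 3 * l + 1 ≤ d)
    (hb : 2 * d + 4 * th + 1 ≤ b)
    (hg : g + 2 * b = 2 * a + k + 1) (hth : 1 ≤ th) (hab : a ≤ b) (hk1 : 1 ≤ k)
    (hfin : b + 5 * th + 4 * d ≤ l + 2 * a) (r : ℕ) (hr : 2621440 ≤ r) (σ : Equiv.Perm (Fin (r ^ N)))
    (hlight : r ^ N ≤ 2 * (univ.filter (fun P : Fin (r ^ N) => boxCard σ (r ^ a) (r ^ b) P ≤ 2 ∧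
      boxCard σ (r ^ b) (r ^ a) P ≤ 2)).card) :
    ∃ T : Finset (Fin (r ^ N) × Fin (r ^ N)), IsTwinSet σ T ∧
      (r : ℝ) ^ (l + b) ≤ 61847529062400 * k * 4 ^ k * (r : ℝ) ^ (11 * th + 1) * (T.card : ℝ) := by
  classical
  have hr0 : 0 < r := by omega
  have hrR : (1 : ℝ) ≤ r := by exact_mod_cast (show 1 ≤ r by omega)
  have hrR2 : (1474560 : ℝ) ≤ r := by exact_mod_cast (show 1474560 ≤ r by omega)
  set X : Finset (Fin (r ^ N)) := univ.filter (fun P : Fin (r ^ N) => boxCard σ (r ^ a) (r ^ b) P ≤ 2 ∧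
      boxCard σ (r ^ b) (r ^ a) P ≤ 2) with hXdef
  set x : Fin (r ^ N) → ℕ := fun P => P.val with hx
  set y : Fin (r ^ N) → ℕ := fun P => (σ P).val with hy
  have hX1 : ∀ P ∈ X, boxCard σ (r ^ a) (r ^ b) P ≤ 2 := fun P hP => (mem_filter.mp hP).2.1
  have hX2 : ∀ P ∈ X, boxCard σ (r ^ b) (r ^ a) P ≤ 2 := fun P hP => (mem_filter.mp hP).2.2
  have Hx : ∀ U β h', (X.filter (fun P => x P / r ^ a = U ∧ y P / r ^ h' = β)).card ≤ 2 * r ^ (h' - b) :=
    fun U β h' => count_light σ X r a b hr0 hX1 U β h'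
  have Hy : ∀ V β h', (X.filter (fun P => y P / r ^ a = V ∧ x P / r ^ h' = β)).card ≤ 2 * r ^ (h' - b) :=
    fun V β h' => count_light' σ X r a b hr0 hX2 V β h'
  have hxN : ∀ P ∈ X, x P < r ^ N := fun P _ => P.isLt
  have hyN : ∀ P ∈ X, y P < r ^ N := fun P _ => (σ P).isLt
  have hXN : X.card ≤ r ^ N := by
    have := card_le_univ X
    simpa using this
  have hNh : N - 2 * d - b = h := by omega
  have Hc : ∀ c, (X.filter (fun P => x P / r ^ (a - d) = c)).card ≤ r ^ (a - d) := by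
    intro c
    refine le_trans (card_le_card (filter_subset_filter _ (subset_univ _))) (card_div_le σ (r ^ (a - d)) c (pow_pos hr0 _)).1
  have Hρ : ∀ c, (X.filter (fun P => y P / r ^ (a - d) = c)).card ≤ r ^ (a - d) := by
    intro c
    refine le_trans (card_le_card (filter_subset_filter _ (subset_univ _))) (card_div_le σ (r ^ (a - d)) c (pow_pos hr0 _)).2
  have hsl1 := slots X (fun P => x P / r ^ a) (fun P => y P / r ^ (N - 2 * d)) (2 * r ^ h) (by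
    intro U s
    have := Hx U s (N - 2 * d)
    rw [hNh] at this
    exact this)
  have hsl2 := slots X (fun P => y P / r ^ a) (fun P => x P / r ^ (N - 2 * d)) (2 * r ^ h) (by
    intro U s
    have := Hy U s (N - 2 * d)
    rw [hNh] at this
    exact this)
  obtain ⟨Ω1, i1, i2, κ1, lam1, good1, a1, a2, a3, a4, a5, a6, a7⟩ := side a b th d l k h N r hN hk hh hda hld hth
    (by omega) X x y hyN Hc hsl1
  obtain ⟨Ω2, i3, i4, κ2, lam2, good2, b1, b2, b3, b4, b5, b6, b7⟩ := side a b th d l k h N r hN hk hh hda hld hth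
    (by omega) X y x hxN Hρ hsl2
  obtain ⟨E, hEX, hE, hEcard⟩ := edge_count a b th d l k h N r hN hk hh hda hd hb hr X x y hxN hyN hXN Hx Hy
    hlight good1 good2 a7 b7
  set c : Fin (r ^ N) → ℕ := fun P => x P / r ^ (a - d) with hc
  set ρ : Fin (r ^ N) → ℕ := fun P => y P / r ^ (a - d) with hρ
  have hEX' : ∀ e ∈ E, e.1 ∈ X ∧ e.2 ∈ X := fun e he => mem_product.mp (hEX he)
  have hNk : N - 2 * d = a + k := by omega
  have hdivx : ∀ P, x P / r ^ (a - d) / r ^ d = x P / r ^ a := by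
    intro P
    rw [Nat.div_div_eq_div_mul, ← pow_add, Nat.sub_add_cancel hda]
  have hdivy : ∀ P, y P / r ^ (a - d) / r ^ d = y P / r ^ a := by
    intro P
    rw [Nat.div_div_eq_div_mul, ← pow_add, Nat.sub_add_cancel hda]
  have hxlt : ∀ P, x P / r ^ (a - d) / r ^ d < r ^ (2 * d) * r ^ k := by
    intro P
    rw [hdivx, Nat.div_lt_iff_lt_mul (pow_pos hr0 _), ← pow_add, ← pow_add]
    have : x P < r ^ N := P.isLt
    convert this using 2
    omega
  have hylt : ∀ P, y P / r ^ (a - d) / r ^ d < r ^ (2 * d) * r ^ k := by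
    intro P
    rw [hdivy, Nat.div_lt_iff_lt_mul (pow_pos hr0 _), ← pow_add, ← pow_add]
    have : y P < r ^ N := (σ P).isLt
    convert this using 2
    omega
  set p : ℝ := (r : ℝ) ^ (l + b) / ((r : ℝ) ^ (2 * a + 7 * th + 1) * 251658240 * k) with hp
  have hkr : (1 : ℝ) ≤ k := by exact_mod_cast hk1
  have hp0 : 0 < p := by rw [hp]; positivity
  set φ : ℝ := ((2 * (r : ℝ) - 1) ^ k)⁻¹ with hφ
  have hφ0 : 0 < φ := by
    rw [hφ]; apply inv_pos.mpr; apply pow_pos; linarith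
  -- the key lower bounds for lam1, lam2 on E
  have hpos : ∀ e ∈ E, 24 * p ≤ lam1 (c e.1) (c e.2) * lam2 (ρ e.1) (ρ e.2) := by
    intro e he
    obtain ⟨_, _, _, _, _, _, hB1, hB2⟩ := hE e he
    refine num_C a b th d l k h hk hh hk1 hfin r hrR2 _ _ _ _ p hp (Nat.cast_nonneg _) (Nat.cast_nonneg _)
      (a6 (c e.1) (c e.2)) (by exact_mod_cast hB1) (b6 (ρ e.1) (ρ e.2)) (by exact_mod_cast hB2)
  have hlam1 : ∀ e ∈ E, 0 < lam1 (c e.1) (c e.2) := by
    intro e he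
    rcases lt_or_eq_of_le (a5 (c e.1) (c e.2)) with h | h
    · exact h
    · have := hpos e he
      rw [← h] at this
      linarith
  have hlam2 : ∀ e ∈ E, 0 < lam2 (ρ e.1) (ρ e.2) := by
    intro e he
    rcases lt_or_eq_of_le (b5 (ρ e.1) (ρ e.2)) with h | h
    · exact h
    · have := hpos e he
      rw [← h] at this
      linarith
  obtain ⟨ω1, ω2, M, hME, hM1, hM2, hM3⟩ := thin Ω1 Ω2 E (fun ω e => κ1 ω (c e.1) (c e.2))
    (fun ω e => κ2 ω (ρ e.1) (ρ e.2)) (fun e e' => c e.1 = c e'.1 ∧ c e.2 = c e'.2)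
    (fun e e' => ρ e.1 = ρ e'.1 ∧ ρ e.2 = ρ e'.2)
    (fun e e' h => ⟨h.1.symm, h.2.symm⟩) (fun e e' h => ⟨h.1.symm, h.2.symm⟩)
    (fun e => lam1 (c e.1) (c e.2)) (fun e => lam2 (ρ e.1) (ρ e.2)) φ p hφ0 hp0 hlam1 hlam2
    (by
      intro e he
      apply a3 _ _ (hxlt _) (hxlt _)
      show c e.1 / r ^ d / r ^ k = c e.2 / r ^ d / r ^ k
      rw [hc]
      simp only
      rw [hdivx, hdivx, Nat.div_div_eq_div_mul, Nat.div_div_eq_div_mul, ← pow_add, ← hNk]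
      exact (hE e he).1)
    (by
      intro e he
      apply b3 _ _ (hylt _) (hylt _)
      show ρ e.1 / r ^ d / r ^ k = ρ e.2 / r ^ d / r ^ k
      rw [hρ]
      simp only
      rw [hdivy, hdivy, Nat.div_div_eq_div_mul, Nat.div_div_eq_div_mul, ← pow_add, ← hNk]
      exact (hE e he).2.1)
    (by intro e _ e' _ h; simp only [h.1, h.2])
    (by intro e _ e' _ h; simp only [h.1, h.2])
    (by intro e he; have := hpos e he; show p ≤ lam1 (c e.1) (c e.2) * lam2 (ρ e.1) (ρ e.2); linarith)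
    (by
      intro e he
      obtain ⟨_, _, _, _, _, _, hB1, hB2⟩ := hE e he
      have hd1 := degree_side a b th d l k h N g r hN hk hh hda hab hk1 hg (by omega) X x y hyN Hx good1 E hEX
        (fun e he => ⟨(hE e he).2.1, (hE e he).2.2.1⟩) Ω2 κ2 lam2 b2 b3 b4 hlam2 (lam1 (c e.1) (c e.2)) p
        (hlam1 e he) hp e he (a6 (c e.1) (c e.2)) hB1 (hpos e he)
      convert hd1 using 2
      ext e'
      simp only [mem_filter, hc, hρ])
    (by
      intro e he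
      obtain ⟨_, _, _, _, _, _, hB1, hB2⟩ := hE e he
      have hd1 := degree_side a b th d l k h N g r hN hk hh hda hab hk1 hg (by omega) X y x hxN Hy good2 E hEX
        (fun e he => ⟨(hE e he).1, (hE e he).2.2.2.1⟩) Ω1 κ1 lam1 a2 a3 a4 hlam1 (lam2 (ρ e.1) (ρ e.2)) p
        (hlam2 e he) hp e he (b6 (ρ e.1) (ρ e.2)) hB2
        (by have := hpos e he; rw [mul_comm (lam1 _ _)] at this; exact this)
      convert hd1 using 2
      ext e'
      simp only [mem_filter, hc, hρ])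
  -- the order relations inside M
  have hcol : ∀ e ∈ M, ∀ e' ∈ M, e ≠ e' → (c e.1 < c e'.1 ∧ c e.2 < c e'.2) ∨ (c e'.1 < c e.1 ∧ c e'.2 < c e.2) := by
    intro e he e' he' hne
    rcases a1 ω1 _ _ _ _ (hM1 e he).1 (hM1 e' he').1 with h | h | h
    · exact absurd h (hM2 e he e' he' hne).1
    · exact Or.inl h
    · exact Or.inr h
  have hrow : ∀ e ∈ M, ∀ e' ∈ M, e ≠ e' → (ρ e.1 < ρ e'.1 ∧ ρ e.2 < ρ e'.2) ∨ (ρ e'.1 < ρ e.1 ∧ ρ e'.2 < ρ e.2) := by
    intro e he e' he' hne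
    rcases b1 ω2 _ _ _ _ (hM1 e he).2 (hM1 e' he').2 with h | h | h
    · exact absurd h (hM2 e he e' he' hne).2
    · exact Or.inl h
    · exact Or.inr h
  have hcx : ∀ P Q, c P < c Q → P < Q := by
    intro P Q h
    by_contra hcon
    push Not at hcon
    have : c Q ≤ c P := Nat.div_le_div_right hcon
    omega
  have hρy : ∀ P Q, ρ P < ρ Q → σ P < σ Q := by
    intro P Q h
    by_contra hcon
    push Not at hcon
    have : ρ Q ≤ ρ P := Nat.div_le_div_right hcon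
    omega
  obtain ⟨T, hTM, hTcard, hTdisj⟩ := disj_third M
    (by
      intro e he h
      have := (hE e (hME he)).2.2.2.2.1
      rw [h] at this
      exact this rfl)
    (by
      intro e he e' he' h
      by_contra hne
      rcases hcol e he e' he' hne with h1 | h1
      · rw [h] at h1; exact lt_irrefl _ h1.1
      · rw [h] at h1; exact lt_irrefl _ h1.1)
    (by
      intro e he e' he' h
      by_contra hne
      rcases hcol e he e' he' hne with h1 | h1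
      · rw [h] at h1; exact lt_irrefl _ h1.2
      · rw [h] at h1; exact lt_irrefl _ h1.2)
  refine ⟨T, ⟨hTdisj, ?_, ?_⟩, ?_⟩
  · intro e he e' he'
    by_cases hee : e = e'
    · rw [hee]; simp
    · rcases hcol e (hTM he) e' (hTM he') hee with h | h
      · exact ⟨fun _ => hcx _ _ h.2, fun _ => hcx _ _ h.1⟩
      · exact ⟨fun h' => absurd (hcx _ _ h.1) (not_lt_of_gt h'), fun h' => absurd (hcx _ _ h.2) (not_lt_of_gt h')⟩
  · intro e he e' he'
    by_cases hee : e = e'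
    · rw [hee]; simp
    · rcases hrow e (hTM he) e' (hTM he') hee with h | h
      · exact ⟨fun _ => hρy _ _ h.2, fun _ => hρy _ _ h.1⟩
      · exact ⟨fun h' => absurd (hρy _ _ h.1) (not_lt_of_gt h'), fun h' => absurd (hρy _ _ h.2) (not_lt_of_gt h')⟩
  · exact num_Y a b th d l k N hN hk hk1 r hrR p (E.card : ℝ) (M.card : ℝ) (T.card : ℝ) hp (by exact_mod_cast hEcard)
      hM3 (by exact_mod_cast hTcard)

end Pool.Agent.TwinPerm
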