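import Pool.Agent.TwinPerm.Def

set_option autoImplicit false

/-!
# Tower: the random tower of shifts of `S * B^k` windows

Construction. `Ω = Fin k → Fin (S * B^k + 1) → Fin (2 * B - 1)`. For `t ∈ Ω`, `F t u u'` means: `u, u' < S * B^k`, `u / B^k = u' / B^k`, and for
every `i < k`: `(u' / B^i) % B + (B - 1) = (u / B^i) % B + t i (u / B^(i+1))`, i.e. the digit number `i` is shifted by
`t i (the number formed by the higher digits) - (B - 1) ∈ [-(B-1), B-1]`.
* monotone: let `u < v`; if `u / B^k < v / B^k` clear; otherwise let `i` be the highest digit in which they differ; the higher digits of `u'` and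
  `v'` agree, digit `i` is shifted by the same amount.
* block: if `u / B^e = v / B^e` then the digits `≥ e` of `u'` and `v'` agree (same digits, same shifts), and so do `u' / B^k`, `v' / B^k`.
* probability: `F t u u'` prescribes the values of `t` at the `k` different coordinates `(i, u / B^(i+1))` (a value in `Fin (2B-1)` because digits
  are `< B`), so `(2B-1)^(-k)`. For the pair with `u / B^e ≠ v / B^e`, `e ≤ k`: the coordinates `(i, u / B^(i+1))`, `i < k`, and `(i, v / B^(i+1))`, `i < e`, are
  all different (`u / B^(i+1) = v / B^(i+1)` with `i + 1 ≤ e` would give `u / B^e = v / B^e`), all prescribed: at most `(2B-1)^(-(k+e))`.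
-/

namespace Pool.Agent.TwinPerm

open Finset

/-- probability that the values at the places of `T` are the prescribed ones -/
private lemma pr_prescribed {I : Type} [Fintype I] [DecidableEq I] (n : ℕ) (hn : 0 < n) (T : Finset I)
    (c : I → Fin n) :
    pr (I → Fin n) (fun t => ∀ x ∈ T, t x = c x) = ((n : ℝ) ^ T.card)⁻¹ := by
  classical
  have hcard : (Finset.univ.filter (fun t : I → Fin n => ∀ x ∈ T, t x = c x)).card
      = n ^ (Fintype.card I - T.card) := by
    have h1 : (Finset.univ.filter (fun t : I → Fin n => ∀ x ∈ T, t x = c x))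
        = Fintype.piFinset (fun x => if x ∈ T then ({c x} : Finset (Fin n)) else Finset.univ) := by
      ext t
      simp only [Finset.mem_filter, Finset.mem_univ, true_and, Fintype.mem_piFinset]
      constructor
      · intro h x
        by_cases hx : x ∈ T
        · simp [hx, h x hx]
        · simp [hx]
      · intro h x hx
        have := h x
        simpa [hx] using this
    rw [h1, Fintype.card_piFinset]
    have h2 : ∀ x : I, (if x ∈ T then ({c x} : Finset (Fin n)) else Finset.univ).card
        = if x ∈ T then 1 else n := by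
      intro x
      by_cases hx : x ∈ T <;> simp [hx]
    simp_rw [h2]
    rw [Finset.prod_ite]
    simp only [Finset.prod_const_one, one_mul, Finset.prod_const]
    congr 1
    have h3 : (Finset.univ.filter (fun x => ¬ x ∈ T)) = Tᶜ := by
      ext x; simp
    rw [h3, Finset.card_compl]
  unfold pr
  have h4 : (Finset.univ.filter (fun t : I → Fin n => ∀ x ∈ T, t x = c x)).card * n ^ T.card
      = Fintype.card (I → Fin n) := by
    rw [hcard, ← pow_add, Nat.sub_add_cancel (Finset.card_le_univ T)]
    simp
  have hn' : (n : ℝ) ^ T.card ≠ 0 := pow_ne_zero _ (by exact_mod_cast hn.ne')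
  have h5 : ((Finset.univ.filter (fun t : I → Fin n => ∀ x ∈ T, t x = c x)).card : ℝ) * (n : ℝ) ^ T.card
      = (Fintype.card (I → Fin n) : ℝ) := by exact_mod_cast h4
  have h6 : (Fintype.card (I → Fin n) : ℝ) ≠ 0 := by
    have : Nonempty (I → Fin n) := ⟨c⟩
    exact_mod_cast Fintype.card_ne_zero
  have h7 : ((Finset.univ.filter (fun t : I → Fin n => ∀ x ∈ T, t x = c x)).card : ℝ) ≠ 0 := by
    intro h0
    rw [h0, zero_mul] at h5
    exact h6 h5.symm
  convert (show ((Finset.univ.filter (fun t : I → Fin n => ∀ x ∈ T, t x = c x)).card : ℝ)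
      / (Fintype.card (I → Fin n) : ℝ) = ((n : ℝ) ^ T.card)⁻¹ from ?_)
  rw [← h5]
  field_simp

private lemma pr_mono {Ω : Type} [Fintype Ω] (p q : Ω → Prop) (h : ∀ ω, p ω → q ω) : pr Ω p ≤ pr Ω q := by
  classical
  unfold pr
  apply div_le_div_of_nonneg_right _ (by positivity)
  exact_mod_cast Finset.card_le_card (fun ω hω => by
    simp only [Finset.mem_filter, Finset.mem_univ, true_and] at hω ⊢
    exact h ω hω)

/-- the relation -/
private def TF (B k S : ℕ) (t : Fin k × Fin (S * B ^ k + 1) → Fin (2 * B - 1)) (u u' : ℕ) : Prop :=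
  u < S * B ^ k ∧ u' < S * B ^ k ∧ u / B ^ k = u' / B ^ k ∧
    ∀ i : Fin k, (u' / B ^ i.val) % B + (B - 1) =
      (u / B ^ i.val) % B + (t (i, Fin.ofNat (S * B ^ k + 1) (u / B ^ (i.val + 1)))).val

private lemma div_step (B u e : ℕ) : u / B ^ e = B * (u / B ^ (e + 1)) + (u / B ^ e) % B := by
  rw [pow_succ, ← Nat.div_div_eq_div_mul]
  exact (Nat.div_add_mod _ _).symm

private lemma TF_cmp (B k S : ℕ) (hB : 1 ≤ B) (t : Fin k × Fin (S * B ^ k + 1) → Fin (2 * B - 1))
    (u u' v v' : ℕ) (hu : TF B k S t u u') (hv : TF B k S t v v') (d : ℕ) (hd : d ≤ k) :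
    (u / B ^ (k - d) < v / B ^ (k - d) → u' / B ^ (k - d) < v' / B ^ (k - d)) ∧
    (u / B ^ (k - d) = v / B ^ (k - d) → u' / B ^ (k - d) = v' / B ^ (k - d)) := by
  induction d with
  | zero =>
    obtain ⟨-, -, h1, -⟩ := hu
    obtain ⟨-, -, h2, -⟩ := hv
    simp only [Nat.sub_zero]
    rw [← h1, ← h2]
    exact ⟨id, id⟩
  | succ d ih =>
    obtain ⟨ih1, ih2⟩ := ih (by omega)
    obtain ⟨e, he⟩ : ∃ e, k - (d + 1) = e := ⟨_, rfl⟩
    have he' : k - d = e + 1 := by omega
    have hek : e < k := by omega
    rw [he'] at ih1 ih2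
    rw [he]
    have hu4 := hu.2.2.2 ⟨e, hek⟩
    have hv4 := hv.2.2.2 ⟨e, hek⟩
    simp only at hu4 hv4
    have su := div_step B u e
    have su' := div_step B u' e
    have sv := div_step B v e
    have sv' := div_step B v' e
    have hBpos : 0 < B := hB
    have mu := Nat.mod_lt (u / B ^ e) hBpos
    have mu' := Nat.mod_lt (u' / B ^ e) hBpos
    have mv := Nat.mod_lt (v / B ^ e) hBpos
    have mv' := Nat.mod_lt (v' / B ^ e) hBpos
    rcases lt_trichotomy (u / B ^ (e + 1)) (v / B ^ (e + 1)) with hlt | heq | hgt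
    · have h1 := ih1 hlt
      have h2 : B * (u' / B ^ (e + 1)) + B ≤ B * (v' / B ^ (e + 1)) := by
        calc B * (u' / B ^ (e + 1)) + B = B * (u' / B ^ (e + 1) + 1) := by ring
          _ ≤ _ := Nat.mul_le_mul_left _ h1
      have h3 : B * (u / B ^ (e + 1)) + B ≤ B * (v / B ^ (e + 1)) := by
        calc B * (u / B ^ (e + 1)) + B = B * (u / B ^ (e + 1) + 1) := by ring
          _ ≤ _ := Nat.mul_le_mul_left _ hlt
      constructor
      · intro _; omega
      · intro h; omega
    · have h1 := ih2 heq
      rw [heq] at hu4 su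
      rw [h1] at su'
      constructor
      · intro h; omega
      · intro h; omega
    · have h3 : B * (v / B ^ (e + 1)) + B ≤ B * (u / B ^ (e + 1)) := by
        calc B * (v / B ^ (e + 1)) + B = B * (v / B ^ (e + 1) + 1) := by ring
          _ ≤ _ := Nat.mul_le_mul_left _ hgt
      constructor
      · intro h; omega
      · intro h; omega

private lemma TF_block (B k S : ℕ) (hB : 1 ≤ B) (t : Fin k × Fin (S * B ^ k + 1) → Fin (2 * B - 1))
    (u u' v v' e : ℕ) (hu : TF B k S t u u') (hv : TF B k S t v v') (h : u / B ^ e = v / B ^ e) :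
    u' / B ^ e = v' / B ^ e := by
  rcases le_total e k with hek | hek
  · have := (TF_cmp B k S hB t u u' v v' hu hv (k - e) (by omega)).2
    rw [show k - (k - e) = e by omega] at this
    exact this h
  · obtain ⟨f, rfl⟩ := Nat.exists_eq_add_of_le hek
    rw [pow_add, ← Nat.div_div_eq_div_mul, ← Nat.div_div_eq_div_mul] at h ⊢
    rw [← hu.2.2.1, ← hv.2.2.1]
    exact h

/-- the places prescribed by `u`, digits below `e` -/
private def places (B k S e u : ℕ) : Finset (Fin k × Fin (S * B ^ k + 1)) :=
  (Finset.univ.filter (fun i : Fin k => i.val < e)).image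
    (fun i => (i, Fin.ofNat (S * B ^ k + 1) (u / B ^ (i.val + 1))))

private lemma mem_places (B k S e u : ℕ) (x : Fin k × Fin (S * B ^ k + 1)) :
    x ∈ places B k S e u ↔ x.1.val < e ∧ x.2 = Fin.ofNat (S * B ^ k + 1) (u / B ^ (x.1.val + 1)) := by
  unfold places
  simp only [Finset.mem_image, Finset.mem_filter, Finset.mem_univ, true_and]
  constructor
  · rintro ⟨i, hi, rfl⟩
    exact ⟨hi, rfl⟩
  · rintro ⟨h1, h2⟩
    exact ⟨x.1, h1, Prod.ext rfl h2.symm⟩

private lemma card_places (B k S e u : ℕ) (he : e ≤ k) : (places B k S e u).card = e := by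
  unfold places
  rw [Finset.card_image_of_injective]
  · have : (Finset.univ.filter (fun i : Fin k => i.val < e)).card
        = ((Finset.univ : Finset (Fin e)).map (Fin.castLEEmb he)).card := by
      congr 1
      ext i
      simp only [Finset.mem_filter, Finset.mem_univ, true_and, Finset.mem_map]
      constructor
      · intro h
        exact ⟨⟨i.val, h⟩, by ext; simp⟩
      · rintro ⟨j, rfl⟩
        simp
    rw [this, Finset.card_map, Finset.card_univ, Fintype.card_fin]
  · intro i j h
    exact (Prod.mk.inj h).1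

/-- the prescribed value -/
private def cval (B : ℕ) (hB : 1 ≤ B) (u u' i : ℕ) : Fin (2 * B - 1) :=
  ⟨(u' / B ^ i) % B + (B - 1) - (u / B ^ i) % B, by
    have := Nat.mod_lt (u' / B ^ i) hB
    omega⟩

private lemma cval_iff (B : ℕ) (hB : 1 ≤ B) (u u' i : ℕ) (x : Fin (2 * B - 1)) :
    ((u' / B ^ i) % B + (B - 1) = (u / B ^ i) % B + x.val) ↔ x = cval B hB u u' i := by
  have h1 := Nat.mod_lt (u / B ^ i) hB
  unfold cval
  rw [Fin.ext_iff]
  simp only
  omega

theorem tower (B k S : ℕ) (hB : 1 ≤ B) :
    ∃ (Ω : Type) (_ : Fintype Ω) (_ : Nonempty Ω) (F : Ω → ℕ → ℕ → Prop),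
      (∀ ω u u' v v', F ω u u' → F ω v v' → u < v → u' < v') ∧
      (∀ ω u u' u'', F ω u u' → F ω u u'' → u' = u'') ∧
      (∀ ω u u', F ω u u' → u < S * B ^ k ∧ u' < S * B ^ k ∧ u / B ^ k = u' / B ^ k) ∧
      (∀ ω u u' v v' e, F ω u u' → F ω v v' → u / B ^ e = v / B ^ e → u' / B ^ e = v' / B ^ e) ∧
      (∀ u u', u < S * B ^ k → u' < S * B ^ k → u / B ^ k = u' / B ^ k →
        pr Ω (fun ω => F ω u u') = ((2 * (B : ℝ) - 1) ^ k)⁻¹) ∧
      (∀ u v u' v' e, e ≤ k → u / B ^ e ≠ v / B ^ e →
        pr Ω (fun ω => F ω u u' ∧ F ω v v') ≤ ((2 * (B : ℝ) - 1) ^ k)⁻¹ * ((B : ℝ) ^ e)⁻¹) := by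
  classical
  have hpos : 0 < 2 * B - 1 := by omega
  have hcast : (((2 * B - 1 : ℕ)) : ℝ) = 2 * (B : ℝ) - 1 := by
    rw [Nat.cast_sub (by omega)]
    push_cast
    ring
  have hBr : (1 : ℝ) ≤ B := by exact_mod_cast hB
  refine ⟨Fin k × Fin (S * B ^ k + 1) → Fin (2 * B - 1), inferInstance, ⟨fun _ => ⟨0, hpos⟩⟩, TF B k S,
    ?_, ?_, ?_, ?_, ?_, ?_⟩
  · intro t u u' v v' hu hv h
    have := (TF_cmp B k S hB t u u' v v' hu hv k le_rfl).1
    simpa using this (by simpa using h)
  · intro t u u' u'' hu hv
    have := TF_block B k S hB t u u' u u'' 0 hu hv rfl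
    simpa using this
  · intro t u u' h
    exact ⟨h.1, h.2.1, h.2.2.1⟩
  · intro t u u' v v' e hu hv h
    exact TF_block B k S hB t u u' v v' e hu hv h
  · intro u u' hu hu' hh
    have key : (fun t : Fin k × Fin (S * B ^ k + 1) → Fin (2 * B - 1) => TF B k S t u u')
        = fun t => ∀ x ∈ places B k S k u, t x = cval B hB u u' x.1.val := by
      funext t
      apply propext
      constructor
      · rintro ⟨-, -, -, h⟩ x hx
        rw [mem_places] at hx
        have h2 := (cval_iff B hB u u' x.1.val _).mp (h x.1)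
        rw [← hx.2] at h2
        exact h2
      · intro h
        refine ⟨hu, hu', hh, fun i => ?_⟩
        rw [cval_iff B hB]
        exact h _ ((mem_places B k S k u _).mpr ⟨i.isLt, rfl⟩)
    rw [key, pr_prescribed (2 * B - 1) hpos, card_places B k S k u le_rfl, hcast]
  · intro u v u' v' e he hne
    by_cases hb : u < S * B ^ k ∧ v < S * B ^ k
    · obtain ⟨hu, hv⟩ := hb
      set T := places B k S k u ∪ places B k S e v with hT
      set c : Fin k × Fin (S * B ^ k + 1) → Fin (2 * B - 1) := fun x =>
        if x ∈ places B k S k u then cval B hB u u' x.1.val else cval B hB v v' x.1.val with hc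
      have hdisj : Disjoint (places B k S k u) (places B k S e v) := by
        rw [Finset.disjoint_left]
        intro x hx hy
        rw [mem_places] at hx hy
        have h1 := hx.2.symm.trans hy.2
        have h2 := congrArg Fin.val h1
        have lu : u / B ^ (x.1.val + 1) < S * B ^ k + 1 :=
          lt_of_le_of_lt (Nat.div_le_self _ _) (by omega)
        have lv : v / B ^ (x.1.val + 1) < S * B ^ k + 1 :=
          lt_of_le_of_lt (Nat.div_le_self _ _) (by omega)
        simp only [Fin.ofNat_eq_cast, Fin.val_natCast] at h2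
        rw [Nat.mod_eq_of_lt lu, Nat.mod_eq_of_lt lv] at h2
        apply hne
        obtain ⟨f, hf⟩ := Nat.exists_eq_add_of_le (show x.1.val + 1 ≤ e from hy.1)
        rw [hf, pow_add, ← Nat.div_div_eq_div_mul, ← Nat.div_div_eq_div_mul, h2]
      have hcardT : T.card = k + e := by
        rw [hT, Finset.card_union_of_disjoint hdisj, card_places B k S k u le_rfl, card_places B k S e v he]
      have hle : pr (Fin k × Fin (S * B ^ k + 1) → Fin (2 * B - 1)) (fun ω => TF B k S ω u u' ∧ TF B k S ω v v')
          ≤ pr (Fin k × Fin (S * B ^ k + 1) → Fin (2 * B - 1)) (fun t => ∀ x ∈ T, t x = c x) := by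
        apply pr_mono
        rintro t ⟨⟨-, -, -, h1⟩, ⟨-, -, -, h2⟩⟩ x hx
        by_cases hxu : x ∈ places B k S k u
        · rw [hc]
          simp only [hxu, if_true]
          rw [mem_places] at hxu
          have h3 := (cval_iff B hB u u' x.1.val _).mp (h1 x.1)
          rw [← hxu.2] at h3
          exact h3
        · have hxv : x ∈ places B k S e v := by
            rw [hT, Finset.mem_union] at hx
            exact hx.resolve_left hxu
          rw [hc]
          simp only [hxu, if_false]
          rw [mem_places] at hxv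
          have h3 := (cval_iff B hB v v' x.1.val _).mp (h2 x.1)
          rw [← hxv.2] at h3
          exact h3
      refine hle.trans ?_
      rw [pr_prescribed (2 * B - 1) hpos, hcardT, hcast, pow_add, mul_inv]
      apply mul_le_mul_of_nonneg_left
      · apply inv_anti₀ (by positivity)
        apply pow_le_pow_left₀ (by positivity)
        linarith
      · apply inv_nonneg.mpr
        apply pow_nonneg
        linarith
    · have : pr (Fin k × Fin (S * B ^ k + 1) → Fin (2 * B - 1)) (fun ω => TF B k S ω u u' ∧ TF B k S ω v v') = 0 := by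
        have h0 : (fun ω => TF B k S ω u u' ∧ TF B k S ω v v')
            = fun _ : Fin k × Fin (S * B ^ k + 1) → Fin (2 * B - 1) => False := by
          funext t
          apply propext
          constructor
          · rintro ⟨h1, h2⟩
            exact hb ⟨h1.1, h2.1⟩
          · exact fun h => h.elim
        rw [h0]
        unfold pr
        simp
      rw [this]
      apply mul_nonneg
      · apply inv_nonneg.mpr
        apply pow_nonneg
        linarith
      · positivity

end Pool.Agent.TwinPerm
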